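import Pool.Agent.SMC.Defs

/-!
# GPM: Theorem B, part IV (second moment, geometry, density).  Definitions

Theorem B: for every `k` there is `K` such that for almost every `α > 1`, all real `b`, `0 ≤ β ≤ 1` and `m ≥ 1` there is a multiple `j ≤ K m` of `m`
such that many primes start a chain of exact length `k` under the map `q ↦ ⌊A^j q + β⌋`, `A x = α x + b`. With `α = e^u`, `τ = e^(j u)`,
`A^j q + β = τ q + γ`, `γ = ga j b β u`. The input from part I-III (folder `GPR`) is `BB k n`: many geometric progressions `y τ^i`, `i < k`, near primes.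
-/

namespace GPM

open MeasureTheory SMC

/-- The constant term of `A^j q + β`, `A x = e^u x + b`. -/
noncomputable def ga (j : ℕ) (b β u : ℝ) : ℝ := b * ((Real.exp (j * u) - 1) / (Real.exp u - 1)) + β

/-- The chain of `p` under `T τ γ` consists of `k` primes and then an even number `≥ 4`, and all roundings have the margin `ε`. -/
def Rob (ε γ τ : ℝ) (k p : ℕ) : Prop :=
  (∀ i < k, ((T τ γ)^[i] p).Prime) ∧
  (∀ i < k, ((T τ γ)^[i + 1] p : ℝ) + ε ≤ τ * ((T τ γ)^[i] p : ℕ) + γ ∧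
    τ * ((T τ γ)^[i] p : ℕ) + γ ≤ ((T τ γ)^[i + 1] p : ℕ) + 1 - ε) ∧
  Even ((T τ γ)^[k] p) ∧ 4 ≤ (T τ γ)^[k] p

open Classical in
/-- The number of the `p ≤ Y` with `Rob`. -/
noncomputable def cR (ε γ τ : ℝ) (k : ℕ) (Y : ℝ) : ℕ :=
  ((Finset.Icc 1 ⌊Y⌋₊).filter fun p : ℕ => Rob ε γ τ k p).card

open Classical in
/-- The number of the `p` with `|log p - w| ≤ 2` and `Rob`. -/
noncomputable def cW (ε γ τ : ℝ) (k : ℕ) (w : ℝ) : ℕ :=
  ((Finset.Icc 1 ⌊Real.exp (w + 2)⌋₊).filter fun p : ℕ => |Real.log p - w| ≤ 2 ∧ Rob ε γ τ k p).card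

/-- The numbers `⌊e^(a (i+1) u) m + g i⌋`. -/
noncomputable def nm {K : ℕ} (a : ℕ) (g : Fin K → ℝ) (m : ℕ) (i : Fin K) (u : ℝ) : ℕ :=
  ⌊Real.exp ((a : ℝ) * (((i : ℕ) : ℝ) + 1) * u) * m + g i⌋₊

/-- The same for a pair `m`, `m'`. -/
noncomputable def nn {K : ℕ} (a : ℕ) (g : Fin K → ℝ) (m m' : ℕ) (i : Fin (K + K)) (u : ℝ) : ℕ :=
  Fin.addCases (motive := fun _ => ℕ) (fun i => nm a g m i u) (fun i => nm a g m' i u) i

open Classical in
/-- The number of the primes `m` with `|log m - w| ≤ 2` for which all `nm a g m i u` are primes. -/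
noncomputable def NG {K : ℕ} (a : ℕ) (g : Fin K → ℝ) (w u : ℝ) : ℕ :=
  ((Finset.Icc 1 ⌊Real.exp (w + 2)⌋₊).filter fun m : ℕ =>
    m.Prime ∧ |Real.log m - w| ≤ 2 ∧ ∀ i : Fin K, (nm a g m i u).Prime).card

/-- The result of the parts I-III. -/
def BB (k n : ℕ) : Prop :=
  ∀ μ s ε : ℝ, 1 < μ → 0 < ε → ∃ c : ℝ, 0 < c ∧ ∀ η : ℝ, 0 < η → η ≤ 1 → ∃ w0 : ℝ, ∀ w : ℝ, w0 ≤ w →
    ∃ j0 d : ℕ, 1 ≤ d ∧ d ≤ n ∧ j0 + (k - 1) * d ≤ (k - 1) * n ∧
      ENNReal.ofReal (c * η ^ 2 / w ^ k) ≤ volume {z : ℝ × ℝ | z.1 ∈ Set.Icc 0 η ∧ z.2 ∈ Set.Icc 0 η ∧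
        ∀ i < k, ∃ p : ℕ, p.Prime ∧
          |Real.exp (w + ((j0 : ℝ) + i * d) * Real.log μ + z.1 + i * z.2) - s - p| ≤ ε}

/-! ### basic facts -/

theorem nn_left {K : ℕ} (a : ℕ) (g : Fin K → ℝ) (m m' : ℕ) (i : Fin K) (u : ℝ) :
    nn a g m m' (Fin.castAdd K i) u = nm a g m i u := by
  unfold nn
  rw [Fin.addCases_left]

theorem nn_right {K : ℕ} (a : ℕ) (g : Fin K → ℝ) (m m' : ℕ) (i : Fin K) (u : ℝ) :
    nn a g m m' (Fin.natAdd K i) u = nm a g m' i u := by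
  unfold nn
  rw [Fin.addCases_right]

theorem fin_add {K : ℕ} {P : Fin (K + K) → Prop} :
    (∀ i, P i) ↔ (∀ i : Fin K, P (Fin.castAdd K i)) ∧ ∀ i : Fin K, P (Fin.natAdd K i) := by
  constructor
  · intro h
    exact ⟨fun i => h _, fun i => h _⟩
  · rintro ⟨h1, h2⟩ i
    exact Fin.addCases h1 h2 i

theorem nm_meas {K : ℕ} (a : ℕ) (g : Fin K → ℝ) (m : ℕ) (i : Fin K) : Measurable (nm a g m i) := by
  unfold nm
  exact Nat.measurable_floor.comp (by fun_prop)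

theorem nn_meas {K : ℕ} (a : ℕ) (g : Fin K → ℝ) (m m' : ℕ) (i : Fin (K + K)) :
    Measurable (nn a g m m' i) := by
  revert i
  rw [fin_add]
  refine ⟨fun i => ?_, fun i => ?_⟩
  · have : nn a g m m' (Fin.castAdd K i) = nm a g m i := funext fun u => nn_left a g m m' i u
    rw [this]
    exact nm_meas a g m i
  · have : nn a g m m' (Fin.natAdd K i) = nm a g m' i := funext fun u => nn_right a g m m' i u
    rw [this]
    exact nm_meas a g m' i

theorem it_meas {τ γ : ℝ → ℝ} (hτ : Measurable τ) (hγ : Measurable γ) (p i : ℕ) :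
    Measurable fun u : ℝ => (T (τ u) (γ u))^[i] p := by
  induction i with
  | zero => exact measurable_const
  | succ i ih =>
    have e : (fun u : ℝ => (T (τ u) (γ u))^[i + 1] p) =
        fun u : ℝ => ⌊τ u * (((T (τ u) (γ u))^[i] p : ℕ) : ℝ) + γ u⌋₊ := by
      funext u
      rw [Function.iterate_succ_apply']
      rfl
    rw [e]
    have h1 : Measurable fun u : ℝ => (((T (τ u) (γ u))^[i] p : ℕ) : ℝ) := measurable_from_nat.comp ih
    exact Nat.measurable_floor.comp ((hτ.mul h1).add hγ)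

theorem rob_meas {τ γ : ℝ → ℝ} (hτ : Measurable τ) (hγ : Measurable γ) (ε : ℝ) (k p : ℕ) :
    MeasurableSet {u : ℝ | Rob ε (γ u) (τ u) k p} := by
  have h1 : ∀ i : ℕ, Measurable fun u : ℝ => (((T (τ u) (γ u))^[i] p : ℕ) : ℝ) := fun i =>
    measurable_from_nat.comp (it_meas hτ hγ p i)
  have e : {u : ℝ | Rob ε (γ u) (τ u) k p} =
      (⋂ i : ℕ, ⋂ _ : i < k, {u : ℝ | ((T (τ u) (γ u))^[i] p).Prime}) ∩
      ((⋂ i : ℕ, ⋂ _ : i < k, ({u : ℝ | ((T (τ u) (γ u))^[i + 1] p : ℝ) + ε ≤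
          τ u * ((T (τ u) (γ u))^[i] p : ℕ) + γ u} ∩
        {u : ℝ | τ u * ((T (τ u) (γ u))^[i] p : ℕ) + γ u ≤ ((T (τ u) (γ u))^[i + 1] p : ℕ) + 1 - ε})) ∩
      ({u : ℝ | Even ((T (τ u) (γ u))^[k] p)} ∩ {u : ℝ | 4 ≤ (T (τ u) (γ u))^[k] p})) := by
    ext u
    simp only [Set.mem_inter_iff, Set.mem_iInter, Rob, Set.mem_ofPred_eq]
  rw [e]
  have hP : ∀ (i : ℕ) (Q : ℕ → Prop), MeasurableSet {u : ℝ | Q ((T (τ u) (γ u))^[i] p)} := fun i Q =>
    it_meas hτ hγ p i (MeasurableSet.of_discrete (s := {n : ℕ | Q n}))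
  refine (MeasurableSet.iInter fun i => MeasurableSet.iInter fun _ => hP i _).inter
    ((MeasurableSet.iInter fun i => MeasurableSet.iInter fun _ => ?_).inter ((hP k _).inter (hP k _)))
  refine MeasurableSet.inter ?_ ?_
  · exact measurableSet_le ((h1 (i + 1)).add_const ε) ((hτ.mul (h1 i)).add hγ)
  · exact measurableSet_le ((hτ.mul (h1 i)).add hγ) (((h1 (i + 1)).add_const 1).sub_const ε)

theorem cR_meas {τ γ : ℝ → ℝ} (hτ : Measurable τ) (hγ : Measurable γ) (ε : ℝ) (k : ℕ) (Y : ℝ) :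
    Measurable fun u : ℝ => (cR ε (γ u) (τ u) k Y : ℝ) := by
  classical
  have e : (fun u : ℝ => (cR ε (γ u) (τ u) k Y : ℝ)) = fun u : ℝ => ∑ p ∈ Finset.Icc 1 ⌊Y⌋₊,
      Set.indicator {u : ℝ | Rob ε (γ u) (τ u) k p} (fun _ => (1 : ℝ)) u := by
    funext u
    unfold cR
    rw [Finset.card_filter]
    push_cast
    refine Finset.sum_congr rfl fun p _ => ?_
    by_cases h : Rob ε (γ u) (τ u) k p
    · rw [if_pos h, Set.indicator_of_mem (show u ∈ {u : ℝ | Rob ε (γ u) (τ u) k p} from h)]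
    · rw [if_neg h, Set.indicator_of_notMem (show u ∉ {u : ℝ | Rob ε (γ u) (τ u) k p} from h)]
  rw [e]
  exact Finset.measurable_sum _ fun p _ => measurable_const.indicator (rob_meas hτ hγ ε k p)

/-- The primes (and other numbers) of the window. -/
noncomputable def win (w : ℝ) : Finset ℕ :=
  letI := Classical.decPred fun p : ℕ => |Real.log p - w| ≤ 2
  (Finset.Icc 1 ⌊Real.exp (w + 2)⌋₊).filter fun p : ℕ => |Real.log p - w| ≤ 2

theorem mem_win {w : ℝ} {p : ℕ} : p ∈ win w ↔ (1 ≤ p ∧ p ≤ ⌊Real.exp (w + 2)⌋₊) ∧ |Real.log p - w| ≤ 2 := by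
  unfold win
  rw [Finset.mem_filter, Finset.mem_Icc]

theorem cW_sum (ε : ℝ) (k : ℕ) (w : ℝ) (τ γ : ℝ → ℝ) (u : ℝ) :
    (cW ε (γ u) (τ u) k w : ENNReal) = ∑ p ∈ win w,
      Set.indicator {u : ℝ | Rob ε (γ u) (τ u) k p} (fun _ => (1 : ENNReal)) u := by
  classical
  have e0 : cW ε (γ u) (τ u) k w = ((win w).filter fun p : ℕ => Rob ε (γ u) (τ u) k p).card := by
    unfold cW
    congr 1
    ext p
    rw [Finset.mem_filter, Finset.mem_filter, mem_win, Finset.mem_Icc]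
    tauto
  rw [e0, Finset.card_filter]
  push_cast
  refine Finset.sum_congr rfl fun p _ => ?_
  by_cases h : Rob ε (γ u) (τ u) k p
  · rw [if_pos h, Set.indicator_of_mem (show u ∈ {u : ℝ | Rob ε (γ u) (τ u) k p} from h)]
  · rw [if_neg h, Set.indicator_of_notMem (show u ∉ {u : ℝ | Rob ε (γ u) (τ u) k p} from h)]

theorem cW_meas {τ γ : ℝ → ℝ} (hτ : Measurable τ) (hγ : Measurable γ) (ε : ℝ) (k : ℕ) (w : ℝ) :
    Measurable fun u : ℝ => (cW ε (γ u) (τ u) k w : ENNReal) := by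
  simp_rw [cW_sum]
  exact Finset.measurable_fun_sum _ fun p _ => measurable_const.indicator (rob_meas hτ hγ ε k p)

/-- The integral of `cW`. -/
theorem cW_int {τ γ : ℝ → ℝ} (hτ : Measurable τ) (hγ : Measurable γ) (ε : ℝ) (k : ℕ) (w : ℝ) {S : Set ℝ}
    (hS : MeasurableSet S) :
    ∫⁻ u in S, (cW ε (γ u) (τ u) k w : ENNReal) = ∑ p ∈ win w, volume (S ∩ {u : ℝ | Rob ε (γ u) (τ u) k p}) := by
  simp_rw [cW_sum]
  rw [lintegral_finsetSum _ fun p _ => measurable_const.indicator (rob_meas hτ hγ ε k p)]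
  refine Finset.sum_congr rfl fun p _ => ?_
  rw [lintegral_indicator (rob_meas hτ hγ ε k p), lintegral_const, one_mul,
    Measure.restrict_restrict (rob_meas hτ hγ ε k p), Measure.restrict_apply MeasurableSet.univ, Set.univ_inter,
    Set.inter_comm]

theorem rob_eq {ε γ γ' τ : ℝ} {k p : ℕ} (h : |γ' - γ| < ε) (hR : Rob ε γ τ k p) :
    ∀ i ≤ k, (T τ γ')^[i] p = (T τ γ)^[i] p := by
  intro i
  induction i with
  | zero => intro _; rfl
  | succ i ih =>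
    intro hi
    obtain ⟨-, h2, -⟩ := hR
    obtain ⟨h3, h4⟩ := h2 i (by omega)
    rw [Function.iterate_succ_apply', ih (by omega)]
    have h5 := abs_lt.1 h
    unfold T at *
    have h6 : (((fun q : ℕ => ⌊τ * (q : ℝ) + γ⌋₊)^[i + 1] p : ℕ) : ℝ) ≤
        τ * (((fun q : ℕ => ⌊τ * (q : ℝ) + γ⌋₊)^[i] p : ℕ) : ℝ) + γ' := by
      linarith [h5.1]
    have h7 : τ * (((fun q : ℕ => ⌊τ * (q : ℝ) + γ⌋₊)^[i] p : ℕ) : ℝ) + γ' <
        (((fun q : ℕ => ⌊τ * (q : ℝ) + γ⌋₊)^[i + 1] p : ℕ) : ℝ) + 1 := by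
      linarith [h5.2]
    exact (Nat.floor_eq_iff (le_trans (Nat.cast_nonneg _) h6)).2 ⟨h6, h7⟩

/-- The margin absorbs a change of `γ`. -/
theorem rob_mono {ε δ γ γ' τ : ℝ} {k p : ℕ} (h : |γ' - γ| ≤ δ) (hδ : δ < ε) (hR : Rob ε γ τ k p) :
    Rob (ε - δ) γ' τ k p := by
  have he := rob_eq (lt_of_le_of_lt h hδ) hR
  obtain ⟨h1, h2, h3, h4⟩ := hR
  have h5 := abs_le.1 h
  refine ⟨fun i hi => ?_, fun i hi => ?_, ?_, ?_⟩
  · rw [he i hi.le]
    exact h1 i hi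
  · rw [he i hi.le, he (i + 1) hi]
    obtain ⟨h6, h7⟩ := h2 i hi
    constructor
    · linarith [h5.1]
    · linarith [h5.2]
  · rw [he k le_rfl]
    exact h3
  · rw [he k le_rfl]
    exact h4

/-- `Rob` gives exact length `k` for all close `γ'`. -/
theorem rob_exact {ε γ γ' τ : ℝ} {k p : ℕ} (h : |γ' - γ| < ε) (hR : Rob ε γ τ k p) :
    StartsExact τ γ' p k := by
  have he := rob_eq h hR
  obtain ⟨h1, -, h3, h4⟩ := hR
  refine ⟨fun i hi => ?_, ?_, ?_⟩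
  · rw [he i hi.le]
    exact h1 i hi
  · rw [he k le_rfl]
    omega
  · rw [he k le_rfl]
    intro hp
    rcases (Nat.Prime.even_iff hp).1 h3 with h
    omega

theorem cW_le {ε γ τ w : ℝ} {k : ℕ} {Y : ℝ} (h : Real.exp (w + 2) ≤ Y) : cW ε γ τ k w ≤ cR ε γ τ k Y := by
  classical
  unfold cW cR
  refine Finset.card_le_card fun p hp => ?_
  rw [Finset.mem_filter, Finset.mem_Icc] at hp ⊢
  exact ⟨⟨hp.1.1, hp.1.2.trans (Nat.floor_le_floor h)⟩, hp.2.2⟩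

end GPM
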