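import Pool.Agent.GPM.Vdc

/-!
# GPM.Osc: oscillating integrals with the phase `c0 + ∑ c_i e^(a (i+1) u)`

PROOF. `L = max_i |c i| ≥ Λ`. `f 0 = c0 + ∑ c i e^(a(i+1)u)`, `f j = ∑ c i (a(i+1))^j e^(a(i+1)u)` for `j ≥ 1`. `U = max |u1| |u2|`.
(A) There is `κ > 0` (depending on `K, a, U`) such that for all `u ∈ [u1, u2]` some `j` with `2 ≤ j ≤ K+1` has `|f j u| ≥ κ L`: put
`x_i = c_i (a(i+1))² e^(a(i+1)u)`, `v_i = a(i+1)`; then `f (2+j) u = ∑_i x_i v_i^j` for `j < K`, i.e. `(f (2+j) u)_j = x ᵥ* V`, `V = Matrix.vandermonde v`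
(`v` injective, `Matrix.det_vandermonde_ne_zero_iff`), so `x = (f (2+j) u)_j ᵥ* V⁻¹` and `|x_i| ≤ (∑ of all |V⁻¹ entries|) max_j |f (2+j) u|`;
`|x_i| ≥ |c_i| e^(-aKU)`, apply it for the `i` with `|c_i| = L`.
(B) `|f (j+1) u| ≤ B L` for `j ≤ K+1`, `u ∈ [u1,u2]`, with `B = K (aK)^(K+2) e^(aKU)` (or any bound), so `f j` is Lipschitz with the constant `B L` on `[u1, u2]`.
(C) `N ≥ 1` with `(u2 - u1)/N ≤ κ/(2B)`; divide `[u1, u2]` into `N` equal intervals `J`. At the left end point `u` of `J` some `j` has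
`|f j u| ≥ κ L`, and `|f j t - f j u| ≤ κ L/2` on `J`, so `f j ≥ κL/2` on all of `J` or `f j ≤ -κL/2` on all of `J`. `vdc` of order `j` with `r = κ L/2`:
the integral over `J` is at most `C_j / (κL/2)^(1/j) ≤ C_j (1 + 2/κ) / L^(1/(K+1))` (`L ≥ 1`, `2 ≤ j ≤ K+1`), and `L ≥ Λ`. Sum over the `N` intervals
(`intervalIntegral.sum_integral_adjacent_intervals`); `C = N max_j C_j (1 + 2/κ)` (with `+ 1` to have `C ≥ 1`).
-/

namespace GPM

open MeasureTheory

private theorem osc_vdcU (M : ℕ) : ∃ C : ℝ, 1 ≤ C ∧ ∀ l : ℕ, 2 ≤ l → l ≤ M → ∀ (f : ℕ → ℝ → ℝ) (a b r : ℝ), a ≤ b → 0 < r →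
    (∀ j < l, ∀ t ∈ Set.Icc a b, HasDerivAt (f j) (f (j + 1) t) t) → ContinuousOn (f l) (Set.Icc a b) →
    ((∀ t ∈ Set.Icc a b, f l t ≤ -r) ∨ (∀ t ∈ Set.Icc a b, r ≤ f l t)) →
    ‖∫ t in a..b, Complex.exp (2 * Real.pi * Complex.I * ((f 0 t : ℝ) : ℂ))‖ ≤ C / r ^ (1 / (l : ℝ)) := by
  induction M with
  | zero => exact ⟨1, le_rfl, fun l h1 h2 => by omega⟩
  | succ M ih =>
    obtain ⟨C, hC, h⟩ := ih
    by_cases hM : 2 ≤ M + 1
    · obtain ⟨C', hC', h'⟩ := vdc (M + 1) hM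
      refine ⟨max C C', hC.trans (le_max_left _ _), fun l h1 h2 f a b r hab hr hd hc hs => ?_⟩
      have hp : 0 < r ^ (1 / (l : ℝ)) := Real.rpow_pos_of_pos hr _
      rcases Nat.lt_or_ge M l with h3 | h3
      · obtain rfl : l = M + 1 := by omega
        exact (h' f a b r hab hr hd hc hs).trans (div_le_div_of_nonneg_right (le_max_right _ _) hp.le)
      · exact (h l h1 h3 f a b r hab hr hd hc hs).trans (div_le_div_of_nonneg_right (le_max_left _ _) hp.le)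
    · exact ⟨1, le_rfl, fun l h1 h2 => by omega⟩

private noncomputable def osc_v {K : ℕ} (a : ℕ) (i : Fin K) : ℝ := (a : ℝ) * (((i : ℕ) : ℝ) + 1)

private noncomputable def osc_f {K : ℕ} (a : ℕ) (c : Fin K → ℝ) (c0 : ℝ) (j : ℕ) (u : ℝ) : ℝ :=
  (if j = 0 then c0 else 0) + ∑ i, c i * osc_v a i ^ j * Real.exp (osc_v a i * u)

private theorem osc_v_one {K a : ℕ} (ha : 1 ≤ a) (i : Fin K) : 1 ≤ osc_v a i := by
  unfold osc_v
  have h1 : (1 : ℝ) ≤ a := by exact_mod_cast ha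
  have h2 : (0 : ℝ) ≤ ((i : ℕ) : ℝ) := Nat.cast_nonneg _
  nlinarith

private theorem osc_v_inj {K a : ℕ} (ha : 1 ≤ a) : Function.Injective (osc_v a : Fin K → ℝ) := by
  intro i j h
  unfold osc_v at h
  have h1 : (a : ℝ) ≠ 0 := by
    have : (1 : ℝ) ≤ a := by exact_mod_cast ha
    positivity
  have h2 : ((i : ℕ) : ℝ) + 1 = ((j : ℕ) : ℝ) + 1 := mul_left_cancel₀ h1 h
  have h3 : ((i : ℕ) : ℝ) = ((j : ℕ) : ℝ) := by linarith
  exact Fin.ext (by exact_mod_cast h3)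

private theorem osc_deriv {K a : ℕ} (c : Fin K → ℝ) (c0 : ℝ) (j : ℕ) (u : ℝ) :
    HasDerivAt (osc_f a c c0 j) (osc_f a c c0 (j + 1) u) u := by
  have h1 : HasDerivAt (fun t : ℝ => (if j = 0 then c0 else 0) +
      ∑ i, c i * osc_v a i ^ j * Real.exp (osc_v a i * t))
      (∑ i, c i * osc_v a i ^ j * (Real.exp (osc_v a i * u) * (osc_v a i * 1))) u := by
    refine HasDerivAt.const_add _ (HasDerivAt.fun_sum fun i _ => HasDerivAt.const_mul _ ?_)
    exact ((hasDerivAt_id u).const_mul (osc_v a i)).exp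
  have h2 : osc_f a c c0 (j + 1) u =
      ∑ i, c i * osc_v a i ^ j * (Real.exp (osc_v a i * u) * (osc_v a i * 1)) := by
    unfold osc_f
    rw [if_neg (Nat.succ_ne_zero j), zero_add]
    exact Finset.sum_congr rfl fun i _ => by rw [pow_succ]; ring
  rw [h2]
  exact h1

/-- (A) -/
private theorem osc_low {K a : ℕ} (ha : 1 ≤ a) (U : ℝ) : ∃ κ : ℝ, 0 < κ ∧
    ∀ (c : Fin K → ℝ) (c0 L u : ℝ), 0 < L → |u| ≤ U → (∃ i, L ≤ |c i|) →
      ∃ j : ℕ, 2 ≤ j ∧ j ≤ K + 1 ∧ κ * L ≤ |osc_f a c c0 j u| := by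
  classical
  set V : Matrix (Fin K) (Fin K) ℝ := Matrix.vandermonde (osc_v a) with hV
  have hdet : IsUnit V.det := by
    rw [isUnit_iff_ne_zero]
    exact Matrix.det_vandermonde_ne_zero_iff.2 (osc_v_inj ha)
  set S : ℝ := ∑ i, ∑ j, |V⁻¹ j i| with hS
  have hS0 : 0 ≤ S := Finset.sum_nonneg fun i _ => Finset.sum_nonneg fun j _ => abs_nonneg _
  set e : ℝ := Real.exp (-(((a : ℝ) * K) * U)) with he
  have he0 : 0 < e := Real.exp_pos _
  refine ⟨e / (S + 1), by positivity, fun c c0 L u hL hu hi => ?_⟩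
  obtain ⟨i, hi⟩ := hi
  by_contra hcon
  push Not at hcon
  have hU : 0 ≤ U := (abs_nonneg u).trans hu
  set x : Fin K → ℝ := fun i => c i * osc_v a i ^ 2 * Real.exp (osc_v a i * u) with hx
  have hy : ∀ j : Fin K, (Matrix.vecMul x V) j = osc_f a c c0 (2 + (j : ℕ)) u := by
    intro j
    unfold osc_f
    rw [if_neg (by omega), zero_add]
    simp only [Matrix.vecMul, dotProduct, hx, hV, Matrix.vandermonde_apply]
    exact Finset.sum_congr rfl fun k _ => by rw [pow_add]; ring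
  have hxx : x = Matrix.vecMul (Matrix.vecMul x V) V⁻¹ := by
    rw [Matrix.vecMul_vecMul, Matrix.mul_nonsing_inv _ hdet, Matrix.vecMul_one]
  have hxi : x i = ∑ j, (Matrix.vecMul x V) j * V⁻¹ j i := by
    conv_lhs => rw [hxx]
    rfl
  have h1 : |x i| ≤ e / (S + 1) * L * S := by
    rw [hxi]
    calc |∑ j, (Matrix.vecMul x V) j * V⁻¹ j i| ≤ ∑ j, |(Matrix.vecMul x V) j * V⁻¹ j i| :=
          Finset.abs_sum_le_sum_abs _ _
      _ ≤ ∑ j, e / (S + 1) * L * |V⁻¹ j i| := by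
          refine Finset.sum_le_sum fun j _ => ?_
          rw [abs_mul, hy j]
          exact mul_le_mul_of_nonneg_right (hcon (2 + (j : ℕ)) (by omega) (by omega)).le (abs_nonneg _)
      _ = e / (S + 1) * L * ∑ j, |V⁻¹ j i| := by rw [Finset.mul_sum]
      _ ≤ e / (S + 1) * L * S := by
          refine mul_le_mul_of_nonneg_left ?_ (by positivity)
          exact Finset.single_le_sum (f := fun i => ∑ j, |V⁻¹ j i|)
            (fun i _ => Finset.sum_nonneg fun j _ => abs_nonneg _) (Finset.mem_univ i)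
  have h2 : e * L ≤ |x i| := by
    have hv := osc_v_one ha i
    have hvK : osc_v a i ≤ (a : ℝ) * K := by
      unfold osc_v
      have h3 : ((i : ℕ) : ℝ) + 1 ≤ K := by exact_mod_cast i.2
      exact mul_le_mul_of_nonneg_left h3 (Nat.cast_nonneg _)
    have h4 : e ≤ Real.exp (osc_v a i * u) := by
      rw [he]
      refine Real.exp_le_exp.2 ?_
      have h5 := (abs_le.1 hu).1
      have h6 : osc_v a i * (-U) ≤ osc_v a i * u := mul_le_mul_of_nonneg_left h5 (by linarith)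
      have h7 : osc_v a i * U ≤ (a : ℝ) * K * U := mul_le_mul_of_nonneg_right hvK hU
      linarith
    have h5 : (1 : ℝ) ≤ osc_v a i ^ 2 := one_le_pow₀ hv
    rw [hx]
    simp only
    rw [abs_mul, abs_mul, abs_of_nonneg (by positivity : (0 : ℝ) ≤ osc_v a i ^ 2),
      abs_of_pos (Real.exp_pos _)]
    calc e * L ≤ Real.exp (osc_v a i * u) * |c i| := mul_le_mul h4 hi hL.le (Real.exp_pos _).le
      _ = |c i| * 1 * Real.exp (osc_v a i * u) := by ring
      _ ≤ |c i| * osc_v a i ^ 2 * Real.exp (osc_v a i * u) := by gcongr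
  have h3 : e / (S + 1) * L * S < e * L := by
    have : e / (S + 1) * L * S = e * L * (S / (S + 1)) := by ring
    rw [this]
    have h4 : S / (S + 1) < 1 := by
      rw [div_lt_one (by positivity)]
      linarith
    have h5 : 0 < e * L := by positivity
    nlinarith
  linarith

/-- (B) -/
private theorem osc_up {K a : ℕ} (ha : 1 ≤ a) {U : ℝ} (c : Fin K → ℝ) (c0 L u : ℝ) (hu : |u| ≤ U)
    (hc : ∀ i, |c i| ≤ L) (j : ℕ) (hj : j ≤ K + 1) :
    |osc_f a c c0 (j + 1) u| ≤ (∑ i : Fin K, osc_v a i ^ (K + 2) * Real.exp (osc_v a i * U)) * L := by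
  unfold osc_f
  rw [if_neg (Nat.succ_ne_zero j), zero_add, Finset.sum_mul]
  refine (Finset.abs_sum_le_sum_abs _ _).trans (Finset.sum_le_sum fun i _ => ?_)
  have hv := osc_v_one ha i
  rw [abs_mul, abs_mul, abs_of_nonneg (by positivity : (0 : ℝ) ≤ osc_v a i ^ (j + 1)),
    abs_of_pos (Real.exp_pos _)]
  have h1 : osc_v a i ^ (j + 1) ≤ osc_v a i ^ (K + 2) := pow_le_pow_right₀ hv (by omega)
  have h2 : Real.exp (osc_v a i * u) ≤ Real.exp (osc_v a i * U) :=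
    Real.exp_le_exp.2 (mul_le_mul_of_nonneg_left ((le_abs_self u).trans hu) (by linarith))
  calc |c i| * osc_v a i ^ (j + 1) * Real.exp (osc_v a i * u)
      ≤ L * osc_v a i ^ (K + 2) * Real.exp (osc_v a i * U) := by
        have hL : 0 ≤ L := (abs_nonneg _).trans (hc i)
        have := hc i
        gcongr
    _ = osc_v a i ^ (K + 2) * Real.exp (osc_v a i * U) * L := by ring

private theorem osc_lip {K a : ℕ} (ha : 1 ≤ a) {U : ℝ} (c : Fin K → ℝ) (c0 L : ℝ)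
    (hc : ∀ i, |c i| ≤ L) (j : ℕ) (hj : j ≤ K + 1) {s t : ℝ} (hs : |s| ≤ U) (ht : |t| ≤ U) :
    |osc_f a c c0 j t - osc_f a c c0 j s| ≤
      (∑ i : Fin K, osc_v a i ^ (K + 2) * Real.exp (osc_v a i * U)) * L * |t - s| := by
  have h := Convex.norm_image_sub_le_of_norm_hasDerivWithin_le (𝕜 := ℝ) (s := Set.Icc (-U) U)
    (f := osc_f a c c0 j) (f' := osc_f a c c0 (j + 1))
    (C := (∑ i : Fin K, osc_v a i ^ (K + 2) * Real.exp (osc_v a i * U)) * L)
    (fun x _ => (osc_deriv c c0 j x).hasDerivWithinAt)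
    (fun x hx => osc_up ha c c0 L x (abs_le.2 hx) hc j hj) (convex_Icc _ _)
    (abs_le.1 hs) (abs_le.1 ht)
  simpa only [Real.norm_eq_abs] using h

/-- One short interval. -/
private theorem osc_piece {K a : ℕ} (ha : 1 ≤ a) {U κ C : ℝ} (hκ : 0 < κ) (hκ1 : κ ≤ 1) (hC : 1 ≤ C)
    (hV : ∀ l : ℕ, 2 ≤ l → l ≤ K + 1 → ∀ (f : ℕ → ℝ → ℝ) (a b r : ℝ), a ≤ b → 0 < r →
      (∀ j < l, ∀ t ∈ Set.Icc a b, HasDerivAt (f j) (f (j + 1) t) t) → ContinuousOn (f l) (Set.Icc a b) →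
      ((∀ t ∈ Set.Icc a b, f l t ≤ -r) ∨ (∀ t ∈ Set.Icc a b, r ≤ f l t)) →
      ‖∫ t in a..b, Complex.exp (2 * Real.pi * Complex.I * ((f 0 t : ℝ) : ℂ))‖ ≤ C / r ^ (1 / (l : ℝ)))
    (c : Fin K → ℝ) (c0 L : ℝ) (hL : 1 ≤ L) (hc : ∀ i, |c i| ≤ L)
    {s t : ℝ} (hst : s ≤ t) (hs : |s| ≤ U) (ht : |t| ≤ U)
    (hlow : ∃ j : ℕ, 2 ≤ j ∧ j ≤ K + 1 ∧ κ * L ≤ |osc_f a c c0 j s|)
    (hshort : (∑ i : Fin K, osc_v a i ^ (K + 2) * Real.exp (osc_v a i * U)) * (t - s) ≤ κ / 2) :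
    ‖∫ u in s..t, Complex.exp (2 * Real.pi * Complex.I * ((osc_f a c c0 0 u : ℝ) : ℂ))‖ ≤
      C * (2 / κ) / L ^ (1 / ((K : ℝ) + 1)) := by
  obtain ⟨j, hj2, hjK, hj⟩ := hlow
  set B : ℝ := ∑ i : Fin K, osc_v a i ^ (K + 2) * Real.exp (osc_v a i * U) with hB
  have hB0 : 0 ≤ B := Finset.sum_nonneg fun i _ => by
    have := osc_v_one ha i
    positivity
  have hU : ∀ x ∈ Set.Icc s t, |x| ≤ U := fun x hx =>
    abs_le.2 ⟨(abs_le.1 hs).1.trans hx.1, hx.2.trans (abs_le.1 ht).2⟩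
  have hr : 0 < κ * L / 2 := by positivity
  have hclose : ∀ x ∈ Set.Icc s t, |osc_f a c c0 j x - osc_f a c c0 j s| ≤ κ * L / 2 := by
    intro x hx
    refine (osc_lip ha c c0 L hc j hjK hs (hU x hx)).trans ?_
    rw [abs_of_nonneg (sub_nonneg.2 hx.1), ← hB]
    calc B * L * (x - s) ≤ B * L * (t - s) := by
          refine mul_le_mul_of_nonneg_left (by linarith [hx.2]) (by positivity)
      _ = B * (t - s) * L := by ring
      _ ≤ κ / 2 * L := mul_le_mul_of_nonneg_right hshort (by linarith)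
      _ = κ * L / 2 := by ring
  have hsign : (∀ x ∈ Set.Icc s t, osc_f a c c0 j x ≤ -(κ * L / 2)) ∨
      (∀ x ∈ Set.Icc s t, κ * L / 2 ≤ osc_f a c c0 j x) := by
    rcases le_total 0 (osc_f a c c0 j s) with h0 | h0
    · right
      intro x hx
      rw [abs_of_nonneg h0] at hj
      have := (abs_le.1 (hclose x hx)).1
      linarith
    · left
      intro x hx
      rw [abs_of_nonpos h0] at hj
      have := (abs_le.1 (hclose x hx)).2
      linarith
  have hv := hV j hj2 hjK (osc_f a c c0) s t (κ * L / 2) hst hr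
    (fun i _ x _ => osc_deriv c c0 i x) (fun x _ => (osc_deriv c c0 j x).continuousAt.continuousWithinAt) hsign
  refine hv.trans ?_
  have hj0 : (0 : ℝ) < j := by
    have : 0 < j := by omega
    exact_mod_cast this
  have hj1 : 1 / (j : ℝ) ≤ 1 := by
    rw [div_le_one hj0]
    have : 1 ≤ j := by omega
    exact_mod_cast this
  have hjK' : 1 / ((K : ℝ) + 1) ≤ 1 / (j : ℝ) := by
    refine one_div_le_one_div_of_le hj0 ?_
    exact_mod_cast hjK
  have e1 : κ * L / 2 = κ / 2 * L := by ring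
  have e2 : κ / 2 * L ^ (1 / ((K : ℝ) + 1)) ≤ (κ * L / 2) ^ (1 / (j : ℝ)) := by
    rw [e1, Real.mul_rpow (by positivity) (by positivity)]
    refine mul_le_mul ?_ (Real.rpow_le_rpow_of_exponent_le hL hjK') (by positivity) (by positivity)
    calc κ / 2 = (κ / 2) ^ (1 : ℝ) := (Real.rpow_one _).symm
      _ ≤ (κ / 2) ^ (1 / (j : ℝ)) := Real.rpow_le_rpow_of_exponent_ge (by positivity) (by linarith) hj1
  have hLp : 0 < L ^ (1 / ((K : ℝ) + 1)) := Real.rpow_pos_of_pos (by linarith) _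
  calc C / (κ * L / 2) ^ (1 / (j : ℝ)) ≤ C / (κ / 2 * L ^ (1 / ((K : ℝ) + 1))) :=
        div_le_div_of_nonneg_left (by linarith) (by positivity) e2
    _ = C * (2 / κ) / L ^ (1 / ((K : ℝ) + 1)) := by
        field_simp

theorem osc_exp {K a : ℕ} (hK : 1 ≤ K) (ha : 1 ≤ a) {u1 u2 : ℝ} (hu : u1 ≤ u2) : ∃ C : ℝ, 1 ≤ C ∧
    ∀ (c : Fin K → ℝ) (c0 Λ : ℝ), 1 ≤ Λ → (∃ i, Λ ≤ |c i|) →
      ‖∫ u in u1..u2, Complex.exp (2 * Real.pi * Complex.I *
        ((c0 + ∑ i, c i * Real.exp ((a : ℝ) * (((i : ℕ) : ℝ) + 1) * u) : ℝ) : ℂ))‖ ≤ C / Λ ^ (1 / ((K : ℝ) + 1)) := by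
  obtain ⟨C, hC, hV⟩ := osc_vdcU (K + 1)
  obtain ⟨κ₀, hκ₀, hlow⟩ := osc_low (K := K) ha (max |u1| |u2|)
  set U : ℝ := max |u1| |u2| with hUdef
  set κ : ℝ := min κ₀ 1 with hκdef
  have hκ : 0 < κ := lt_min hκ₀ one_pos
  have hκ1 : κ ≤ 1 := min_le_right _ _
  set B : ℝ := ∑ i : Fin K, osc_v a i ^ (K + 2) * Real.exp (osc_v a i * U) with hB
  have hB0 : 0 ≤ B := Finset.sum_nonneg fun i _ => by
    have := osc_v_one ha i
    positivity
  obtain ⟨N, hN⟩ := exists_nat_gt (B * (u2 - u1) * (2 / κ))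
  have hN0 : (0 : ℝ) ≤ B * (u2 - u1) * (2 / κ) := by
    have : 0 ≤ u2 - u1 := by linarith
    positivity
  have hNpos : (0 : ℝ) < N := lt_of_le_of_lt hN0 hN
  refine ⟨N * (C * (2 / κ)) + 1, by
    have : (0 : ℝ) ≤ N * (C * (2 / κ)) := by positivity
    linarith, fun c c0 Λ hΛ hi => ?_⟩
  have hne : Nonempty (Fin K) := ⟨⟨0, by omega⟩⟩
  obtain ⟨m, hm⟩ := Finite.exists_max fun i : Fin K => |c i|
  obtain ⟨i, hi⟩ := hi
  have hΛL : Λ ≤ |c m| := hi.trans (hm i)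
  have hL1 : 1 ≤ |c m| := hΛ.trans hΛL
  have e0 : ∀ u : ℝ, (c0 + ∑ i, c i * Real.exp ((a : ℝ) * (((i : ℕ) : ℝ) + 1) * u)) = osc_f a c c0 0 u := by
    intro u
    unfold osc_f osc_v
    rw [if_pos rfl]
    simp only [pow_zero, mul_one]
  simp_rw [e0]
  set δ : ℝ := (u2 - u1) / N with hδ
  have hδ0 : 0 ≤ δ := div_nonneg (by linarith) hNpos.le
  have hcont : Continuous fun u : ℝ =>
      Complex.exp (2 * Real.pi * Complex.I * ((osc_f a c c0 0 u : ℝ) : ℂ)) := by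
    have h1 : Continuous (osc_f a c c0 0) :=
      continuous_iff_continuousAt.2 fun x => (osc_deriv c c0 0 x).continuousAt
    exact Complex.continuous_exp.comp (continuous_const.mul (Complex.continuous_ofReal.comp h1))
  set p : ℕ → ℝ := fun k => u1 + k * δ with hp
  have hp0 : p 0 = u1 := by simp [hp]
  have hpN : p N = u2 := by
    simp only [hp, hδ]
    field_simp
    ring
  have hsum : ∫ u in u1..u2, Complex.exp (2 * Real.pi * Complex.I * ((osc_f a c c0 0 u : ℝ) : ℂ)) =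
      ∑ k ∈ Finset.range N, ∫ u in p k..p (k + 1),
        Complex.exp (2 * Real.pi * Complex.I * ((osc_f a c c0 0 u : ℝ) : ℂ)) := by
    have := intervalIntegral.sum_integral_adjacent_intervals (μ := volume) (a := p) (n := N)
      (f := fun u : ℝ => Complex.exp (2 * Real.pi * Complex.I * ((osc_f a c c0 0 u : ℝ) : ℂ)))
      (fun k _ => hcont.intervalIntegrable _ _)
    rw [this, hp0, hpN]
  have hmem : ∀ k ≤ N, |p k| ≤ U := by
    intro k hk
    have hk' : (k : ℝ) ≤ N := by exact_mod_cast hk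
    have h1 : u1 ≤ p k := by
      have : (0 : ℝ) ≤ k * δ := by positivity
      simp only [hp]
      linarith
    have h2 : p k ≤ u2 := by
      rw [← hpN]
      simp only [hp]
      have : (k : ℝ) * δ ≤ N * δ := mul_le_mul_of_nonneg_right hk' hδ0
      linarith
    refine abs_le.2 ⟨?_, ?_⟩
    · have h3 : -U ≤ -|u1| := neg_le_neg (le_max_left _ _)
      linarith [neg_abs_le u1]
    · exact h2.trans ((le_abs_self u2).trans (le_max_right _ _))
  have hpiece : ∀ k ∈ Finset.range N, ‖∫ u in p k..p (k + 1),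
      Complex.exp (2 * Real.pi * Complex.I * ((osc_f a c c0 0 u : ℝ) : ℂ))‖ ≤
      C * (2 / κ) / |c m| ^ (1 / ((K : ℝ) + 1)) := by
    intro k hk
    have hk' := Finset.mem_range.1 hk
    have hstep : p (k + 1) - p k = δ := by
      simp only [hp]
      push_cast
      ring
    refine osc_piece ha hκ hκ1 hC hV c c0 |c m| hL1 hm (by linarith) (hmem k (by omega))
      (hmem (k + 1) (by omega)) ?_ ?_
    · obtain ⟨j, h1, h2, h3⟩ := hlow c c0 |c m| (p k) (by linarith) (hmem k (by omega)) ⟨m, le_rfl⟩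
      refine ⟨j, h1, h2, le_trans ?_ h3⟩
      exact mul_le_mul_of_nonneg_right (min_le_left _ _) (by linarith)
    · rw [hstep, ← hB, hδ]
      have h1 : B * (u2 - u1) * (2 / κ) ≤ N := hN.le
      have h2 : B * (u2 - u1) ≤ κ / 2 * N := by
        have h3 : B * (u2 - u1) * (2 / κ) * (κ / 2) = B * (u2 - u1) := by
          field_simp
        rw [← h3]
        have : κ / 2 * N = N * (κ / 2) := by ring
        rw [this]
        exact mul_le_mul_of_nonneg_right h1 (by positivity)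
      calc B * ((u2 - u1) / N) = B * (u2 - u1) / N := by ring
        _ ≤ κ / 2 := by
          rw [div_le_iff₀ hNpos]
          exact h2
  rw [hsum]
  have hLp : 0 < Λ ^ (1 / ((K : ℝ) + 1)) := Real.rpow_pos_of_pos (by linarith) _
  have hmono : Λ ^ (1 / ((K : ℝ) + 1)) ≤ |c m| ^ (1 / ((K : ℝ) + 1)) :=
    Real.rpow_le_rpow (by linarith) hΛL (by positivity)
  calc ‖∑ k ∈ Finset.range N, ∫ u in p k..p (k + 1),
        Complex.exp (2 * Real.pi * Complex.I * ((osc_f a c c0 0 u : ℝ) : ℂ))‖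
      ≤ ∑ k ∈ Finset.range N, ‖∫ u in p k..p (k + 1),
        Complex.exp (2 * Real.pi * Complex.I * ((osc_f a c c0 0 u : ℝ) : ℂ))‖ := norm_sum_le _ _
    _ ≤ ∑ _k ∈ Finset.range N, C * (2 / κ) / |c m| ^ (1 / ((K : ℝ) + 1)) := Finset.sum_le_sum hpiece
    _ = N * (C * (2 / κ)) / |c m| ^ (1 / ((K : ℝ) + 1)) := by
        rw [Finset.sum_const, Finset.card_range, nsmul_eq_mul]
        ring
    _ ≤ N * (C * (2 / κ)) / Λ ^ (1 / ((K : ℝ) + 1)) :=
        div_le_div_of_nonneg_left (by positivity) hLp hmono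
    _ ≤ (N * (C * (2 / κ)) + 1) / Λ ^ (1 / ((K : ℝ) + 1)) :=
        div_le_div_of_nonneg_right (by linarith) hLp.le

end GPM
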