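import Pool.Agent.GPM.Defs
import Pool.Agent.GPM.Osc
import Pool.Agent.SMC.EquiF

/-!
# GPM.Equi: joint distribution of the `2K` numbers `nn a g m m'` modulo small numbers

PROOF. As `Pool/Agent/SMD/Equi6.lean` (copy its private lemmas `Equi6_dvd`, `Equi6_floor`, `Equi6_lin` and the proof of `equi6`) with `r = K + K` in
`SMC.equi_fejer`: `f i t = (e^(a(j+1)t) m + g j)/d i` for `i = Fin.castAdd K j` and with `m'` for `i = Fin.natAdd K j` (define `f` with `Fin.addCases`, as `nn`; use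
`fin_add` to split `∀ i`, `Fin.sum_univ_add` for the sum), `θ i = 1/d i`. The numbers inside the floors are `≥ 0` for `t ≥ u1 ≥ 0` and large `X` (`e^(..) ≥ 1`). Then
`∑ h_i f_i t = c0 + ∑_j c_j e^(a(j+1)t)` with `c_j = h_j m/d_j + h'_j m'/d'_j`, `c0 = ∑ (h_j/d_j + h'_j/d'_j) g_j`. `n = ⌊X^(η/4)⌋₊`, so `|h_i| ≤ n² ≤ X^(η/2)`;
`h ≠ 0`, so some `j` has `(h_j, h'_j) ≠ 0` and `Equi6_lin` gives `|c_j| ≥ 2X^(1-6η)`. `osc_exp` with `Λ = X^(1-6η) ≥ 1` gives
`ω = C2 X^(-(1-6η)/(K+1))`, and `equi_fejer` the error `C1 ((u2-u1) 2 X^(-η/4) + X^(ηK) C2 X^(-(1-6η)/(K+1)))` (`n^(2(K+K)) ≤ X^(ηK)`), which is `≤ X^(-η/5)`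
for large `X`: `ηK + 6η/(K+1) + η/5 ≤ η (K+4) < 1/(K+1)`, as `η ≤ 1/(40(K+1)²)`.
-/

namespace GPM

open MeasureTheory Filter SMC

private theorem Equi_dvd {e : ℕ} (he : 1 ≤ e) (y : ℝ) :
    (e : ℤ) ∣ ⌊y⌋ ↔ Int.fract (y / e) < 1 / e := by
  have he' : (0 : ℝ) < e := by exact_mod_cast he
  have he1 : (1 : ℝ) ≤ e := by exact_mod_cast he
  constructor
  · rintro ⟨k, hk⟩
    have h1 : (⌊y⌋ : ℝ) = e * k := by rw [hk]; push_cast; ring
    have h2 := Int.floor_le y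
    have h3 := Int.lt_floor_add_one y
    rw [h1] at h2 h3
    have h4 : Int.fract (y / e) = y / e - k := by
      rw [Int.fract_eq_iff]
      refine ⟨?_, ?_, k, by ring⟩
      · rw [sub_nonneg, le_div_iff₀ he']
        linarith
      · rw [sub_lt_iff_lt_add, div_lt_iff₀ he']
        nlinarith
    rw [h4, sub_lt_iff_lt_add, div_lt_iff₀ he', add_mul, one_div_mul_cancel he'.ne']
    linarith
  · intro h
    refine ⟨⌊y / e⌋, ?_⟩
    rw [← Int.self_sub_floor, sub_lt_iff_lt_add, div_lt_iff₀ he', add_mul,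
      one_div_mul_cancel he'.ne'] at h
    have h2 := Int.floor_le (y / e)
    rw [le_div_iff₀ he'] at h2
    rw [Int.floor_eq_iff]
    push_cast
    constructor
    · linarith
    · linarith

private theorem Equi_floor {e : ℕ} (he : 1 ≤ e) {y : ℝ} (hy : 0 ≤ y) :
    e ∣ ⌊y⌋₊ ↔ Int.fract (y / e) < 1 / e := by
  rw [← Equi_dvd he y, ← Int.natCast_floor_eq_floor hy]
  exact Int.natCast_dvd_natCast.symm

/-- the linear forms are large -/
private theorem Equi_lin {X η κ1 : ℝ} (hη : 0 < η) (hX : 1 ≤ X)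
    (h1 : 1 / κ1 ≤ X ^ (5 * η)) (h2 : 2 ≤ X ^ (7 * η / 8)) (hκ : 0 < κ1) {m m' : ℕ}
    (hm : κ1 * X ≤ (m : ℝ)) (hm' : κ1 * X ≤ (m' : ℝ)) (hNE : MCC.NE X η m m') {d e : ℕ} (hd : 1 ≤ d)
    (he : 1 ≤ e) (hdX : (d : ℝ) ≤ X ^ (η / 16)) (heX : (e : ℝ) ≤ X ^ (η / 16)) {p q : ℤ}
    (hp : |(p : ℝ)| ≤ X ^ (η / 2)) (hq : |(q : ℝ)| ≤ X ^ (η / 2)) (hpq : p ≠ 0 ∨ q ≠ 0) :
    2 * X ^ (1 - 6 * η) ≤ |(p : ℝ) * m / d + q * m' / e| := by
  have hXp : 0 < X := by linarith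
  have hd' : (1 : ℝ) ≤ d := by exact_mod_cast hd
  have he' : (1 : ℝ) ≤ e := by exact_mod_cast he
  have hκX : X ^ (1 - 5 * η) ≤ κ1 * X := by
    have h3 : X ^ (1 - 5 * η) * X ^ (5 * η) = X := by
      rw [← Real.rpow_add hXp]
      have : 1 - 5 * η + 5 * η = 1 := by ring
      rw [this, Real.rpow_one]
    have h4 : X ^ (1 - 5 * η) * (1 / κ1) ≤ X := by
      calc X ^ (1 - 5 * η) * (1 / κ1) ≤ X ^ (1 - 5 * η) * X ^ (5 * η) := by gcongr
        _ = X := h3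
    rw [mul_one_div, div_le_iff₀ hκ] at h4
    linarith
  have hmpos : (0 : ℝ) ≤ m := Nat.cast_nonneg m
  have hmpos' : (0 : ℝ) ≤ m' := Nat.cast_nonneg m'
  -- the numerator
  have hA : X ^ (1 - 5 * η) ≤ |(p : ℝ) * e * m + q * d * m'| := by
    refine le_trans ?_ (le_refl _)
    have key : ∀ x : ℤ, x ≠ 0 → (1 : ℝ) ≤ |(x : ℝ)| := by
      intro x hx
      have := Int.one_le_abs hx
      exact_mod_cast this
    have hbig : ∀ (x : ℤ) (k : ℕ) (l : ℝ), x ≠ 0 → 1 ≤ k → κ1 * X ≤ l →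
        X ^ (1 - 5 * η) ≤ |(x : ℝ)| * k * l := by
      intro x k l hx hk hl
      have h3 := key x hx
      have h4 : (1 : ℝ) ≤ k := by exact_mod_cast hk
      have h5 : 0 ≤ l := le_trans (by positivity) hl
      calc X ^ (1 - 5 * η) ≤ κ1 * X := hκX
        _ ≤ l := hl
        _ = 1 * 1 * l := by ring
        _ ≤ |(x : ℝ)| * k * l := by gcongr
    by_cases hp0 : p = 0
    · have hq0 : q ≠ 0 := by
        rcases hpq with h | h
        · exact absurd hp0 h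
        · exact h
      rw [hp0]
      have h3 : |((0 : ℤ) : ℝ) * e * m + q * d * m'| = |(q : ℝ)| * d * m' := by
        rw [Int.cast_zero, zero_mul, zero_mul, zero_add, abs_mul, abs_mul, abs_of_nonneg hmpos',
          abs_of_nonneg (by linarith : (0 : ℝ) ≤ d)]
      rw [h3]
      exact hbig q d m' hq0 hd hm'
    by_cases hq0 : q = 0
    · rw [hq0]
      have h3 : |(p : ℝ) * e * m + ((0 : ℤ) : ℝ) * d * m'| = |(p : ℝ)| * e * m := by
        rw [Int.cast_zero, zero_mul, zero_mul, add_zero, abs_mul, abs_mul, abs_of_nonneg hmpos,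
          abs_of_nonneg (by linarith : (0 : ℝ) ≤ e)]
      rw [h3]
      exact hbig p e m hp0 he hm
    have hP : (p.natAbs : ℝ) = |(p : ℝ)| := by
      rw [Nat.cast_natAbs, Int.cast_abs]
    have hQ : (q.natAbs : ℝ) = |(q : ℝ)| := by
      rw [Nat.cast_natAbs, Int.cast_abs]
    have hmul : ∀ k : ℕ, (k : ℝ) ≤ X ^ (η / 16) → ∀ x : ℝ, 0 ≤ x → x ≤ X ^ (η / 2) → x * k ≤ X ^ η := by
      intro k hk x hx0 hx
      calc x * k ≤ X ^ (η / 2) * X ^ (η / 16) := by gcongr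
        _ = X ^ (η / 2 + η / 16) := (Real.rpow_add hXp _ _).symm
        _ ≤ X ^ η := Real.rpow_le_rpow_of_exponent_le hX (by linarith)
    have hne := hNE (p.natAbs * e) (q.natAbs * d)
      (Nat.mul_pos (Int.natAbs_pos.2 hp0) he) (Nat.mul_pos (Int.natAbs_pos.2 hq0) hd)
      (by
        push_cast
        rw [hP]
        exact hmul e heX _ (abs_nonneg _) hp)
      (by
        push_cast
        rw [hQ]
        exact hmul d hdX _ (abs_nonneg _) hq)
    push_cast at hne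
    rw [hP, hQ] at hne
    rcases lt_or_gt_of_ne hp0 with hp1 | hp1 <;> rcases lt_or_gt_of_ne hq0 with hq1 | hq1
    · have hp2 : (p : ℝ) < 0 := by exact_mod_cast hp1
      have hq2 : (q : ℝ) < 0 := by exact_mod_cast hq1
      have h3 := hbig p e m hp0 he hm
      have h4 : 0 ≤ |(q : ℝ)| * d * m' := by positivity
      rw [abs_of_neg hp2] at h3
      rw [abs_of_neg hq2] at h4
      have h5 := neg_le_abs ((p : ℝ) * e * m + q * d * m')
      linarith
    · have hp2 : (p : ℝ) < 0 := by exact_mod_cast hp1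
      have hq2 : 0 < (q : ℝ) := by exact_mod_cast hq1
      rw [abs_of_neg hp2, abs_of_pos hq2] at hne
      have h5 : |-(p : ℝ) * e * m - q * d * m'| = |(p : ℝ) * e * m + q * d * m'| := by
        rw [← abs_neg]
        congr 1
        ring
      rw [← h5]
      exact hne
    · have hp2 : 0 < (p : ℝ) := by exact_mod_cast hp1
      have hq2 : (q : ℝ) < 0 := by exact_mod_cast hq1
      rw [abs_of_pos hp2, abs_of_neg hq2] at hne
      have h5 : |(p : ℝ) * e * m - -(q : ℝ) * d * m'| = |(p : ℝ) * e * m + q * d * m'| := by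
        congr 1
        ring
      rw [← h5]
      exact hne
    · have hp2 : 0 < (p : ℝ) := by exact_mod_cast hp1
      have hq2 : 0 < (q : ℝ) := by exact_mod_cast hq1
      have h3 := hbig p e m hp0 he hm
      have h4 : 0 ≤ |(q : ℝ)| * d * m' := by positivity
      rw [abs_of_pos hp2] at h3
      rw [abs_of_pos hq2] at h4
      have h5 := le_abs_self ((p : ℝ) * e * m + q * d * m')
      linarith
  have h3 : (p : ℝ) * m / d + q * m' / e = ((p : ℝ) * e * m + q * d * m') / (d * e) := by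
    have hd0 : (d : ℝ) ≠ 0 := by linarith
    have he0 : (e : ℝ) ≠ 0 := by linarith
    field_simp
  have hde : (0 : ℝ) < d * e := by positivity
  rw [h3, abs_div, abs_of_pos hde, le_div_iff₀ hde]
  refine le_trans ?_ hA
  have h4 : (d : ℝ) * e ≤ X ^ (η / 8) := by
    calc (d : ℝ) * e ≤ X ^ (η / 16) * X ^ (η / 16) := by gcongr
      _ = X ^ (η / 8) := by
        rw [← Real.rpow_add hXp]
        congr 1
        ring
  calc 2 * X ^ (1 - 6 * η) * (d * e) ≤ X ^ (7 * η / 8) * X ^ (1 - 6 * η) * X ^ (η / 8) := by gcongr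
    _ = X ^ (1 - 5 * η) := by
      rw [← Real.rpow_add hXp, ← Real.rpow_add hXp]
      congr 1
      ring

theorem equi_g {K a : ℕ} (hK : 1 ≤ K) (ha : 1 ≤ a) {η : ℝ} (hη : 0 < η) (hη1 : η * (40 * ((K : ℝ) + 1) ^ 2) ≤ 1)
    {u1 u2 κ1 κ2 : ℝ} (hu1 : 0 ≤ u1) (hu : u1 < u2) (hκ : 0 < κ1) (g : Fin K → ℝ) :
    ∃ X0 : ℝ, ∀ X : ℝ, X0 ≤ X → ∀ m m' : ℕ, κ1 * X ≤ (m : ℝ) → (m : ℝ) ≤ κ2 * X →
      κ1 * X ≤ (m' : ℝ) → (m' : ℝ) ≤ κ2 * X → MCC.NE X η m m' → ∀ d : Fin (K + K) → ℕ, (∀ i, 1 ≤ d i) →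
      (∀ i, (d i : ℝ) ≤ X ^ (η / 16)) →
      |(volume {t : ℝ | t ∈ Set.Icc u1 u2 ∧ ∀ i, d i ∣ nn a g m m' i t}).toReal - (u2 - u1) / ∏ i, (d i : ℝ)| ≤
        X ^ (-(η / 5)) := by
  obtain ⟨C1, hC1, hF⟩ := equi_fejer (K + K)
  obtain ⟨C2, hC2, hO⟩ := osc_exp hK ha hu.le
  have hK' : (1 : ℝ) ≤ K := by exact_mod_cast hK
  have hK1 : (0 : ℝ) < (K : ℝ) + 1 := by linarith
  have hKsq : (4 : ℝ) ≤ ((K : ℝ) + 1) ^ 2 := by nlinarith
  have hη2 : 6 * η < 1 := by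
    have : η * (40 * 4) ≤ η * (40 * ((K : ℝ) + 1) ^ 2) := by gcongr
    linarith
  have hp : 0 < (1 - 6 * η) / ((K : ℝ) + 1) - η * K - η / 5 := by
    have h1 : η * K + η / 5 < (1 - 6 * η) / ((K : ℝ) + 1) := by
      rw [lt_div_iff₀ hK1]
      have h2 : (η * K + η / 5) * ((K : ℝ) + 1) ≤ η * ((K : ℝ) + 1) ^ 2 := by
        have h3 : η * ((K : ℝ) + 1) ^ 2 - (η * K + η / 5) * ((K : ℝ) + 1) =
            η * ((K : ℝ) + 1) * (4 / 5) := by ring
        have h4 : 0 ≤ η * ((K : ℝ) + 1) * (4 / 5) := by positivity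
        linarith
      have h5 : 6 * η ≤ 2 * (η * ((K : ℝ) + 1) ^ 2) := by nlinarith
      nlinarith
    linarith
  have hev : ∀ (c s : ℝ), 0 < s → ∀ᶠ X : ℝ in atTop, c ≤ X ^ s := fun c s hs =>
    (tendsto_rpow_atTop hs).eventually_ge_atTop c
  have e1 : ∀ᶠ X : ℝ in atTop, 1 ≤ X := eventually_ge_atTop 1
  have e2 : ∀ᶠ X : ℝ in atTop, (∑ i, |g i|) / κ1 ≤ X := eventually_ge_atTop _
  have e3 := hev (1 / κ1) (5 * η) (by positivity)
  have e4 := hev 2 (7 * η / 8) (by positivity)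
  have e6 := hev 2 (η / 4) (by positivity)
  have e7 := hev (4 * (C1 * (u2 - u1))) (η / 20) (by positivity)
  have e8 := hev (2 * (C1 * C2)) ((1 - 6 * η) / ((K : ℝ) + 1) - η * K - η / 5) hp
  obtain ⟨X0, hX0⟩ := eventually_atTop.1 (e1.and (e2.and (e3.and (e4.and (e6.and (e7.and e8))))))
  refine ⟨X0, fun X hX m m' hm1 hm2 hm1' hm2' hNE d hd hD => ?_⟩
  obtain ⟨g1, g2, g3, g4, g6, g7, g8⟩ := hX0 X hX
  have hXp : 0 < X := by linarith
  have hκX : 0 < κ1 * X := by positivity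
  have hgX : ∀ i, |g i| ≤ κ1 * X := by
    intro i
    have h1 : |g i| ≤ ∑ i, |g i| := Finset.single_le_sum (f := fun i => |g i|) (fun _ _ => abs_nonneg _)
      (Finset.mem_univ i)
    have h6 : (∑ i, |g i|) ≤ X * κ1 := (div_le_iff₀ hκ).1 g2
    linarith
  have hpos : ∀ n : ℕ, κ1 * X ≤ (n : ℝ) → ∀ t, u1 ≤ t → ∀ i : Fin K,
      0 ≤ Real.exp ((a : ℝ) * (((i : ℕ) : ℝ) + 1) * t) * n + g i := by
    intro n hn t ht i
    have h1 : (1 : ℝ) ≤ Real.exp ((a : ℝ) * (((i : ℕ) : ℝ) + 1) * t) := by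
      refine Real.one_le_exp ?_
      have : 0 ≤ t := by linarith
      positivity
    have hn0 : (0 : ℝ) ≤ n := Nat.cast_nonneg n
    have h2 : 1 * (n : ℝ) ≤ Real.exp ((a : ℝ) * (((i : ℕ) : ℝ) + 1) * t) * n := by gcongr
    have h3 := neg_abs_le (g i)
    have h4 := hgX i
    linarith
  -- the set
  obtain ⟨f, hf⟩ : ∃ f : Fin (K + K) → ℝ → ℝ, f = fun i => Fin.addCases (motive := fun _ => ℝ → ℝ)
      (fun j t => (Real.exp ((a : ℝ) * (((j : ℕ) : ℝ) + 1) * t) * m + g j) / d (Fin.castAdd K j))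
      (fun j t => (Real.exp ((a : ℝ) * (((j : ℕ) : ℝ) + 1) * t) * m' + g j) / d (Fin.natAdd K j)) i := ⟨_, rfl⟩
  obtain ⟨θ, hθ⟩ : ∃ θ : Fin (K + K) → ℝ, θ = fun i => 1 / (d i : ℝ) := ⟨_, rfl⟩
  have fl : ∀ j : Fin K, f (Fin.castAdd K j) = fun t =>
      (Real.exp ((a : ℝ) * (((j : ℕ) : ℝ) + 1) * t) * m + g j) / d (Fin.castAdd K j) := by
    intro j
    rw [hf]
    simp only [Fin.addCases_left]
  have fr : ∀ j : Fin K, f (Fin.natAdd K j) = fun t =>
      (Real.exp ((a : ℝ) * (((j : ℕ) : ℝ) + 1) * t) * m' + g j) / d (Fin.natAdd K j) := by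
    intro j
    rw [hf]
    simp only [Fin.addCases_right]
  have ti : ∀ i, θ i = 1 / (d i : ℝ) := fun i => by rw [hθ]
  have hset : {t : ℝ | t ∈ Set.Icc u1 u2 ∧ ∀ i, d i ∣ nn a g m m' i t} =
      {t : ℝ | t ∈ Set.Icc u1 u2 ∧ ∀ i, Int.fract (f i t) < θ i} := by
    ext t
    simp only [Set.mem_ofPred_eq]
    refine and_congr_right fun ht => ?_
    rw [fin_add, fin_add]
    refine and_congr (forall_congr' fun j => ?_) (forall_congr' fun j => ?_)
    · rw [nn_left, fl, ti, nm, Equi_floor (hd _) (hpos m hm1 t ht.1 j)]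
    · rw [nn_right, fr, ti, nm, Equi_floor (hd _) (hpos m' hm1' t ht.1 j)]
  have hd' : ∀ i, (1 : ℝ) ≤ d i := fun i => by exact_mod_cast hd i
  obtain ⟨n, hn⟩ : ∃ n : ℕ, n = ⌊X ^ (η / 4)⌋₊ := ⟨_, rfl⟩
  have hY1 : (1 : ℝ) ≤ X ^ (η / 4) := by linarith
  have hn0 : 1 ≤ n := by
    rw [hn]
    exact Nat.floor_pos.2 hY1
  have hn1 : (n : ℝ) ≤ X ^ (η / 4) := by
    rw [hn]
    exact Nat.floor_le (by positivity)
  have hn2 : X ^ (η / 4) / 2 ≤ n := by
    have h1 : X ^ (η / 4) < n + 1 := by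
      rw [hn]
      exact Nat.lt_floor_add_one _
    linarith
  have hnr : (0 : ℝ) < n := by exact_mod_cast hn0
  have hnsq : (n : ℝ) ^ 2 ≤ X ^ (η / 2) := by
    calc (n : ℝ) ^ 2 ≤ (X ^ (η / 4)) ^ 2 := by gcongr
      _ = X ^ (η / 2) := by
        rw [← Real.rpow_natCast, ← Real.rpow_mul hXp.le]
        congr 1
        push_cast
        ring
  have hU1 : (1 : ℝ) ≤ X ^ (1 - 6 * η) := Real.one_le_rpow g1 (by linarith)
  have hU0 : (0 : ℝ) < X ^ (1 - 6 * η) := by positivity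
  have hmain := hF n u1 u2 (C2 / (X ^ (1 - 6 * η)) ^ (1 / ((K : ℝ) + 1))) f θ hn0 hu.le (by positivity)
    (by
      rw [fin_add]
      refine ⟨fun j => ?_, fun j => ?_⟩
      · rw [fl]
        fun_prop
      · rw [fr]
        fun_prop)
    (by
      intro i
      rw [ti]
      positivity)
    (by
      intro i
      rw [ti]
      exact (div_le_one (by linarith [hd' i])).2 (hd' i))
    (by
      intro h hh0 hhn
      have hh : ∀ i, |(h i : ℝ)| ≤ X ^ (η / 2) := fun i => (hhn i).trans hnsq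
      obtain ⟨c, hc⟩ : ∃ c : Fin K → ℝ, c = fun j => (h (Fin.castAdd K j) : ℝ) * m / d (Fin.castAdd K j) +
        h (Fin.natAdd K j) * m' / d (Fin.natAdd K j) := ⟨_, rfl⟩
      obtain ⟨c0, hc0⟩ : ∃ c0 : ℝ, c0 = ∑ j : Fin K, ((h (Fin.castAdd K j) : ℝ) * g j / d (Fin.castAdd K j) +
        h (Fin.natAdd K j) * g j / d (Fin.natAdd K j)) := ⟨_, rfl⟩
      have hsum : ∀ t : ℝ, ∑ i, (h i : ℝ) * f i t =
          c0 + ∑ j, c j * Real.exp ((a : ℝ) * (((j : ℕ) : ℝ) + 1) * t) := by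
        intro t
        rw [Fin.sum_univ_add, hc0, hc, ← Finset.sum_add_distrib, ← Finset.sum_add_distrib]
        refine Finset.sum_congr rfl fun j _ => ?_
        rw [fl, fr]
        ring
      have hbig : ∃ j, X ^ (1 - 6 * η) ≤ |c j| := by
        have hex : ∃ j, h (Fin.castAdd K j) ≠ 0 ∨ h (Fin.natAdd K j) ≠ 0 := by
          by_contra hno
          push Not at hno
          apply hh0
          funext i
          have := fin_add (P := fun i => h i = 0) |>.2 ⟨fun j => (hno j).1, fun j => (hno j).2⟩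
          exact this i
        obtain ⟨j, hj⟩ := hex
        refine ⟨j, ?_⟩
        have h2 := Equi_lin hη g1 g3 g4 hκ hm1 hm1' hNE (hd (Fin.castAdd K j)) (hd (Fin.natAdd K j))
          (hD _) (hD _) (hh (Fin.castAdd K j)) (hh (Fin.natAdd K j)) hj
        rw [hc]
        linarith
      have hfin := hO c c0 (X ^ (1 - 6 * η)) hU1 hbig
      refine le_trans (le_of_eq ?_) hfin
      congr 1
      refine intervalIntegral.integral_congr fun t _ => ?_
      rw [hsum t])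
  rw [hset]
  have hprod : (u2 - u1) * ∏ i, θ i = (u2 - u1) / ∏ i, (d i : ℝ) := by
    rw [hθ]
    simp only [one_div, Finset.prod_inv_distrib]
    rw [div_eq_mul_inv]
  rw [hprod] at hmain
  refine hmain.trans ?_
  have hX5 : 0 < X ^ (-(η / 5)) := by positivity
  have h1 : C1 * ((u2 - u1) / n) ≤ X ^ (-(η / 5)) / 2 := by
    have h3 : (u2 - u1) / n ≤ (u2 - u1) / (X ^ (η / 4) / 2) := by
      have : 0 ≤ u2 - u1 := by linarith
      gcongr
    have h4 : X ^ (η / 20) * X ^ (-(η / 4)) = X ^ (-(η / 5)) := by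
      rw [← Real.rpow_add hXp]
      congr 1
      ring
    have h5 : (u2 - u1) / (X ^ (η / 4) / 2) = 2 * (u2 - u1) * X ^ (-(η / 4)) := by
      rw [Real.rpow_neg hXp.le]
      field_simp
    calc C1 * ((u2 - u1) / n) ≤ C1 * (2 * (u2 - u1) * X ^ (-(η / 4))) := by
          rw [← h5]
          gcongr
      _ = 4 * (C1 * (u2 - u1)) * X ^ (-(η / 4)) / 2 := by ring
      _ ≤ X ^ (η / 20) * X ^ (-(η / 4)) / 2 := by gcongr
      _ = X ^ (-(η / 5)) / 2 := by rw [h4]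
  have h2 : C1 * ((n : ℝ) ^ (2 * (K + K)) * (C2 / (X ^ (1 - 6 * η)) ^ (1 / ((K : ℝ) + 1)))) ≤
      X ^ (-(η / 5)) / 2 := by
    have h3 : (X ^ (1 - 6 * η)) ^ (1 / ((K : ℝ) + 1)) = X ^ ((1 - 6 * η) / ((K : ℝ) + 1)) := by
      rw [← Real.rpow_mul hXp.le]
      congr 1
      ring
    have h4 : (n : ℝ) ^ (2 * (K + K)) ≤ X ^ (η * K) := by
      calc (n : ℝ) ^ (2 * (K + K)) ≤ (X ^ (η / 4)) ^ (2 * (K + K)) := by gcongr
        _ = X ^ (η * K) := by
          rw [← Real.rpow_natCast, ← Real.rpow_mul hXp.le]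
          congr 1
          push_cast
          ring
    rw [h3]
    have h5 : C2 / X ^ ((1 - 6 * η) / ((K : ℝ) + 1)) = C2 * X ^ (-((1 - 6 * η) / ((K : ℝ) + 1))) := by
      rw [Real.rpow_neg hXp.le]
      rfl
    rw [h5]
    have h6 : X ^ ((1 - 6 * η) / ((K : ℝ) + 1) - η * K - η / 5) *
        (X ^ (η * K) * X ^ (-((1 - 6 * η) / ((K : ℝ) + 1)))) = X ^ (-(η / 5)) := by
      rw [← Real.rpow_add hXp, ← Real.rpow_add hXp]
      congr 1
      ring
    calc C1 * ((n : ℝ) ^ (2 * (K + K)) * (C2 * X ^ (-((1 - 6 * η) / ((K : ℝ) + 1)))))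
        ≤ C1 * (X ^ (η * K) * (C2 * X ^ (-((1 - 6 * η) / ((K : ℝ) + 1))))) := by gcongr
      _ = 2 * (C1 * C2) * (X ^ (η * K) * X ^ (-((1 - 6 * η) / ((K : ℝ) + 1)))) / 2 := by ring
      _ ≤ X ^ ((1 - 6 * η) / ((K : ℝ) + 1) - η * K - η / 5) *
          (X ^ (η * K) * X ^ (-((1 - 6 * η) / ((K : ℝ) + 1)))) / 2 := by gcongr
      _ = X ^ (-(η / 5)) / 2 := by rw [h6]
  rw [mul_add]
  linarith

end GPM
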