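import Pool.Agent.GPM.Loc
import Pool.Agent.GPM.DenP

/-!
# GPM.Fin: Theorem B for `k ≥ 2`

PROOF. `n` from the hypothesis `BB k n`. For `m ≥ 1`, rational `b`, `β`, natural `l`, `l'` let
`G N = {u | ∃ d, 1 ≤ d ≤ n ∧ 1/(l'+1) e^N/N^k ≤ cR (1/(l+1)) (ga (m d) b β u) (e^(m d u)) k (e^N)}` (measurable: `cR_meas`, finite union over `d`); `den_p` for each of these countably many families:
a null set of `u`. Let `u0 > 0` be outside of all of them, `α = e^u0`; `b`, `β` real, `0 ≤ β ≤ 1`, `m ≥ 1`. `ε1` from `loc_g` (for `u0`, `m`), `l` with `1/(l+1) ≤ ε1`; rational `b'`, `β'`, `0 ≤ β' ≤ 1`, with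
`|ga (m d) b β u0 - ga (m d) b' β' u0| < 1/(l+1)` for all `d ≤ n`; `c1, c2, ρ0` from `loc_g` for `b'`, `β'` (a smaller margin is weaker: `cR ε` is antitone in `ε`), `l'` with
`1/(l'+1) ≤ c1`. So for the family `(m, b', β', l, l')` the hypothesis of `den_p` holds at `u0` and for infinitely many `N` at least `c' N` of the `n' < N` have `u0 ∈ G n'`, i.e. some `d ≤ n` with many `Rob`; pigeonhole
over the finitely many `d`, first for each `N` (some `d` has `≥ c' N/n` of the `n' < N`), then for the frequently many `N` (`Filter.frequently_exists`... or by contradiction with `eventually_all_finset`): one `d` with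
`≥ c'/n · N` of the `n'` for infinitely many `N`. `j = m d ≤ n m`. `rob_exact` gives `StartsExact (e^(j u0)) (ga j b β u0) p k`, and `T (e^(j u0)) (ga j b β u0) = TA α b β j`:
`(fun x => α x + b)^[j] q = α^j q + b (α^j - 1)/(α - 1)`. Finally from `u` to `α = e^u`: the set of the bad `α > 1` is the image under `exp` of a null set
(`MeasureTheory.addHaar_image_eq_zero_of_differentiableOn_addHaar_eq_zero`). `c = min (c'/n) (1/(l'+1))`.
-/

namespace GPM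

open MeasureTheory Filter SMC

/-- The map `q ↦ ⌊A^j q + β⌋`, `A x = α x + b`. -/
noncomputable def TA (α b β : ℝ) (j q : ℕ) : ℕ := ⌊(fun x : ℝ => α * x + b)^[j] q + β⌋₊

open Classical in
/-- The number of the `p ≤ X` which start a chain of exact length `k` under `TA α b β j`. -/
noncomputable def countA (α b β : ℝ) (j k X : ℕ) : ℕ :=
  ((Finset.Icc 1 X).filter fun p : ℕ =>
    (∀ i < k, ((TA α b β j)^[i] p).Prime) ∧ 1 < (TA α b β j)^[k] p ∧ ¬ ((TA α b β j)^[k] p).Prime).card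

private theorem fi_iter {α b : ℝ} (hα : 1 < α) (j : ℕ) (q : ℝ) :
    (fun x : ℝ => α * x + b)^[j] q = α ^ j * q + b * ((α ^ j - 1) / (α - 1)) := by
  have h0 : α - 1 ≠ 0 := by linarith
  induction j with
  | zero => simp
  | succ j ih =>
    rw [Function.iterate_succ_apply', ih]
    field_simp
    ring

private theorem fi_TA {u b β : ℝ} (hu : 0 < u) (j : ℕ) :
    T (Real.exp ((j : ℝ) * u)) (ga j b β u) = TA (Real.exp u) b β j := by
  funext q
  unfold T TA ga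
  rw [fi_iter (Real.one_lt_exp_iff.2 hu), ← Real.exp_nat_mul, add_assoc]

private theorem fi_mono {ε ε' γ τ : ℝ} {k : ℕ} {Y : ℝ} (h : ε' ≤ ε) : cR ε γ τ k Y ≤ cR ε' γ τ k Y := by
  classical
  unfold cR
  refine Finset.card_le_card fun p hp => ?_
  rw [Finset.mem_filter] at hp ⊢
  obtain ⟨hp1, h1, h2, h3, h4⟩ := hp
  refine ⟨hp1, h1, fun i hi => ?_, h3, h4⟩
  obtain ⟨h5, h6⟩ := h2 i hi
  exact ⟨by linarith, by linarith⟩

private theorem fi_count {u b β b' β' ε : ℝ} (hu : 0 < u) (j k : ℕ) (Y : ℝ)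
    (h : |ga j b β u - ga j b' β' u| < ε) :
    cR ε (ga j b' β' u) (Real.exp ((j : ℝ) * u)) k Y ≤ countA (Real.exp u) b β j k ⌊Y⌋₊ := by
  classical
  unfold cR countA
  refine Finset.card_le_card fun p hp => ?_
  rw [Finset.mem_filter] at hp ⊢
  refine ⟨hp.1, ?_⟩
  have h1 := rob_exact h hp.2
  unfold StartsExact at h1
  rw [fi_TA hu] at h1
  exact h1

/-- The set of the `u` with many chains for some `d ≤ n`. -/
private def fG (k n m : ℕ) (b β : ℝ) (l l' N : ℕ) : Set ℝ :=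
  {u : ℝ | ∃ d ∈ Finset.Icc 1 n, 1 / ((l' : ℝ) + 1) * (Real.exp N / (N : ℝ) ^ k) ≤
    (cR (1 / ((l : ℝ) + 1)) (ga (m * d) b β u) (Real.exp (((m * d : ℕ) : ℝ) * u)) k (Real.exp N) : ℝ)}

private theorem fG_meas (k n m : ℕ) (b β : ℝ) (l l' N : ℕ) : MeasurableSet (fG k n m b β l l' N) := by
  have e : fG k n m b β l l' N = ⋃ d ∈ Finset.Icc 1 n,
      {u : ℝ | 1 / ((l' : ℝ) + 1) * (Real.exp N / (N : ℝ) ^ k) ≤
        (cR (1 / ((l : ℝ) + 1)) (ga (m * d) b β u) (Real.exp (((m * d : ℕ) : ℝ) * u)) k (Real.exp N) : ℝ)} := by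
    ext u
    simp only [fG, Set.mem_ofPred_eq, Set.mem_iUnion, exists_prop]
  rw [e]
  refine Finset.measurableSet_biUnion _ fun d _ => measurableSet_le measurable_const ?_
  refine cR_meas (τ := fun u => Real.exp (((m * d : ℕ) : ℝ) * u)) (γ := fun u => ga (m * d) b β u) ?_ ?_ _ _ _
  · fun_prop
  · unfold ga
    fun_prop

/-- The conclusion of `den_p`. -/
private def fD (k n : ℕ) (u : ℝ) : Prop :=
  ∀ (m : ℕ) (b β : ℚ) (l l' : ℕ) (c ρ0 : ℝ), 0 < c → 0 < ρ0 →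
    (∀ ρ : ℝ, 0 < ρ → ρ ≤ ρ0 → ∀ᶠ N : ℕ in atTop,
      ENNReal.ofReal (c * ρ) ≤ volume (fG k n m b β l l' N ∩ Set.Icc (u - ρ) (u + ρ))) →
    ∃ c' : ℝ, 0 < c' ∧ ∃ᶠ N : ℕ in atTop, ∃ d ∈ Finset.Icc 1 n, c' * N ≤
      (((Finset.range N).filter fun r : ℕ => 1 / ((l' : ℝ) + 1) * (Real.exp r / (r : ℝ) ^ k) ≤
        (cR (1 / ((l : ℝ) + 1)) (ga (m * d) b β u) (Real.exp (((m * d : ℕ) : ℝ) * u)) k (Real.exp r) : ℝ)).card : ℝ)

private theorem fD_ae (k : ℕ) {n : ℕ} (hn : 1 ≤ n) : ∀ᵐ u : ℝ, fD k n u := by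
  classical
  unfold fD
  rw [ae_all_iff]
  intro m
  rw [ae_all_iff]
  intro b
  rw [ae_all_iff]
  intro β
  rw [ae_all_iff]
  intro l
  rw [ae_all_iff]
  intro l'
  filter_upwards [den_p (fG_meas k n m b β l l')] with u hu c ρ0 hc hρ0 H
  obtain ⟨c', hc', h1⟩ := hu c ρ0 hc hρ0 H
  have hn0 : (0 : ℝ) < n := by exact_mod_cast hn
  refine ⟨c' / n, by positivity, h1.mono fun N hN => ?_⟩
  by_contra hcon
  push Not at hcon
  have h2 : ((Finset.range N).filter fun r : ℕ => u ∈ fG k n m b β l l' r).card ≤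
      ∑ d ∈ Finset.Icc 1 n, ((Finset.range N).filter fun r : ℕ =>
        1 / ((l' : ℝ) + 1) * (Real.exp r / (r : ℝ) ^ k) ≤
        (cR (1 / ((l : ℝ) + 1)) (ga (m * d) b β u) (Real.exp (((m * d : ℕ) : ℝ) * u)) k
          (Real.exp r) : ℝ)).card := by
    refine le_trans (Finset.card_le_card ?_) Finset.card_biUnion_le
    intro r hr
    rw [Finset.mem_filter] at hr
    obtain ⟨d, hd, hd2⟩ := hr.2
    exact Finset.mem_biUnion.2 ⟨d, hd, Finset.mem_filter.2 ⟨hr.1, hd2⟩⟩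
  have h3 : (((Finset.range N).filter fun r : ℕ => u ∈ fG k n m b β l l' r).card : ℝ) ≤
      ∑ d ∈ Finset.Icc 1 n, (((Finset.range N).filter fun r : ℕ =>
        1 / ((l' : ℝ) + 1) * (Real.exp r / (r : ℝ) ^ k) ≤
        (cR (1 / ((l : ℝ) + 1)) (ga (m * d) b β u) (Real.exp (((m * d : ℕ) : ℝ) * u)) k
          (Real.exp r) : ℝ)).card : ℝ) := by
    exact_mod_cast h2
  have h4 : ∑ d ∈ Finset.Icc 1 n, (((Finset.range N).filter fun r : ℕ =>
        1 / ((l' : ℝ) + 1) * (Real.exp r / (r : ℝ) ^ k) ≤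
        (cR (1 / ((l : ℝ) + 1)) (ga (m * d) b β u) (Real.exp (((m * d : ℕ) : ℝ) * u)) k
          (Real.exp r) : ℝ)).card : ℝ) < ∑ d ∈ Finset.Icc 1 n, c' / n * N := by
    refine Finset.sum_lt_sum_of_nonempty ⟨1, Finset.mem_Icc.2 ⟨le_rfl, hn⟩⟩ fun d hd => ?_
    exact hcon d hd
  have h5 : ∑ _d ∈ Finset.Icc 1 n, c' / n * N = c' * N := by
    rw [Finset.sum_const, Nat.card_Icc, nsmul_eq_mul]
    have : ((n + 1 - 1 : ℕ) : ℝ) = n := by
      rw [Nat.add_sub_cancel]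
    rw [this]
    field_simp
  rw [h5] at h4
  linarith

/-- Rational approximations. -/
private theorem fi_rat {b β u δ : ℝ} (hβ : 0 ≤ β) (hβ1 : β ≤ 1) (hδ : 0 < δ) (m n : ℕ) :
    ∃ b' β' : ℚ, (0 : ℝ) ≤ β' ∧ (β' : ℝ) ≤ 1 ∧ ∀ d ≤ n, |ga (m * d) b β u - ga (m * d) b' β' u| < δ := by
  obtain ⟨M, hM0, hM⟩ : ∃ M : ℝ, 0 < M ∧ ∀ d ≤ n,
      |(Real.exp (((m * d : ℕ) : ℝ) * u) - 1) / (Real.exp u - 1)| ≤ M := by
    refine ⟨(∑ d ∈ Finset.range (n + 1),
      |(Real.exp (((m * d : ℕ) : ℝ) * u) - 1) / (Real.exp u - 1)|) + 1, ?_, fun d hd => ?_⟩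
    · have : 0 ≤ ∑ d ∈ Finset.range (n + 1),
        |(Real.exp (((m * d : ℕ) : ℝ) * u) - 1) / (Real.exp u - 1)| :=
        Finset.sum_nonneg fun _ _ => abs_nonneg _
      linarith
    · have := Finset.single_le_sum (f := fun d : ℕ =>
        |(Real.exp (((m * d : ℕ) : ℝ) * u) - 1) / (Real.exp u - 1)|) (fun _ _ => abs_nonneg _)
        (Finset.mem_range.2 (Nat.lt_succ_of_le hd))
      linarith
  obtain ⟨b', hb1, hb2⟩ := exists_rat_btwn (show b < b + δ / (2 * M) by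
    have : 0 < δ / (2 * M) := by positivity
    linarith)
  obtain ⟨β', h1, h2⟩ : ∃ β' : ℚ, ((0 : ℝ) ≤ β' ∧ (β' : ℝ) ≤ 1) ∧ |β - β'| < δ / 2 := by
    rcases lt_or_ge β 1 with h | h
    · obtain ⟨q, hq1, hq2⟩ := exists_rat_btwn (show β < min 1 (β + δ / 2) from lt_min h (by linarith))
      have hq3 := lt_min_iff.1 hq2
      refine ⟨q, ⟨by linarith, hq3.1.le⟩, ?_⟩
      rw [abs_lt]
      constructor
      · linarith [hq3.2]
      · linarith
    · refine ⟨1, by norm_num, ?_⟩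
      have : β - ((1 : ℚ) : ℝ) = 0 := by
        push_cast
        linarith
      rw [this, abs_zero]
      linarith
  refine ⟨b', β', h1.1, h1.2, fun d hd => ?_⟩
  have e : ga (m * d) b β u - ga (m * d) b' β' u =
      (b - b') * ((Real.exp (((m * d : ℕ) : ℝ) * u) - 1) / (Real.exp u - 1)) + (β - β') := by
    unfold ga
    ring
  rw [e]
  refine lt_of_le_of_lt (abs_add_le _ _) ?_
  rw [abs_mul]
  have h3 : |b - b'| ≤ δ / (2 * M) := by
    rw [abs_le]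
    constructor
    · linarith
    · have : 0 < δ / (2 * M) := by positivity
      linarith
  have h4 : |b - b'| * |(Real.exp (((m * d : ℕ) : ℝ) * u) - 1) / (Real.exp u - 1)| ≤ δ / (2 * M) * M :=
    mul_le_mul h3 (hM d hd) (abs_nonneg _) (by positivity)
  have h5 : δ / (2 * M) * M = δ / 2 := by
    field_simp
  linarith

/-- The statement at a good point. -/
private theorem fi_pt {k n : ℕ} (hk : 2 ≤ k) (hn : 1 ≤ n) (hB : BB k n) {u : ℝ} (hu : 0 < u) (hD : fD k n u)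
    {b β : ℝ} (hβ : 0 ≤ β) (hβ1 : β ≤ 1) {m : ℕ} (hm : 1 ≤ m) : ∃ (j : ℕ) (c : ℝ), 0 < c ∧ m ∣ j ∧ 0 < j ∧
      j ≤ n * m ∧ ∃ᶠ N : ℕ in atTop,
      c * N ≤ (((Finset.range N).filter fun r : ℕ =>
        c * (Real.exp r / (r : ℝ) ^ k) ≤ (countA (Real.exp u) b β j k ⌊Real.exp r⌋₊ : ℝ)).card : ℝ) := by
  classical
  obtain ⟨ε1, hε1, H1⟩ := loc_g hk hn hB hu hm
  obtain ⟨l, hl⟩ := exists_nat_one_div_lt hε1
  obtain ⟨b', β', hβ0', hβ1', hap⟩ := fi_rat (b := b) (u := u) hβ hβ1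
    (show (0 : ℝ) < 1 / ((l : ℝ) + 1) by positivity) m n
  obtain ⟨c1, c2, ρ0, hc1, hc2, hρ0, H2⟩ := H1 b' β' hβ0' hβ1'
  obtain ⟨l', hl'⟩ := exists_nat_one_div_lt hc1
  obtain ⟨c', hc', H3⟩ := hD m b' β' l l' c2 ρ0 hc2 hρ0 (by
    intro ρ hρ hρ1
    filter_upwards [H2 ρ hρ hρ1] with N hN
    obtain ⟨d, hd1, hd2, hv⟩ := hN
    refine hv.trans (measure_mono ?_)
    rintro t ⟨ht1, ht2⟩
    refine ⟨⟨d, Finset.mem_Icc.2 ⟨hd1, hd2⟩, ?_⟩, ht1⟩
    refine le_trans (mul_le_mul_of_nonneg_right hl'.le (by positivity)) (ht2.trans ?_)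
    exact_mod_cast fi_mono hl.le)
  obtain ⟨d, hd, H4⟩ : ∃ d ∈ Finset.Icc 1 n, ∃ᶠ N : ℕ in atTop, c' * N ≤
      (((Finset.range N).filter fun r : ℕ => 1 / ((l' : ℝ) + 1) * (Real.exp r / (r : ℝ) ^ k) ≤
        (cR (1 / ((l : ℝ) + 1)) (ga (m * d) b' β' u) (Real.exp (((m * d : ℕ) : ℝ) * u)) k
          (Real.exp r) : ℝ)).card : ℝ) := by
    by_contra hcon
    push Not at hcon
    refine H3 ?_
    have h6 := (Filter.eventually_all_finset (Finset.Icc 1 n)).2 fun d hd => hcon d hd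
    filter_upwards [h6] with N hN
    rintro ⟨d, hd, h7⟩
    exact absurd h7 (not_le.2 (hN d hd))
  rw [Finset.mem_Icc] at hd
  refine ⟨m * d, min c' (1 / ((l' : ℝ) + 1)), lt_min hc' (by positivity), Dvd.intro _ rfl,
    Nat.mul_pos (by omega) (by omega), ?_, H4.mono fun N hN => ?_⟩
  · rw [Nat.mul_comm n m]
    exact Nat.mul_le_mul_left _ hd.2
  · refine le_trans (mul_le_mul_of_nonneg_right (min_le_left _ _) (Nat.cast_nonneg N)) (hN.trans ?_)
    have h8 : ((Finset.range N).filter fun r : ℕ => 1 / ((l' : ℝ) + 1) * (Real.exp r / (r : ℝ) ^ k) ≤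
        (cR (1 / ((l : ℝ) + 1)) (ga (m * d) b' β' u) (Real.exp (((m * d : ℕ) : ℝ) * u)) k
          (Real.exp r) : ℝ)).card ≤
        ((Finset.range N).filter fun r : ℕ => min c' (1 / ((l' : ℝ) + 1)) * (Real.exp r / (r : ℝ) ^ k) ≤
          (countA (Real.exp u) b β (m * d) k ⌊Real.exp r⌋₊ : ℝ)).card := by
      refine Finset.card_le_card fun r hr => ?_
      rw [Finset.mem_filter] at hr ⊢
      refine ⟨hr.1, le_trans (mul_le_mul_of_nonneg_right (min_le_right _ _) (by positivity))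
        (hr.2.trans ?_)⟩
      exact_mod_cast fi_count hu (m * d) k (Real.exp r) (hap d hd.2)
    exact_mod_cast h8

/-- From `u` to `α = e^u`. -/
private theorem fi_exp {P : ℝ → Prop} (h : ∀ᵐ u : ℝ, P u) : ∀ᵐ α : ℝ, 0 < α → P (Real.log α) := by
  rw [ae_iff] at h ⊢
  have h1 : volume (Real.exp '' {u : ℝ | ¬ P u}) = 0 :=
    addHaar_image_eq_zero_of_differentiableOn_of_addHaar_eq_zero (volume : Measure ℝ)
      Real.differentiable_exp.differentiableOn h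
  refine measure_mono_null ?_ h1
  intro α hα
  simp only [Set.mem_ofPred_eq, Classical.not_imp] at hα
  exact ⟨Real.log α, hα.2, Real.exp_log hα.1⟩

open Classical in
theorem finB {k n : ℕ} (hk : 2 ≤ k) (hn : 1 ≤ n) (hB : BB k n) :
    ∀ᵐ α : ℝ, 1 < α → ∀ b β : ℝ, 0 ≤ β → β ≤ 1 → ∀ m : ℕ, 1 ≤ m → ∃ (j : ℕ) (c : ℝ), 0 < c ∧ m ∣ j ∧ 0 < j ∧
      j ≤ n * m ∧ ∃ᶠ N : ℕ in atTop,
      c * N ≤ (((Finset.range N).filter fun r : ℕ =>
        c * (Real.exp r / (r : ℝ) ^ k) ≤ (countA α b β j k ⌊Real.exp r⌋₊ : ℝ)).card : ℝ) := by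
  filter_upwards [fi_exp (fD_ae k hn)] with α h hα b β hβ hβ1 m hm
  have h1 := fi_pt hk hn hB (Real.log_pos hα) (h (by linarith)) (b := b) hβ hβ1 hm
  rw [Real.exp_log (by linarith)] at h1
  convert h1

end GPM
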