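import Mathlib

/-!
# GPM.Thick: transfer of measure

PROOF. `thick`: `h = l/2`, cells `[j h, (j+1) h)`, `j ∈ ℤ`; `J` = the set of the `j` whose cell is contained in `R`. An interval `[t0, t0+l] ⊆ R` contains the cell of `j = ⌈t0/h⌉`, and
`|v - j h| ≤ C + h` if `|t0 - v| ≤ C`; so the set is contained in `⋃_{j ∈ J} [jh - C - h, jh + C + h]`, of measure `≤ ∑_{j∈J} 2(C+h)` (`measure_iUnion_le`), and
`volume R ≥ ∑_{j∈J} h` (disjoint measurable subsets); `2(C+h)/h = 2 + 4C/l`.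
`transfer`: `Z ⊆ ⋃_{p∈P} A_p ×ˢ B_p`, `A_p = {x | x0 ≤ x, |e^x - s - p| ≤ ε}`, `B_p` the set of `thick` for `R p`; `Measure.volume_eq_prod`, `Measure.prod_prod` (for arbitrary sets);
`volume A_p ≤ 2 ε e^(-x0)`, because `e^x' - e^x ≥ (x'-x) e^x0` for `x0 ≤ x ≤ x'` (so `A_p` has diameter at most `2 ε e^(-x0)`; `Real.volume_le_diam`).
-/

namespace GPM

open MeasureTheory

theorem thick {R : Set ℝ} {l C : ℝ} (hl : 0 < l) (hC : 0 ≤ C) :
    volume {v : ℝ | ∃ t0 : ℝ, |t0 - v| ≤ C ∧ Set.Icc t0 (t0 + l) ⊆ R} ≤ ENNReal.ofReal (2 + 4 * C / l) * volume R := by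
  set h : ℝ := l / 2 with hh
  have h0 : 0 < h := by positivity
  let cell : ℤ → Set ℝ := fun j => Set.Ico (j * h) ((j + 1) * h)
  let J : Set ℤ := {j : ℤ | cell j ⊆ R}
  have hsub : {v : ℝ | ∃ t0 : ℝ, |t0 - v| ≤ C ∧ Set.Icc t0 (t0 + l) ⊆ R} ⊆
      ⋃ j : J, Set.Icc (((j : ℤ) : ℝ) * h - (C + h)) (((j : ℤ) : ℝ) * h + (C + h)) := by
    rintro v ⟨t0, h1, h2⟩
    have hj1 : t0 / h ≤ (⌈t0 / h⌉ : ℝ) := Int.le_ceil _
    have hj2 : (⌈t0 / h⌉ : ℝ) < t0 / h + 1 := Int.ceil_lt_add_one _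
    rw [div_le_iff₀ h0] at hj1
    have hj3 : (⌈t0 / h⌉ : ℝ) * h < t0 + h := by
      have := mul_lt_mul_of_pos_right hj2 h0
      rw [add_mul, one_mul, div_mul_cancel₀ _ h0.ne'] at this
      exact this
    have hJ : ⌈t0 / h⌉ ∈ J := by
      intro x hx
      apply h2
      have hx1 : (⌈t0 / h⌉ : ℝ) * h ≤ x := hx.1
      have hx2 : x < ((⌈t0 / h⌉ : ℝ) + 1) * h := hx.2
      refine ⟨by linarith, ?_⟩
      have : ((⌈t0 / h⌉ : ℝ) + 1) * h = (⌈t0 / h⌉ : ℝ) * h + h := by ring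
      have hl2 : l = h + h := by rw [hh]; ring
      linarith
    rw [Set.mem_iUnion]
    refine ⟨⟨⌈t0 / h⌉, hJ⟩, ?_⟩
    have h3 := abs_le.1 h1
    constructor
    · show (⌈t0 / h⌉ : ℝ) * h - (C + h) ≤ v
      linarith [h3.1, h3.2]
    · show v ≤ (⌈t0 / h⌉ : ℝ) * h + (C + h)
      linarith [h3.1, h3.2]
  have hup : volume {v : ℝ | ∃ t0 : ℝ, |t0 - v| ≤ C ∧ Set.Icc t0 (t0 + l) ⊆ R} ≤
      ∑' _ : J, ENNReal.ofReal (2 * (C + h)) := by
    refine (measure_mono hsub).trans ((measure_iUnion_le _).trans (le_of_eq ?_))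
    refine tsum_congr fun j => ?_
    rw [Real.volume_Icc]
    congr 1
    ring
  have hlow : ∑' _ : J, ENNReal.ofReal h ≤ volume R := by
    have hd : Pairwise (Function.onFun Disjoint fun j : J => cell (j : ℤ)) := by
      intro i j hij
      rw [Function.onFun, Set.disjoint_left]
      rintro x ⟨hx1, hx2⟩ ⟨hx3, hx4⟩
      apply hij
      apply Subtype.ext
      have a1 : (((i : ℤ) : ℝ)) * h < (((j : ℤ) : ℝ) + 1) * h := lt_of_le_of_lt hx1 hx4
      have a2 : (((j : ℤ) : ℝ)) * h < (((i : ℤ) : ℝ) + 1) * h := lt_of_le_of_lt hx3 hx2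
      have b1 := lt_of_mul_lt_mul_right a1 h0.le
      have b2 := lt_of_mul_lt_mul_right a2 h0.le
      have c1 : (i : ℤ) < (j : ℤ) + 1 := by exact_mod_cast b1
      have c2 : (j : ℤ) < (i : ℤ) + 1 := by exact_mod_cast b2
      omega
    have hm : ∀ j : J, MeasurableSet (cell (j : ℤ)) := fun j => measurableSet_Ico
    have e := measure_iUnion (μ := (volume : Measure ℝ)) hd hm
    have e2 : ∑' j : J, volume (cell (j : ℤ)) = ∑' _ : J, ENNReal.ofReal h := by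
      refine tsum_congr fun j => ?_
      show volume (Set.Ico (((j : ℤ) : ℝ) * h) ((((j : ℤ) : ℝ) + 1) * h)) = _
      rw [Real.volume_Ico]
      congr 1
      ring
    rw [← e2, ← e]
    exact measure_mono (Set.iUnion_subset fun j => j.2)
  calc volume {v : ℝ | ∃ t0 : ℝ, |t0 - v| ≤ C ∧ Set.Icc t0 (t0 + l) ⊆ R}
      ≤ ∑' _ : J, ENNReal.ofReal (2 * (C + h)) := hup
    _ = ∑' _ : J, ENNReal.ofReal (2 + 4 * C / l) * ENNReal.ofReal h := by
        refine tsum_congr fun _ => ?_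
        rw [← ENNReal.ofReal_mul (by positivity)]
        congr 1
        rw [hh]
        field_simp
        ring
    _ = ENNReal.ofReal (2 + 4 * C / l) * ∑' _ : J, ENNReal.ofReal h := ENNReal.tsum_mul_left
    _ ≤ ENNReal.ofReal (2 + 4 * C / l) * volume R := by gcongr

private theorem thick_exp {s ε x0 : ℝ} (p : ℕ) :
    volume {x : ℝ | x0 ≤ x ∧ |Real.exp x - s - p| ≤ ε} ≤ ENNReal.ofReal (2 * ε * Real.exp (-x0)) := by
  have key : ∀ x y : ℝ, x0 ≤ x → x ≤ y → |Real.exp x - s - p| ≤ ε → |Real.exp y - s - p| ≤ ε →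
      y - x ≤ 2 * ε * Real.exp (-x0) := by
    intro x y hx hxy h1 h2
    have h3 := abs_le.1 h1
    have h4 := abs_le.1 h2
    have h5 : Real.exp y - Real.exp x ≤ 2 * ε := by linarith [h3.1, h4.2]
    have h6 : Real.exp x * (y - x) ≤ Real.exp y - Real.exp x := by
      have h7 := Real.add_one_le_exp (y - x)
      have h8 : Real.exp y = Real.exp x * Real.exp (y - x) := by
        rw [← Real.exp_add]
        congr 1
        ring
      have h9 := mul_le_mul_of_nonneg_left h7 (Real.exp_pos x).le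
      rw [← h8] at h9
      linarith
    have h10 : Real.exp x0 * (y - x) ≤ 2 * ε := by
      have := mul_le_mul_of_nonneg_right (Real.exp_le_exp.2 hx) (sub_nonneg.2 hxy)
      linarith
    have h11 : Real.exp (-x0) * (Real.exp x0 * (y - x)) = y - x := by
      rw [← mul_assoc, ← Real.exp_add]
      simp
    have h12 := mul_le_mul_of_nonneg_left h10 (Real.exp_pos (-x0)).le
    rw [h11] at h12
    linarith
  refine (Real.volume_le_diam _).trans ?_
  refine Metric.ediam_le fun x hx y hy => ?_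
  rw [edist_dist]
  apply ENNReal.ofReal_le_ofReal
  rw [Real.dist_eq]
  rcases le_total x y with hxy | hxy
  · rw [abs_sub_comm, abs_of_nonneg (sub_nonneg.2 hxy)]
    exact key x y hx.1 hxy hx.2 hy.2
  · rw [abs_of_nonneg (sub_nonneg.2 hxy)]
    exact key y x hy.1 hxy hy.2 hx.2

theorem transfer {Z : Set (ℝ × ℝ)} {P : Finset ℕ} {R : ℕ → Set ℝ} {x0 s ε l C : ℝ} (hl : 0 < l) (hC : 0 ≤ C)
    (hε : 0 ≤ ε)
    (h : ∀ z ∈ Z, x0 ≤ z.1 ∧ ∃ p ∈ P, |Real.exp z.1 - s - p| ≤ ε ∧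
      ∃ t0 : ℝ, |t0 - z.2| ≤ C ∧ Set.Icc t0 (t0 + l) ⊆ R p) :
    volume Z ≤ ENNReal.ofReal (2 * ε * Real.exp (-x0) * (2 + 4 * C / l)) * ∑ p ∈ P, volume (R p) := by
  have hsub : Z ⊆ ⋃ p ∈ P, {x : ℝ | x0 ≤ x ∧ |Real.exp x - s - p| ≤ ε} ×ˢ
      {v : ℝ | ∃ t0 : ℝ, |t0 - v| ≤ C ∧ Set.Icc t0 (t0 + l) ⊆ R p} := by
    intro z hz
    obtain ⟨h1, p, hp, h2, h3⟩ := h z hz
    simp only [Set.mem_iUnion]
    exact ⟨p, hp, ⟨h1, h2⟩, h3⟩
  refine (measure_mono hsub).trans ((measure_biUnion_finset_le _ _).trans ?_)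
  rw [Finset.mul_sum]
  refine Finset.sum_le_sum fun p _ => ?_
  rw [Measure.volume_eq_prod, Measure.prod_prod, ENNReal.ofReal_mul (by positivity), mul_assoc]
  exact mul_le_mul' (thick_exp p) (thick hl hC)

end GPM
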