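import Pool.Agent.GPM.Defs

/-!
# GPM.Wnd: from windows of length `η` to a window of length `2` in the first variable

PROOF. `c1` the constant of `BB` for `μ`, `s`, `ε`. Given `η ≤ 1` let `J = ⌊1/η⌋₊` (`J ≥ 1`, `J η ≤ 1`, `J ≥ 1/(2η)`), `w ≥ max w0 1`. For each `t < J`
`BB` at `w + t η` gives `(j_t, d_t)` in the finite set `range ((k-1)n+1) ×ˢ range (n+1)` of cardinality `P`; by the pigeonhole principle
(`Finset.exists_le_card_fiber_of_nsmul_le_card_of_maps_to` or similar) some `(j0, d)` belongs to a set `S` of `≥ J/P` values of `t`. For `t ∈ S` let `Z_t` be the set of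
`BB` without the points with `z.1 = η` (a null set: it is contained in `{η} ×ˢ univ`); its volume is `≥ c1 η²/(w + tη)^k ≥ c1 η²/(2w)^k`. The translates `Z_t + (tη, 0)` are measurable (`∃ p` is a
countable union of closed conditions), pairwise disjoint (first coordinates in `[tη, (t+1)η)`) and contained in the set of the statement (`(t+1) η ≤ 1`). So its volume is
`≥ (J/P) c1 η²/(2w)^k ≥ c η/w^k`, `c = c1/(2^(k+1) P)`.
-/

namespace GPM

open MeasureTheory Filter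

private def wndG (k : ℕ) (s ε μ w : ℝ) (j0 d : ℕ) : Set (ℝ × ℝ) :=
  ⋂ i : ℕ, ⋂ _ : i < k, ⋃ p : ℕ, ⋃ _ : p.Prime,
    {z : ℝ × ℝ | |Real.exp (w + ((j0 : ℝ) + i * d) * Real.log μ + z.1 + i * z.2) - s - p| ≤ ε}

private theorem wndG_mem {k : ℕ} {s ε μ w : ℝ} {j0 d : ℕ} {z : ℝ × ℝ} :
    z ∈ wndG k s ε μ w j0 d ↔ ∀ i < k, ∃ p : ℕ, p.Prime ∧
      |Real.exp (w + ((j0 : ℝ) + i * d) * Real.log μ + z.1 + i * z.2) - s - p| ≤ ε := by
  unfold wndG
  simp only [Set.mem_iInter, Set.mem_iUnion, Set.mem_ofPred_eq, exists_prop]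

private theorem wndG_meas (k : ℕ) (s ε μ w : ℝ) (j0 d : ℕ) : MeasurableSet (wndG k s ε μ w j0 d) := by
  refine MeasurableSet.iInter fun i => MeasurableSet.iInter fun _ => MeasurableSet.iUnion fun p =>
    MeasurableSet.iUnion fun _ => measurableSet_le ?_ measurable_const
  fun_prop

theorem wnd {k n : ℕ} (hk : 2 ≤ k) (hn : 1 ≤ n) (hB : BB k n) {μ : ℝ} (hμ : 1 < μ) (s : ℝ) {ε : ℝ} (hε : 0 < ε) :
    ∃ c : ℝ, 0 < c ∧ ∀ η : ℝ, 0 < η → η ≤ 1 → ∃ w0 : ℝ, ∀ w : ℝ, w0 ≤ w →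
    ∃ j0 d : ℕ, 1 ≤ d ∧ d ≤ n ∧ j0 + (k - 1) * d ≤ (k - 1) * n ∧
      ENNReal.ofReal (c * η / w ^ k) ≤ volume {z : ℝ × ℝ | z.1 ∈ Set.Icc 0 2 ∧ z.2 ∈ Set.Icc 0 η ∧
        ∀ i < k, ∃ p : ℕ, p.Prime ∧
          |Real.exp (w + ((j0 : ℝ) + i * d) * Real.log μ + z.1 + i * z.2) - s - p| ≤ ε} := by
  classical
  obtain ⟨c1, hc1, h1⟩ := hB μ s ε hμ hε
  obtain ⟨P, hP⟩ : ∃ P : ℕ, P = (Finset.range ((k - 1) * n + 1) ×ˢ Finset.range (n + 1)).card := ⟨_, rfl⟩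
  have hP0 : 0 < P := by
    rw [hP, Finset.card_product, Finset.card_range, Finset.card_range]
    positivity
  have hP0' : (0 : ℝ) < P := by exact_mod_cast hP0
  refine ⟨c1 / (2 ^ (k + 1) * P), by positivity, fun η hη hη1 => ?_⟩
  obtain ⟨w0, h2⟩ := h1 η hη hη1
  refine ⟨max w0 1, fun w hw => ?_⟩
  have hw0 : w0 ≤ w := (le_max_left _ _).trans hw
  have hw1 : 1 ≤ w := (le_max_right _ _).trans hw
  obtain ⟨J, hJ⟩ : ∃ J : ℕ, J = ⌊1 / η⌋₊ := ⟨_, rfl⟩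
  have hJ1 : (J : ℝ) * η ≤ 1 := by
    have := Nat.floor_le (show (0 : ℝ) ≤ 1 / η by positivity)
    rw [← hJ, le_div_iff₀ hη] at this
    exact this
  have hJ2 : 1 < ((J : ℝ) + 1) * η := by
    have := Nat.lt_floor_add_one (1 / η)
    rw [← hJ, div_lt_iff₀ hη] at this
    exact this
  have hJ3 : 1 ≤ J := by
    rw [hJ, Nat.one_le_floor_iff, le_div_iff₀ hη, one_mul]
    exact hη1
  have hJ4 : 1 ≤ 2 * (J : ℝ) * η := by
    have : (1 : ℝ) ≤ J := by exact_mod_cast hJ3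
    nlinarith
  have h3 : ∀ t : ℕ, ∃ q : ℕ × ℕ, 1 ≤ q.2 ∧ q.2 ≤ n ∧ q.1 + (k - 1) * q.2 ≤ (k - 1) * n ∧
      ENNReal.ofReal (c1 * η ^ 2 / (w + t * η) ^ k) ≤ volume {z : ℝ × ℝ | z.1 ∈ Set.Icc 0 η ∧
        z.2 ∈ Set.Icc 0 η ∧ ∀ i < k, ∃ p : ℕ, p.Prime ∧
          |Real.exp ((w + t * η) + ((q.1 : ℝ) + i * q.2) * Real.log μ + z.1 + i * z.2) - s - p| ≤ ε} := by
    intro t
    have : w0 ≤ w + t * η := by
      have : 0 ≤ (t : ℝ) * η := by positivity
      linarith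
    obtain ⟨j0, d, h4, h5, h6, h7⟩ := h2 (w + t * η) this
    exact ⟨(j0, d), h4, h5, h6, h7⟩
  choose q hq1 hq2 hq3 hq4 using h3
  have hmaps : ∀ t ∈ Finset.range J, q t ∈ Finset.range ((k - 1) * n + 1) ×ˢ Finset.range (n + 1) := by
    intro t _
    rw [Finset.mem_product, Finset.mem_range, Finset.mem_range]
    exact ⟨by have := hq3 t; omega, by have := hq2 t; omega⟩
  obtain ⟨⟨j0, d⟩, hjd, hfib⟩ := Finset.exists_le_card_fiber_of_nsmul_le_card_of_maps_to (M := ℝ)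
    (b := (J : ℝ) / P) hmaps (by rw [← Finset.card_pos, ← hP]; exact hP0) (by
      rw [← hP, nsmul_eq_mul, Finset.card_range, mul_div_cancel₀ _ hP0'.ne'])
  obtain ⟨S, hS⟩ : ∃ S : Finset ℕ, S = {x ∈ Finset.range J | q x = (j0, d)} := ⟨_, rfl⟩
  rw [← hS] at hfib
  have hS1 : ∀ t ∈ S, t < J ∧ q t = (j0, d) := by
    intro t ht
    rw [hS, Finset.mem_filter, Finset.mem_range] at ht
    exact ht
  have hS0 : S.Nonempty := by
    rw [← Finset.card_pos]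
    have h5 : (0 : ℝ) < J / P := by
      have : (0 : ℝ) < J := by exact_mod_cast hJ3
      positivity
    have h6 := h5.trans_le hfib
    exact_mod_cast h6
  obtain ⟨t0, ht0⟩ := hS0
  have hq1' := hq1 t0
  have hq2' := hq2 t0
  have hq3' := hq3 t0
  rw [(hS1 t0 ht0).2] at hq1' hq2' hq3'
  refine ⟨j0, d, hq1', hq2', hq3', ?_⟩
  obtain ⟨E, hE⟩ : ∃ E : ℕ → Set (ℝ × ℝ), E = fun t : ℕ =>
      (Set.Ico ((t : ℝ) * η) (((t : ℝ) + 1) * η) ×ˢ Set.Icc (0 : ℝ) η) ∩ wndG k s ε μ w j0 d := ⟨_, rfl⟩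
  have hEm : ∀ t, MeasurableSet (E t) := by
    intro t
    rw [hE]
    exact (measurableSet_Ico.prod measurableSet_Icc).inter (wndG_meas _ _ _ _ _ _ _)
  have hEd : (S : Set ℕ).PairwiseDisjoint E := by
    intro a _ b _ hab
    rw [Function.onFun, Set.disjoint_left]
    intro z hza hzb
    rw [hE] at hza hzb
    have ha := hza.1.1
    have hb := hzb.1.1
    rw [Set.mem_Ico] at ha hb
    apply hab
    have h5 : (a : ℝ) < b + 1 := by
      by_contra h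
      have := mul_le_mul_of_nonneg_right (not_lt.1 h) hη.le
      linarith [ha.1, hb.2]
    have h6 : (b : ℝ) < a + 1 := by
      by_contra h
      have := mul_le_mul_of_nonneg_right (not_lt.1 h) hη.le
      linarith [ha.2, hb.1]
    have h7 : a < b + 1 := by exact_mod_cast h5
    have h8 : b < a + 1 := by exact_mod_cast h6
    omega
  have hEs : (⋃ t ∈ S, E t) ⊆ {z : ℝ × ℝ | z.1 ∈ Set.Icc 0 2 ∧ z.2 ∈ Set.Icc 0 η ∧
        ∀ i < k, ∃ p : ℕ, p.Prime ∧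
          |Real.exp (w + ((j0 : ℝ) + i * d) * Real.log μ + z.1 + i * z.2) - s - p| ≤ ε} := by
    intro z hz
    rw [Set.mem_iUnion₂] at hz
    obtain ⟨t, ht, hz⟩ := hz
    rw [hE] at hz
    obtain ⟨⟨hz1, hz2⟩, hz3⟩ := hz
    rw [Set.mem_Ico] at hz1
    have htJ : (t : ℝ) + 1 ≤ J := by exact_mod_cast (hS1 t ht).1
    have h5 := mul_le_mul_of_nonneg_right htJ hη.le
    have h6 : (0 : ℝ) ≤ t * η := by positivity
    refine ⟨⟨by linarith [hz1.1], by linarith [hz1.2]⟩, hz2, ?_⟩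
    exact wndG_mem.1 hz3
  have hEv : ∀ t ∈ S, ENNReal.ofReal (c1 * η ^ 2 / (2 * w) ^ k) ≤ volume (E t) := by
    intro t ht
    have h5 := hq4 t
    rw [(hS1 t ht).2] at h5
    have htJ : (t : ℝ) + 1 ≤ J := by exact_mod_cast (hS1 t ht).1
    have h6 : (t : ℝ) * η ≤ 1 := by nlinarith
    have h7 : (0 : ℝ) ≤ t * η := by positivity
    refine (ENNReal.ofReal_le_ofReal ?_).trans (h5.trans ?_)
    · refine div_le_div_of_nonneg_left (by positivity) (by positivity) ?_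
      exact pow_le_pow_left₀ (by positivity) (by linarith) k
    · have h8 : volume ((fun z : ℝ × ℝ => z + (-(t * η), 0)) ⁻¹' {z : ℝ × ℝ | z.1 ∈ Set.Icc 0 η ∧
          z.2 ∈ Set.Icc 0 η ∧ ∀ i < k, ∃ p : ℕ, p.Prime ∧
          |Real.exp ((w + t * η) + ((((j0, d) : ℕ × ℕ).1 : ℝ) + i * ((j0, d) : ℕ × ℕ).2) * Real.log μ +
            z.1 + i * z.2) - s - p| ≤ ε}) = volume {z : ℝ × ℝ | z.1 ∈ Set.Icc 0 η ∧
          z.2 ∈ Set.Icc 0 η ∧ ∀ i < k, ∃ p : ℕ, p.Prime ∧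
          |Real.exp ((w + t * η) + ((((j0, d) : ℕ × ℕ).1 : ℝ) + i * ((j0, d) : ℕ × ℕ).2) * Real.log μ +
            z.1 + i * z.2) - s - p| ≤ ε} :=
        measure_preimage_add_right _ _ _
      rw [← h8]
      have h9 : ((fun z : ℝ × ℝ => z + (-(t * η), 0)) ⁻¹' {z : ℝ × ℝ | z.1 ∈ Set.Icc 0 η ∧
          z.2 ∈ Set.Icc 0 η ∧ ∀ i < k, ∃ p : ℕ, p.Prime ∧
          |Real.exp ((w + t * η) + ((((j0, d) : ℕ × ℕ).1 : ℝ) + i * ((j0, d) : ℕ × ℕ).2) * Real.log μ +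
            z.1 + i * z.2) - s - p| ≤ ε}) ⊆ E t ∪ ({((t : ℝ) + 1) * η} ×ˢ Set.univ) := by
        intro z hz
        obtain ⟨hz1, hz2, hz3⟩ := hz
        have e1 : (z + ((-(t * η), 0) : ℝ × ℝ)).1 = z.1 - t * η := by simp [sub_eq_add_neg]
        have e2 : (z + ((-(t * η), 0) : ℝ × ℝ)).2 = z.2 := by simp
        rw [e1, Set.mem_Icc] at hz1
        rw [e2] at hz2
        by_cases hz4 : z.1 = ((t : ℝ) + 1) * η
        · right
          exact ⟨hz4, Set.mem_univ _⟩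
        · left
          rw [hE]
          refine ⟨⟨⟨by linarith [hz1.1], ?_⟩, hz2⟩, ?_⟩
          · exact lt_of_le_of_ne (by linarith [hz1.2]) hz4
          · rw [wndG_mem]
            intro i hi
            obtain ⟨p, hp, hp2⟩ := hz3 i hi
            refine ⟨p, hp, ?_⟩
            rw [e1, e2] at hp2
            rw [show w + ((j0 : ℝ) + i * d) * Real.log μ + z.1 + i * z.2 =
              (w + t * η) + ((((j0, d) : ℕ × ℕ).1 : ℝ) + i * ((j0, d) : ℕ × ℕ).2) * Real.log μ +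
                (z.1 - t * η) + i * z.2 by ring]
            exact hp2
      refine (measure_mono h9).trans ((measure_union_le _ _).trans ?_)
      have h10 : volume (({((t : ℝ) + 1) * η} : Set ℝ) ×ˢ (Set.univ : Set ℝ)) = 0 := by
        rw [Measure.volume_eq_prod, Measure.prod_prod, Real.volume_singleton, zero_mul]
      rw [h10, add_zero]
  refine le_trans ?_ (measure_mono hEs)
  rw [measure_biUnion_finset hEd fun t _ => hEm t]
  refine le_trans ?_ (Finset.sum_le_sum hEv)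
  rw [Finset.sum_const, nsmul_eq_mul, ← ENNReal.ofReal_natCast, ← ENNReal.ofReal_mul (by positivity)]
  refine ENNReal.ofReal_le_ofReal ?_
  have hwk : (0 : ℝ) < w ^ k := by positivity
  have h11 : c1 / (2 ^ (k + 1) * P) * η / w ^ k ≤ (J : ℝ) / P * (c1 * η ^ 2 / (2 * w) ^ k) := by
    rw [mul_pow, pow_succ]
    have e : (J : ℝ) / P * (c1 * η ^ 2 / (2 ^ k * w ^ k)) =
        (2 * (J : ℝ) * η) * (c1 / (2 ^ k * 2 * P) * η / w ^ k) := by
      field_simp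
    rw [e]
    exact le_mul_of_one_le_left (by positivity) hJ4
  exact h11.trans (mul_le_mul_of_nonneg_right hfib (by positivity))

end GPM
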