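import Pool.Agent.GPM.Geo
import Pool.Agent.GPM.Wnd
import Pool.Agent.GPM.Thick

/-!
# GPM.First: the first moment

PROOF. `μ = e^(m u0)`, `M1 = e^(m u0/2)`, `M2 = e^(2 m n u0)`; `geo` gives `ε1`, and for `s`, `β` the numbers `σ, ε, cg, Cg, Y0`. `wnd` for `μ`, `s + σ`, `ε` gives `cw`.
`ρ0 = min 1 (u0/2)`. For `ρ ≤ ρ0` take `η = ρ/2` in `wnd`; let `w` be large, `j0`, `d` from `wnd`, `a = m d` (`m ≤ a ≤ m n`), `w1 = w + j0 m u0`, `w' = w1 + 1`
(`j0 ≤ (k-1) n`). For `z` in the set of `wnd` let `y = e^(w1+z.1)`, `τ = e^(a u0 + z.2)` (so `M1 ≤ τ ≤ M2`, `e^(..) = y τ^i`), and let `p`, `t0` be from `geo`: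
`|y - (s+σ) - p| ≤ ε`, so `|log p - w'| ≤ 2` (here one needs `w1 - 1 ≤ log p ≤ w1 + 3`; `p ≥ y/2`, `p ≤ 2y`, `log 2 ≤ 1`), i.e. `p ∈ win w'`. In the variable `v`, `t = e^(a u0 + v)`: put `v0 = log t0 - a u0`,
`C' = Cg' e^(-w1)`: `|v0 - z.2| = |log t0 - log τ| ≤ |t0-τ| ≤ Cg e^(-w1)` for large `w` (`t0, τ ≥ 1`), and
`[v0, v0 + l]` is mapped into `[t0, t0 + cg/y]` if `l = c2 e^(-w1)`, `c2 = cg/(4 M2 e^2)`: `t0 (e^l - 1) ≤ 2 M2 · 2 l ≤ cg/y` for `l ≤ 1`, `t0 ≤ 2 M2`... (`c2 = cg/(8 M2 e^2)` is safe).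
So `[v0, v0+l] ⊆ R p := {v | |v| ≤ a ρ ∧ Rob ε1 (s (e^(a u0+v) - 1) + β) (e^(a u0+v)) k p}` (`0 ≤ z.2 ≤ ρ/2`, `C' + l ≤ ρ/2` for large `w`).
`transfer` with `Z` = the translate by `(w1, 0)` of the set of `wnd`, `x0 = w1`, `P = win w'`, shift `s + σ`, gives
`∑_{p ∈ win w'} vol (R p) ≥ vol Z · e^(w1)/(2 ε (2 + 4 Cg/c2)) ≥ c' ρ e^w/w^k`. Finally with `u = u0 + v/a`: `R p` is the image of
`S p = {u ∈ Icc (u0-ρ) (u0+ρ) | Rob ε1 (s (e^(a u) - 1) + β) (e^(a u)) k p}` under `u ↦ a (u - u0)`, `vol (R p) = a vol (S p) ≤ m n vol (S p)`, and `∑_p vol (S p)` is the integral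
(`cW_int`).
-/

namespace GPM

open MeasureTheory Filter SMC

private lemma first_log {x y : ℝ} (hx : 1 ≤ x) (hy : 1 ≤ y) : |Real.log x - Real.log y| ≤ |x - y| := by
  have key : ∀ u v : ℝ, 1 ≤ v → v ≤ u → |Real.log u - Real.log v| ≤ |u - v| := by
    intro u v hv hvu
    have hv0 : 0 < v := by linarith
    have hu0 : 0 < u := by linarith
    have h1 : Real.log u - Real.log v ≤ u - v := by
      rw [← Real.log_div hu0.ne' hv0.ne']
      have h2 := Real.log_le_sub_one_of_pos (div_pos hu0 hv0)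
      have h3 : u / v - 1 ≤ u - v := by
        rw [div_sub_one hv0.ne', div_le_iff₀ hv0]
        nlinarith
      linarith
    have h4 : 0 ≤ Real.log u - Real.log v := sub_nonneg.mpr (Real.log_le_log hv0 hvu)
    rw [abs_of_nonneg h4, abs_of_nonneg (sub_nonneg.mpr hvu)]
    exact h1
  rcases le_total y x with h | h
  · exact key x y hy h
  · rw [abs_sub_comm, abs_sub_comm x y]
    exact key y x hx h

private lemma first_pt {k : ℕ} {M1 M2 ε1 s β σ ε cg Cg Y0 a u0 ρ w1 z1 z2 : ℝ} (h1 : 1 < M1) (h2 : M1 ≤ M2)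
    (hε : 0 < ε) (hcg : 0 < cg) (hCg : 0 < Cg) (hρ : 0 < ρ) (ha : 1 ≤ a)
    (H : ∀ y τ : ℝ, Y0 ≤ y → M1 ≤ τ → τ ≤ M2 →
        (∀ i < k, ∃ q : ℕ, q.Prime ∧ |y * τ ^ i - (s + σ) - q| ≤ ε) →
        ∃ p : ℕ, |y - (s + σ) - p| ≤ ε ∧ ∃ t0 : ℝ, |t0 - τ| ≤ Cg / y ∧
          ∀ t ∈ Set.Icc t0 (t0 + cg / y), Rob ε1 (s * (t - 1) + β) t k p)
    (hw1 : Y0 ≤ Real.exp w1) (hw2 : 2 * (|s + σ| + ε) ≤ Real.exp w1) (hw3 : Cg ≤ (M1 - 1) * Real.exp w1)
    (hw4 : cg / (4 * M2 * Real.exp 2) ≤ Real.exp w1)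
    (hw5 : Cg + cg / (4 * M2 * Real.exp 2) ≤ ρ / 2 * Real.exp w1)
    (hz1 : z1 ∈ Set.Icc (0 : ℝ) 2) (hz2 : z2 ∈ Set.Icc (0 : ℝ) (ρ / 2))
    (hM1 : M1 ≤ Real.exp (a * u0 + z2)) (hM2 : Real.exp (a * u0 + z2) ≤ M2)
    (hq : ∀ i < k, ∃ p : ℕ, p.Prime ∧
      |Real.exp (w1 + z1) * Real.exp (a * u0 + z2) ^ i - (s + σ) - p| ≤ ε) :
    ∃ p ∈ win (w1 + 1), |Real.exp (w1 + z1) - (s + σ) - p| ≤ ε ∧
      ∃ v0 : ℝ, |v0 - z2| ≤ Cg * Real.exp (-w1) ∧
        Set.Icc v0 (v0 + cg / (4 * M2 * Real.exp 2) * Real.exp (-w1)) ⊆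
        {v : ℝ | |v| ≤ a * ρ ∧ Rob ε1 (s * (Real.exp (a * u0 + v) - 1) + β) (Real.exp (a * u0 + v)) k p} := by
  have hE : 0 < Real.exp w1 := Real.exp_pos _
  have hEi : Real.exp (-w1) = (Real.exp w1)⁻¹ := Real.exp_neg w1
  have hM2p : 0 < M2 := by linarith
  have hy1 : Real.exp w1 ≤ Real.exp (w1 + z1) := Real.exp_le_exp.mpr (by linarith [hz1.1])
  have hy2 : Real.exp (w1 + z1) ≤ Real.exp 2 * Real.exp w1 := by
    rw [← Real.exp_add]
    exact Real.exp_le_exp.mpr (by linarith [hz1.2])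
  have hy0 : 0 < Real.exp (w1 + z1) := Real.exp_pos _
  obtain ⟨p, hp, t0, ht0, ht⟩ := H (Real.exp (w1 + z1)) (Real.exp (a * u0 + z2)) (hw1.trans hy1) hM1 hM2 hq
  have hCy : Cg / Real.exp (w1 + z1) ≤ Cg * (Real.exp w1)⁻¹ := by
    rw [div_eq_mul_inv]
    exact mul_le_mul_of_nonneg_left (inv_anti₀ hE hy1) hCg.le
  have hCE : Cg * (Real.exp w1)⁻¹ ≤ M1 - 1 := by
    rw [← div_eq_mul_inv, div_le_iff₀ hE]
    exact hw3
  have hab := abs_le.1 (ht0.trans hCy)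
  have ht1 : 1 ≤ t0 := by linarith [hab.1]
  have ht2 : t0 ≤ 2 * M2 := by linarith [hab.2]
  have ht0p : 0 < t0 := by linarith
  have hτ1 : 1 ≤ Real.exp (a * u0 + z2) := by linarith
  have hpb := abs_le.1 hp
  have hSa := abs_le.1 (le_refl |s + σ|)
  have hp1 : Real.exp (w1 + z1) / 2 ≤ (p : ℝ) := by linarith [hpb.2, hSa.2]
  have hp2 : (p : ℝ) ≤ 2 * Real.exp (w1 + z1) := by linarith [hpb.1, hSa.1]
  have hp0 : 0 < (p : ℝ) := lt_of_lt_of_le (by positivity) hp1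
  have hlog2 : Real.log 2 ≤ 1 := by linarith [Real.log_two_lt_d9]
  have hl1 : w1 - 1 ≤ Real.log p := by
    have h3 := Real.log_le_log (by positivity) hp1
    rw [Real.log_div hy0.ne' (by norm_num), Real.log_exp] at h3
    linarith [hz1.1]
  have hl2 : Real.log p ≤ w1 + 3 := by
    have h3 := Real.log_le_log hp0 hp2
    rw [Real.log_mul (by norm_num) hy0.ne', Real.log_exp] at h3
    linarith [hz1.2]
  refine ⟨p, ?_, hp, Real.log t0 - a * u0, ?_, ?_⟩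
  · rw [mem_win]
    refine ⟨⟨?_, ?_⟩, ?_⟩
    · exact Nat.one_le_iff_ne_zero.mpr fun h => by
        rw [h] at hp0
        simp at hp0
    · refine Nat.le_floor ?_
      rw [← Real.exp_log hp0]
      exact Real.exp_le_exp.mpr (by linarith)
    · rw [abs_le]
      constructor <;> linarith
  · have h3 := first_log ht1 hτ1
    rw [Real.log_exp] at h3
    have e : Real.log t0 - a * u0 - z2 = Real.log t0 - (a * u0 + z2) := by ring
    rw [e, hEi]
    exact h3.trans (ht0.trans hCy)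
  · intro v hv
    have h3 := first_log ht1 hτ1
    rw [Real.log_exp] at h3
    have h4 := abs_le.1 (h3.trans (ht0.trans hCy))
    rw [hEi] at hv
    have h5 : Cg * (Real.exp w1)⁻¹ + cg / (4 * M2 * Real.exp 2) * (Real.exp w1)⁻¹ ≤ ρ / 2 := by
      rw [← add_mul, ← div_eq_mul_inv, div_le_iff₀ hE]
      exact hw5
    have h6 : 0 < cg / (4 * M2 * Real.exp 2) * (Real.exp w1)⁻¹ := by positivity
    have h7 : 0 < Cg * (Real.exp w1)⁻¹ := by positivity
    have h8 : cg / (4 * M2 * Real.exp 2) * (Real.exp w1)⁻¹ ≤ 1 := by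
      rw [← div_eq_mul_inv, div_le_one hE]
      exact hw4
    refine ⟨?_, ht _ ⟨?_, ?_⟩⟩
    · have h9 : ρ ≤ a * ρ := by nlinarith
      rw [abs_le]
      constructor
      · linarith [hv.1, h4.1, hz2.1]
      · linarith [hv.2, h4.2, hz2.2]
    · have h9 : Real.log t0 ≤ a * u0 + v := by linarith [hv.1]
      calc t0 = Real.exp (Real.log t0) := (Real.exp_log ht0p).symm
        _ ≤ Real.exp (a * u0 + v) := Real.exp_le_exp.mpr h9
    · set l := cg / (4 * M2 * Real.exp 2) * (Real.exp w1)⁻¹ with hl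
      have h9 : a * u0 + v ≤ Real.log t0 + l := by linarith [hv.2]
      have h10 : Real.exp l ≤ 1 + 2 * l := by
        have h11 := Real.abs_exp_sub_one_sub_id_le (x := l) (by rw [abs_of_pos h6]; exact h8)
        have h12 := (abs_le.1 h11).2
        nlinarith
      have h13 : 4 * M2 * l ≤ cg / Real.exp (w1 + z1) := by
        rw [le_div_iff₀ hy0]
        calc 4 * M2 * l * Real.exp (w1 + z1) ≤ 4 * M2 * l * (Real.exp 2 * Real.exp w1) :=
              mul_le_mul_of_nonneg_left hy2 (by positivity)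
          _ = cg := by
              rw [hl]
              have := Real.exp_pos 2
              field_simp
      calc Real.exp (a * u0 + v) ≤ Real.exp (Real.log t0 + l) := Real.exp_le_exp.mpr h9
        _ = t0 * Real.exp l := by rw [Real.exp_add, Real.exp_log ht0p]
        _ ≤ t0 * (1 + 2 * l) := mul_le_mul_of_nonneg_left h10 ht0p.le
        _ = t0 + t0 * (2 * l) := by ring
        _ ≤ t0 + 2 * M2 * (2 * l) := by
            have := mul_le_mul_of_nonneg_right ht2 (by positivity : (0 : ℝ) ≤ 2 * l)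
            linarith
        _ = t0 + 4 * M2 * l := by ring
        _ ≤ t0 + cg / Real.exp (w1 + z1) := by linarith

/-- The change of variables. -/
private lemma first_vol {a u0 ρ : ℝ} (ha : 0 < a) (Q : ℝ → Prop) :
    volume {v : ℝ | |v| ≤ a * ρ ∧ Q (a * u0 + v)} =
      ENNReal.ofReal a * volume (Set.Icc (u0 - ρ) (u0 + ρ) ∩ {u : ℝ | Q (a * u)}) := by
  set S : Set ℝ := Set.Icc (u0 - ρ) (u0 + ρ) ∩ {u : ℝ | Q (a * u)} with hS
  have h1 : {v : ℝ | |v| ≤ a * ρ ∧ Q (a * u0 + v)} = (fun v : ℝ => v * a⁻¹) ⁻¹' ((fun x : ℝ => u0 + x) ⁻¹' S) := by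
    ext v
    simp only [Set.mem_ofPred_eq, Set.mem_preimage, hS, Set.mem_inter_iff, Set.mem_Icc]
    have e : a * (u0 + v * a⁻¹) = a * u0 + v := by field_simp
    rw [e]
    have e2 : |v| ≤ a * ρ ↔ u0 - ρ ≤ u0 + v * a⁻¹ ∧ u0 + v * a⁻¹ ≤ u0 + ρ := by
      rw [abs_le, ← div_eq_mul_inv]
      constructor
      · rintro ⟨h, h'⟩
        constructor
        · have : -ρ ≤ v / a := by
            rw [le_div_iff₀ ha]
            linarith
          linarith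
        · have : v / a ≤ ρ := by
            rw [div_le_iff₀ ha]
            linarith
          linarith
      · rintro ⟨h, h'⟩
        have h3 : -ρ ≤ v / a := by linarith
        have h4 : v / a ≤ ρ := by linarith
        rw [le_div_iff₀ ha] at h3
        rw [div_le_iff₀ ha] at h4
        constructor <;> linarith
    rw [e2]
  rw [h1, Real.volume_preimage_mul_right (inv_ne_zero ha.ne'), inv_inv, abs_of_pos ha, measure_preimage_add]

theorem first_m {k n : ℕ} (hk : 2 ≤ k) (hn : 1 ≤ n) (hB : BB k n) {u0 : ℝ} (hu : 0 < u0) {m : ℕ} (hm : 1 ≤ m) :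
    ∃ ε1 : ℝ, 0 < ε1 ∧ ∀ s β : ℝ, 0 ≤ β → β ≤ 1 → ∃ c ρ0 : ℝ, 0 < c ∧ 0 < ρ0 ∧ ∀ ρ : ℝ, 0 < ρ → ρ ≤ ρ0 →
      ∀ᶠ w : ℝ in atTop, ∃ d : ℕ, 1 ≤ d ∧ d ≤ n ∧ ∃ w' : ℝ, w ≤ w' ∧ w' ≤ w + (k * n * m * u0 + 1) ∧
        ENNReal.ofReal (c * ρ * Real.exp w / w ^ k) ≤ ∫⁻ u in Set.Icc (u0 - ρ) (u0 + ρ),
          (cW ε1 (s * (Real.exp (((m * d : ℕ) : ℝ) * u) - 1) + β) (Real.exp (((m * d : ℕ) : ℝ) * u)) k w' : ENNReal) := by
  have hmR : (1 : ℝ) ≤ m := by exact_mod_cast hm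
  have hnR : (1 : ℝ) ≤ n := by exact_mod_cast hn
  have hmu : 0 < (m : ℝ) * u0 := by positivity
  have hmnu : (m : ℝ) * u0 ≤ m * n * u0 := by nlinarith
  set M1 : ℝ := Real.exp (m * u0 / 2) with hM1
  set M2 : ℝ := Real.exp (2 * (m * n * u0)) with hM2
  have h1 : 1 < M1 := by
    rw [hM1, Real.one_lt_exp_iff]
    positivity
  have h2 : M1 ≤ M2 := by
    rw [hM1, hM2, Real.exp_le_exp]
    linarith
  have hM2p : 0 < M2 := Real.exp_pos _
  obtain ⟨ε1, hε1, hgeo⟩ := geo hk h1 h2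
  refine ⟨ε1, hε1, fun s β hβ0 hβ1 => ?_⟩
  obtain ⟨σ, ε, cg, Cg, Y0, hε, hcg, hCg, hY0, H⟩ := hgeo s β hβ0 hβ1
  have hμ : 1 < Real.exp (m * u0) := by
    rw [Real.one_lt_exp_iff]
    exact hmu
  obtain ⟨cw, hcw, hwnd⟩ := wnd hk hn hB hμ (s + σ) hε
  set c2 : ℝ := cg / (4 * M2 * Real.exp 2) with hc2
  have hc2p : 0 < c2 := by positivity
  set K0 : ℝ := 2 * ε * (2 + 4 * Cg / c2) with hK0
  have hK0p : 0 < K0 := by positivity
  refine ⟨cw / (2 * K0 * (m * n)), min 1 (u0 / 2), by positivity, by positivity, fun ρ hρ hρ0 => ?_⟩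
  have hρ1 : ρ ≤ 1 := hρ0.trans (min_le_left _ _)
  have hρ2 : ρ ≤ u0 / 2 := hρ0.trans (min_le_right _ _)
  obtain ⟨w0, hw0⟩ := hwnd (ρ / 2) (by positivity) (by linarith)
  have hM1' : 0 < M1 - 1 := by linarith
  filter_upwards [eventually_ge_atTop w0, eventually_ge_atTop 1,
    Real.tendsto_exp_atTop.eventually_ge_atTop (Y0 + 2 * (|s + σ| + ε) + Cg / (M1 - 1) + c2 + (Cg + c2) / (ρ / 2))]
    with w hww0 hw1 hwB
  obtain ⟨j0, d, hd1, hdn, hj, hvol⟩ := hw0 w hww0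
  have hd1R : (1 : ℝ) ≤ d := by exact_mod_cast hd1
  have hdnR : (d : ℝ) ≤ n := by exact_mod_cast hdn
  have hj0 : j0 ≤ k * n := by
    have : (k - 1) * n ≤ k * n := Nat.mul_le_mul_right n (Nat.sub_le k 1)
    omega
  have hj0R : (j0 : ℝ) ≤ k * n := by exact_mod_cast hj0
  set w1 : ℝ := w + j0 * (m * u0) with hw1d
  have hww1 : w ≤ w1 := by
    rw [hw1d]
    have : 0 ≤ (j0 : ℝ) * (m * u0) := by positivity
    linarith
  have hEE : Real.exp w ≤ Real.exp w1 := Real.exp_le_exp.mpr hww1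
  set a : ℝ := ((m * d : ℕ) : ℝ) with ha
  have haR : a = m * d := by
    rw [ha]
    push_cast
    ring
  have ha1 : 1 ≤ a := by
    rw [haR]
    nlinarith
  have ham : (m : ℝ) ≤ a := by
    rw [haR]
    nlinarith
  have han : a ≤ m * n := by
    rw [haR]
    nlinarith
  refine ⟨d, hd1, hdn, w1 + 1, by linarith, ?_, ?_⟩
  · have h3 : (j0 : ℝ) * (m * u0) ≤ k * n * (m * u0) := mul_le_mul_of_nonneg_right hj0R hmu.le
    rw [hw1d]
    linarith
  -- the largeness conditions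
  have hb0 : 0 ≤ |s + σ| := abs_nonneg _
  have hp1 : 0 ≤ Cg / (M1 - 1) := by positivity
  have hp2 : 0 ≤ (Cg + c2) / (ρ / 2) := by positivity
  have g1 : Y0 ≤ Real.exp w1 := by linarith
  have g2 : 2 * (|s + σ| + ε) ≤ Real.exp w1 := by linarith
  have g3 : Cg ≤ (M1 - 1) * Real.exp w1 := by
    have : Cg / (M1 - 1) ≤ Real.exp w1 := by linarith
    rw [div_le_iff₀ hM1'] at this
    linarith
  have g4 : c2 ≤ Real.exp w1 := by linarith
  have g5 : Cg + c2 ≤ ρ / 2 * Real.exp w1 := by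
    have : (Cg + c2) / (ρ / 2) ≤ Real.exp w1 := by linarith
    rw [div_le_iff₀ (by positivity)] at this
    linarith
  -- the set
  set A : Set (ℝ × ℝ) := {z : ℝ × ℝ | z.1 ∈ Set.Icc 0 2 ∧ z.2 ∈ Set.Icc 0 (ρ / 2) ∧
        ∀ i < k, ∃ p : ℕ, p.Prime ∧
          |Real.exp (w + ((j0 : ℝ) + i * d) * Real.log (Real.exp (m * u0)) + z.1 + i * z.2) - (s + σ) - p| ≤ ε} with hA
  set Z : Set (ℝ × ℝ) := (fun z : ℝ × ℝ => z + (-w1, 0)) ⁻¹' A with hZ
  have hZv : volume Z = volume A := by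
    rw [hZ]
    exact measure_preimage_add_right volume _ _
  set R : ℕ → Set ℝ := fun p => {v : ℝ | |v| ≤ a * ρ ∧
    Rob ε1 (s * (Real.exp (a * u0 + v) - 1) + β) (Real.exp (a * u0 + v)) k p} with hR
  have hmain : ∀ z ∈ Z, w1 ≤ z.1 ∧ ∃ p ∈ win (w1 + 1), |Real.exp z.1 - (s + σ) - p| ≤ ε ∧
      ∃ t0 : ℝ, |t0 - z.2| ≤ Cg * Real.exp (-w1) ∧ Set.Icc t0 (t0 + c2 * Real.exp (-w1)) ⊆ R p := by
    rintro ⟨x, z2⟩ hz
    rw [hZ, Set.mem_preimage] at hz
    simp only [Prod.mk_add_mk, add_zero] at hz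
    obtain ⟨hz1, hz2, hz3⟩ := hz
    simp only at hz1 hz2 hz3
    refine ⟨by simpa using hz1.1, ?_⟩
    have hM1z : M1 ≤ Real.exp (a * u0 + z2) := by
      rw [hM1, Real.exp_le_exp]
      have : (m : ℝ) * u0 ≤ a * u0 := mul_le_mul_of_nonneg_right ham hu.le
      linarith [hz2.1]
    have hM2z : Real.exp (a * u0 + z2) ≤ M2 := by
      rw [hM2, Real.exp_le_exp]
      have h3 : a * u0 ≤ m * n * u0 := mul_le_mul_of_nonneg_right han hu.le
      have h4 : z2 ≤ m * n * u0 := by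
        have h5 : u0 ≤ m * n * u0 := by
          have : (1 : ℝ) ≤ m * n := by nlinarith
          nlinarith
        linarith [hz2.2]
      linarith
    have hq : ∀ i < k, ∃ p : ℕ, p.Prime ∧
        |Real.exp (w1 + (x + -w1)) * Real.exp (a * u0 + z2) ^ i - (s + σ) - p| ≤ ε := by
      intro i hi
      obtain ⟨p, hp, hp'⟩ := hz3 i hi
      refine ⟨p, hp, ?_⟩
      have e : Real.exp (w1 + (x + -w1)) * Real.exp (a * u0 + z2) ^ i =
          Real.exp (w + ((j0 : ℝ) + i * d) * Real.log (Real.exp (m * u0)) + (x + -w1) + i * z2) := by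
        rw [← Real.exp_nat_mul, ← Real.exp_add, Real.log_exp]
        congr 1
        rw [haR, hw1d]
        ring
      rw [e]
      exact hp'
    obtain ⟨p, hp, hp', v0, hv0, hv0'⟩ := first_pt h1 h2 hε hcg hCg hρ ha1 H g1 g2 g3 g4 g5 hz1 hz2 hM1z hM2z hq
    refine ⟨p, hp, ?_, v0, hv0, hv0'⟩
    have e : w1 + (x + -w1) = x := by ring
    rw [e] at hp'
    exact hp'
  have hE1 : 0 < Real.exp (-w1) := Real.exp_pos _
  have htr := transfer (Z := Z) (P := win (w1 + 1)) (R := R) (x0 := w1) (s := s + σ) (ε := ε)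
    (l := c2 * Real.exp (-w1)) (C := Cg * Real.exp (-w1)) (by positivity) (by positivity) hε.le hmain
  have e1 : 4 * (Cg * Real.exp (-w1)) / (c2 * Real.exp (-w1)) = 4 * Cg / c2 := by
    field_simp
  rw [e1, hZv] at htr
  -- the integral
  have hint := cW_int (τ := fun u => Real.exp (a * u)) (γ := fun u => s * (Real.exp (a * u) - 1) + β)
    (by fun_prop) (by fun_prop) ε1 k (w1 + 1) (S := Set.Icc (u0 - ρ) (u0 + ρ)) measurableSet_Icc
  rw [hint]
  have hsum : ∑ p ∈ win (w1 + 1), volume (R p) = ENNReal.ofReal a * ∑ p ∈ win (w1 + 1),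
      volume (Set.Icc (u0 - ρ) (u0 + ρ) ∩ {u : ℝ | Rob ε1 (s * (Real.exp (a * u) - 1) + β) (Real.exp (a * u)) k p}) := by
    rw [Finset.mul_sum]
    refine Finset.sum_congr rfl fun p _ => ?_
    exact first_vol (by linarith) (fun x => Rob ε1 (s * (Real.exp x - 1) + β) (Real.exp x) k p)
  rw [hsum, ← mul_assoc, ← ENNReal.ofReal_mul (by positivity)] at htr
  set X := ∑ p ∈ win (w1 + 1),
      volume (Set.Icc (u0 - ρ) (u0 + ρ) ∩ {u : ℝ | Rob ε1 (s * (Real.exp (a * u) - 1) + β) (Real.exp (a * u)) k p}) with hX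
  set K : ℝ := 2 * ε * Real.exp (-w1) * (2 + 4 * Cg / c2) * a with hK
  have hKp : 0 < K := by positivity
  have hwk : 0 < w ^ k := by positivity
  have hfin : ENNReal.ofReal K * ENNReal.ofReal (cw / (2 * K0 * (m * n)) * ρ * Real.exp w / w ^ k) ≤
      ENNReal.ofReal K * X := by
    refine le_trans ?_ (hvol.trans htr)
    rw [← ENNReal.ofReal_mul hKp.le]
    refine ENNReal.ofReal_le_ofReal ?_
    have hmn : 0 < (m : ℝ) * n := by positivity
    have e2 : K * (cw / (2 * K0 * (m * n)) * ρ * Real.exp w / w ^ k) =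
        (cw * (ρ / 2) / w ^ k) * (Real.exp w * Real.exp (-w1)) * (a / (m * n)) := by
      rw [hK, hK0]
      have h5 : 2 + 4 * Cg / c2 ≠ 0 := by positivity
      field_simp
    rw [e2]
    have h6 : Real.exp w * Real.exp (-w1) ≤ 1 := by
      rw [← Real.exp_add, Real.exp_le_one_iff]
      linarith
    have h7 : a / (m * n) ≤ 1 := (div_le_one hmn).mpr han
    have h8 : 0 ≤ cw * (ρ / 2) / w ^ k := by positivity
    calc (cw * (ρ / 2) / w ^ k) * (Real.exp w * Real.exp (-w1)) * (a / (m * n)) ≤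
          (cw * (ρ / 2) / w ^ k) * 1 * 1 := by
          refine mul_le_mul (mul_le_mul_of_nonneg_left h6 h8) h7 (by positivity) (by positivity)
      _ = cw * (ρ / 2) / w ^ k := by ring
  exact (ENNReal.mul_le_mul_iff_right (ENNReal.ofReal_pos.mpr hKp).ne' ENNReal.ofReal_ne_top).mp hfin

end GPM
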