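import Pool.Agent.GPM.Defs

/-!
# GPM.Geo: a geometric progression near primes gives an interval of multipliers with a chain

PROOF. Notation: `a0 = M1 - 1 > 0`, `b0 = M2 - 1 ≥ a0`, `δ = a0/(8(1+b0)) ≤ 1/8`, `ε1 = δ/8`, `ε = δ/(16(1+M2))` (so `(1+M2) ε ≤ ε1/2`), `g = min a0 1/8`,
`σ = -1/(4 b0)` if `β ≤ 1/2` and `σ = 1/(4 b0)` otherwise, `γ(t) = s (t-1) + β`, `v(t) = β - σ (t-1)`; for `M1 ≤ t ≤ M2`: `δ ≤ v(t) ≤ 1-δ`
(`β ≤ 1/2`: `v = β + (t-1)/(4b0) ∈ [a0/(4b0), 3/4]`; `β > 1/2`: `v ∈ [1/4, 1 - a0/(4b0)]`).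
Let `q_i`, `i < k`, be the primes, `e_i = q_i - (y τ^i - s - σ)`, `|e_i| ≤ ε`. For `i + 1 < k`: `τ q_i + γ(τ) = q_{i+1} + v_i` with
`v_i = v(τ) + τ e_i - e_{i+1}`, so `|v_i - v(τ)| ≤ (1+M2) ε ≤ ε1/2` and `4 ε1 ≤ v_i ≤ 1 - 4 ε1`.
For real `t` put `x = (t-τ)(q_{k-2}+s)` and `θ_i = (q_i+s)/(q_{k-2}+s) ∈ [0,1]` for `i ≤ k-2` (`y` large: `q_i + s = y τ^i + e_i - σ` is positive and increasing in `i`), so
`t q_i + γ(t) = q_{i+1} + v_i + θ_i x` for `i ≤ k-2`. If `v_{k-2} + x ∈ [2ε1, 1-2ε1]`, then `v_i + θ_i x ∈ [ε1, 1-ε1]` for all `i ≤ k-2`: it lies between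
`v_i` and `v_i + x = (v_{k-2} + x) + (v_i - v_{k-2})`, `|v_i - v_{k-2}| ≤ ε1`. So for these `t` the chain of `p = q_0` under `T t γ(t)` is `q_0, q_1, .., q_{k-1}` with margins `ε1`
(`Nat.floor_eq_iff`), and its next term is the floor of `t q_{k-1} + γ(t) = A + ξ x`, `ξ = (q_{k-1}+s)/(q_{k-2}+s) ≥ 1 + 3a0/4` for large `y`. When `x` runs through the interval
`[2ε1 - v_{k-2}, 1 - 2ε1 - v_{k-2}]` of length `1 - 4ε1` this runs through an interval `[P, Q]` of length `≥ (1-4ε1)(1+3a0/4) ≥ 1 + a0/2`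
(`4 ε1 = δ/2 = a0/(16(1+b0))`, `(1 + 3a0/4) 4ε1 ≤ a0/16`).
EVEN LEMMA: every interval `[P, Q]` with `Q - P ≥ 1 + 2ε1 + 2g` (here `≤ 1 + a0/2`, as `2ε1 ≤ a0/32`, `2g ≤ a0/4`) contains `[P', P'+g]` with
`[P', P'+g] ⊆ [S+ε1, S+1-ε1]` for an even integer `S` (`g + 2ε1 ≤ 1`): `S` = the largest even integer with `S + ε1 ≤ P`...: if `S + 1 - ε1 - g ≥ P` take `P' = P`, otherwise
`P < S + 2 + ε1`, take `P' = S + 2 + ε1` and the even integer `S + 2` (`P' + g < P + 1 + 2ε1 + 2g ≤ Q`, as `P > S+1-ε1-g`).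
So `T^k p = S` for all `t` with `A + ξ x ∈ [P', P'+g]`: an interval `[t0, t0 + g/(q_{k-1}+s)]`, which contains `[t0, t0 + c/y]`, `c = g/(2 M2^k)`, for large `y` (`q_{k-1}+s ≤ 2 y M2^k`);
`|t0 - τ| ≤ 1/(q_{k-2}+s) ≤ 2/y` (`|x| ≤ 1`, `q_{k-2}+s ≥ y/2`). `S ≥ 4` for large `y` (`S ≥ q_{k-1}·.. - |..| - 2`).
If `M2 = M1` or the hypotheses on `y` fail nothing is claimed; `Y0` depends on everything except `y`, `τ`.
-/

namespace GPM

open MeasureTheory SMC

private theorem geo_even {P Q g ε : ℝ} (hQ : P + 1 + 2 * ε + 2 * g ≤ Q) (hg : 0 ≤ g) (hε : 0 < ε) (h : g + 2 * ε ≤ 1) :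
    ∃ (P' : ℝ) (n : ℤ), P ≤ P' ∧ P' + g ≤ Q ∧ 2 * (n : ℝ) + ε ≤ P' ∧ P' + g ≤ 2 * (n : ℝ) + 1 - ε := by
  have h1 := Int.floor_le ((P - ε) / 2)
  have h2 := Int.lt_floor_add_one ((P - ε) / 2)
  generalize ⌊(P - ε) / 2⌋ = n at h1 h2
  by_cases h3 : P + g ≤ 2 * (n : ℝ) + 1 - ε
  · exact ⟨P, n, le_rfl, by linarith, by linarith, h3⟩
  · have h4 := not_le.1 h3
    refine ⟨2 * (n : ℝ) + 2 + ε, n + 1, by linarith, by linarith, ?_, ?_⟩
    · push_cast
      linarith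
    · push_cast
      linarith

private theorem geo_core {m : ℕ} {s β τ ε t : ℝ} {q : ℕ → ℕ} {v : ℕ → ℝ} {S : ℕ} (hε : 0 < ε)
    (hq : ∀ i < m + 2, (q i).Prime) (hu : ∀ i < m + 2, 0 < (q i : ℝ) + s)
    (hm : ∀ i ≤ m, (q i : ℝ) + s ≤ (q m : ℝ) + s)
    (hv : ∀ i ≤ m, τ * ((q i : ℝ) + s) - s + β = (q (i + 1) : ℝ) + v i)
    (hv1 : ∀ i ≤ m, 4 * ε ≤ v i ∧ v i ≤ 1 - 4 * ε) (hv2 : ∀ i ≤ m, |v i - v m| ≤ ε)
    (ht1 : 2 * ε ≤ v m + (t - τ) * ((q m : ℝ) + s)) (ht2 : v m + (t - τ) * ((q m : ℝ) + s) ≤ 1 - 2 * ε)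
    (hS : Even S) (hS4 : 4 ≤ S) (hS1 : (S : ℝ) + ε ≤ t * ((q (m + 1) : ℝ) + s) - s + β)
    (hS2 : t * ((q (m + 1) : ℝ) + s) - s + β ≤ (S : ℝ) + 1 - ε) :
    Rob ε (s * (t - 1) + β) t (m + 2) (q 0) := by
  have key : ∀ i ≤ m, (q (i + 1) : ℝ) + ε ≤ t * (q i : ℝ) + (s * (t - 1) + β) ∧
      t * (q i : ℝ) + (s * (t - 1) + β) ≤ (q (i + 1) : ℝ) + 1 - ε := by
    intro i hi
    have h1 := hv i hi
    have h2 := hv1 i hi
    have h3 := abs_le.1 (hv2 i hi)
    have h4 := hu i (by omega)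
    have h5 := hm i hi
    have e : t * (q i : ℝ) + (s * (t - 1) + β) = (q (i + 1) : ℝ) + v i + (t - τ) * ((q i : ℝ) + s) := by
      linear_combination h1
    rw [e]
    rcases le_total τ t with h | h
    · have h6 : 0 ≤ (t - τ) * ((q i : ℝ) + s) := mul_nonneg (by linarith) h4.le
      have h7 : (t - τ) * ((q i : ℝ) + s) ≤ (t - τ) * ((q m : ℝ) + s) :=
        mul_le_mul_of_nonneg_left h5 (by linarith)
      constructor
      · linarith [h2.1]
      · linarith [h3.2]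
    · have h6 : (t - τ) * ((q i : ℝ) + s) ≤ 0 := mul_nonpos_of_nonpos_of_nonneg (by linarith) h4.le
      have h7 : (t - τ) * ((q m : ℝ) + s) ≤ (t - τ) * ((q i : ℝ) + s) :=
        mul_le_mul_of_nonpos_left h5 (by linarith)
      constructor
      · linarith [h3.1]
      · linarith [h2.2]
  have last1 : (S : ℝ) + ε ≤ t * (q (m + 1) : ℝ) + (s * (t - 1) + β) := by linarith
  have last2 : t * (q (m + 1) : ℝ) + (s * (t - 1) + β) ≤ (S : ℝ) + 1 - ε := by linarith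
  have it : ∀ i < m + 2, (T t (s * (t - 1) + β))^[i] (q 0) = q i := by
    intro i
    induction i with
    | zero => intro _; rfl
    | succ i ih =>
      intro hi
      rw [Function.iterate_succ_apply', ih (by omega)]
      obtain ⟨h1, h2⟩ := key i (by omega)
      unfold T
      have h3 : (0 : ℝ) ≤ (q (i + 1) : ℝ) := Nat.cast_nonneg _
      exact (Nat.floor_eq_iff (by linarith)).2 ⟨by linarith, by linarith⟩
  have itk : (T t (s * (t - 1) + β))^[m + 1 + 1] (q 0) = S := by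
    rw [Function.iterate_succ_apply', it (m + 1) (by omega)]
    unfold T
    have h3 : (0 : ℝ) ≤ (S : ℝ) := Nat.cast_nonneg _
    exact (Nat.floor_eq_iff (by linarith)).2 ⟨by linarith, by linarith⟩
  refine ⟨fun i hi => ?_, fun i hi => ?_, ?_, ?_⟩
  · rw [it i hi]
    exact hq i hi
  · rcases Nat.lt_or_ge i (m + 1) with h | h
    · rw [it i hi, it (i + 1) (by omega)]
      exact key i (by omega)
    · have e : i = m + 1 := by omega
      subst e
      rw [it (m + 1) hi, itk]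
      exact ⟨last1, last2⟩
  · have := itk
    rw [this]
    exact hS
  · have := itk
    rw [this]
    exact hS4

/-- The choice of `σ`. -/
private theorem geo_sig {a b β : ℝ} (ha : 0 < a) (hab : a ≤ b) (h0 : 0 ≤ β) (h1 : β ≤ 1) :
    ∃ σ : ℝ, ∀ x : ℝ, a ≤ x → x ≤ b → a / (8 * (1 + b)) ≤ β - σ * x ∧ β - σ * x ≤ 1 - a / (8 * (1 + b)) := by
  have hb : 0 < b := by linarith
  have hd : a / (8 * (1 + b)) ≤ a / (4 * b) :=
    div_le_div_of_nonneg_left ha.le (by linarith) (by linarith)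
  have hd2 : a / (8 * (1 + b)) ≤ 1 / 8 := by
    rw [div_le_div_iff₀ (by linarith) (by norm_num)]
    linarith
  rcases le_total β (1 / 2) with h | h
  · refine ⟨-(1 / (4 * b)), fun x hx1 hx2 => ?_⟩
    have e : β - -(1 / (4 * b)) * x = β + x / (4 * b) := by ring
    rw [e]
    have h2 : a / (4 * b) ≤ x / (4 * b) := by gcongr
    have h3 : x / (4 * b) ≤ 1 / 4 := by
      rw [div_le_div_iff₀ (by linarith) (by norm_num)]
      linarith
    constructor
    · linarith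
    · linarith
  · refine ⟨1 / (4 * b), fun x hx1 hx2 => ?_⟩
    have e : β - 1 / (4 * b) * x = β - x / (4 * b) := by ring
    rw [e]
    have h2 : a / (4 * b) ≤ x / (4 * b) := by gcongr
    have h3 : x / (4 * b) ≤ 1 / 4 := by
      rw [div_le_div_iff₀ (by linarith) (by norm_num)]
      linarith
    constructor
    · linarith
    · linarith

theorem geo {k : ℕ} (hk : 2 ≤ k) {M1 M2 : ℝ} (h1 : 1 < M1) (h2 : M1 ≤ M2) : ∃ ε1 : ℝ, 0 < ε1 ∧
    ∀ s β : ℝ, 0 ≤ β → β ≤ 1 → ∃ σ ε c C Y0 : ℝ, 0 < ε ∧ 0 < c ∧ 0 < C ∧ 0 < Y0 ∧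
      ∀ y τ : ℝ, Y0 ≤ y → M1 ≤ τ → τ ≤ M2 →
        (∀ i < k, ∃ q : ℕ, q.Prime ∧ |y * τ ^ i - (s + σ) - q| ≤ ε) →
        ∃ p : ℕ, |y - (s + σ) - p| ≤ ε ∧ ∃ t0 : ℝ, |t0 - τ| ≤ C / y ∧
          ∀ t ∈ Set.Icc t0 (t0 + c / y), Rob ε1 (s * (t - 1) + β) t k p := by
  obtain ⟨m, rfl⟩ : ∃ m, k = m + 2 := ⟨k - 2, by omega⟩
  have ha : 0 < M1 - 1 := by linarith
  have hM2 : 1 < M2 := by linarith
  have hb : 0 < M2 - 1 := by linarith
  obtain ⟨δ, hδ⟩ : ∃ δ : ℝ, δ = (M1 - 1) / (8 * (1 + (M2 - 1))) := ⟨_, rfl⟩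
  have hδ0 : 0 < δ := by
    rw [hδ]
    exact div_pos ha (by linarith)
  have hδM : δ * (8 * M2) = M1 - 1 := by
    rw [hδ]
    have : (1 + (M2 - 1)) = M2 := by ring
    rw [this]
    field_simp
  refine ⟨δ / 8, by linarith, fun s β hβ0 hβ1 => ?_⟩
  obtain ⟨σ, hσ⟩ := geo_sig ha (by linarith : M1 - 1 ≤ M2 - 1) hβ0 hβ1
  rw [← hδ] at hσ
  obtain ⟨ε, hε⟩ : ∃ ε : ℝ, ε = δ / (16 * (1 + M2)) := ⟨_, rfl⟩
  have hε0 : 0 < ε := by
    rw [hε]
    exact div_pos hδ0 (by linarith)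
  have hεM : (1 + M2) * ε = δ / 16 := by
    rw [hε]
    field_simp
  obtain ⟨g, hg⟩ : ∃ g : ℝ, g = min (M1 - 1) 1 / 8 := ⟨_, rfl⟩
  have hg0 : 0 < g := by
    rw [hg]
    have : 0 < min (M1 - 1) 1 := lt_min ha one_pos
    linarith
  have hga : g ≤ (M1 - 1) / 8 := by
    rw [hg]
    have := min_le_left (M1 - 1) 1
    linarith
  have hg1 : g ≤ 1 / 8 := by
    rw [hg]
    have := min_le_right (M1 - 1) 1
    linarith
  have hMk : 0 < M2 ^ (m + 2) := by positivity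
  obtain ⟨B, hB⟩ : ∃ B : ℝ, B = (ε + |σ|) * (1 + M2) := ⟨_, rfl⟩
  have hB0 : 0 < B := by
    rw [hB]
    have := abs_nonneg σ
    exact mul_pos (by linarith) (by linarith)
  have hBe : ε + |σ| ≤ B := by
    rw [hB]
    have := abs_nonneg σ
    nlinarith
  refine ⟨σ, ε, g / (2 * M2 ^ (m + 2)), 2, 8 * B / (M1 - 1) + 2 * B + 2 / (M1 - 1) + 2 * |s| + 12, hε0,
    by positivity, by norm_num, by positivity, fun y τ hy hτ1 hτ2 hpr => ?_⟩
  have hy1 : 8 * B / (M1 - 1) ≤ y := by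
    have : 0 ≤ 2 / (M1 - 1) := by positivity
    linarith [abs_nonneg s]
  have hy2 : 2 * B ≤ y := by
    have h3 : 0 ≤ 2 / (M1 - 1) := by positivity
    have h4 : 0 ≤ 8 * B / (M1 - 1) := by positivity
    linarith [abs_nonneg s]
  have hy3 : 2 / (M1 - 1) ≤ y := by
    have h4 : 0 ≤ 8 * B / (M1 - 1) := by positivity
    linarith [abs_nonneg s]
  have hy4 : 2 * |s| + 12 ≤ y := by
    have h3 : 0 ≤ 2 / (M1 - 1) := by positivity
    have h4 : 0 ≤ 8 * B / (M1 - 1) := by positivity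
    linarith [abs_nonneg s]
  have hy0 : 0 < y := by linarith [abs_nonneg s]
  have hy1' : 8 * B ≤ y * (M1 - 1) := (div_le_iff₀ ha).1 hy1
  have hy3' : 2 ≤ y * (M1 - 1) := (div_le_iff₀ ha).1 hy3
  have hτ : 1 < τ := by linarith
  -- the primes
  choose! q hq using hpr
  have hσ' := abs_le.1 (le_refl |σ|)
  have he : ∀ i < m + 2, -ε ≤ (q i : ℝ) + s - (y * τ ^ i - σ) ∧ (q i : ℝ) + s - (y * τ ^ i - σ) ≤ ε := by
    intro i hi
    have h3 := abs_le.1 (hq i hi).2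
    constructor
    · linarith [h3.2]
    · linarith [h3.1]
  have hu : ∀ i < m + 2, y / 2 ≤ (q i : ℝ) + s := by
    intro i hi
    have h3 := (he i hi).1
    have h4 : y * 1 ≤ y * τ ^ i := mul_le_mul_of_nonneg_left (one_le_pow₀ hτ.le) hy0.le
    linarith [hσ'.2]
  have hstep : ∀ i < m + 1, (1 + 3 * (M1 - 1) / 4) * ((q i : ℝ) + s) ≤ (q (i + 1) : ℝ) + s := by
    intro i hi
    have h3 := he i (by omega)
    have h4 := he (i + 1) (by omega)
    have h5 := hu i (by omega)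
    have h6 : y * τ ^ (i + 1) = τ * (y * τ ^ i) := by ring
    rw [h6] at h4
    have h7 : τ * ((q i : ℝ) + s) ≤ τ * (y * τ ^ i) - τ * σ + τ * ε := by
      have := mul_le_mul_of_nonneg_left h3.2 (by linarith : 0 ≤ τ)
      linarith
    have h8 : (1 + (M1 - 1)) * ((q i : ℝ) + s) ≤ τ * ((q i : ℝ) + s) :=
      mul_le_mul_of_nonneg_right (by linarith) (by linarith)
    have h9 : τ * σ ≥ -(M2 * |σ|) := by
      have h10 : -(τ * |σ|) ≤ τ * σ := by
        have := mul_le_mul_of_nonneg_left hσ'.1 (by linarith : 0 ≤ τ)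
        linarith
      have h11 : τ * |σ| ≤ M2 * |σ| := mul_le_mul_of_nonneg_right hτ2 (abs_nonneg _)
      linarith
    have h12 : τ * ε ≤ M2 * ε := mul_le_mul_of_nonneg_right hτ2 hε0.le
    have h13 : (M1 - 1) / 4 * (y / 2) ≤ (M1 - 1) / 4 * ((q i : ℝ) + s) :=
      mul_le_mul_of_nonneg_left h5 (by linarith)
    have h14 : B = ε + |σ| + M2 * ε + M2 * |σ| := by
      rw [hB]
      ring
    nlinarith [hσ'.2]
  have hmono1 : ∀ i < m + 1, (q i : ℝ) + s ≤ (q (i + 1) : ℝ) + s := by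
    intro i hi
    have h3 := hstep i hi
    have h4 := hu i (by omega)
    have h5 : 0 ≤ 3 * (M1 - 1) / 4 * ((q i : ℝ) + s) := mul_nonneg (by linarith) (by linarith)
    linarith
  have hmono : ∀ i ≤ m, (q i : ℝ) + s ≤ (q m : ℝ) + s := by
    intro i hi
    obtain ⟨d, rfl⟩ := Nat.exists_eq_add_of_le hi
    clear hi
    have h3 : ∀ e ≤ d, (q i : ℝ) + s ≤ (q (i + e) : ℝ) + s := by
      intro e
      induction e with
      | zero => intro _; exact le_rfl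
      | succ e ih =>
        intro h4
        exact (ih (by omega)).trans (hmono1 (i + e) (by omega))
    exact h3 d le_rfl
  -- the values `v i`
  obtain ⟨v, hv⟩ : ∃ v : ℕ → ℝ, v = fun i => τ * ((q i : ℝ) + s) - s + β - (q (i + 1) : ℝ) := ⟨_, rfl⟩
  have hvi : ∀ i ≤ m, |v i - (β - σ * (τ - 1))| ≤ δ / 16 := by
    intro i hi
    have h3 := he i (by omega)
    have h4 := he (i + 1) (by omega)
    have h6 : y * τ ^ (i + 1) = τ * (y * τ ^ i) := by ring
    rw [h6] at h4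
    have h7 := mul_le_mul_of_nonneg_left h3.2 (by linarith : 0 ≤ τ)
    have h8 := mul_le_mul_of_nonneg_left h3.1 (by linarith : 0 ≤ τ)
    have h12 : τ * ε ≤ M2 * ε := mul_le_mul_of_nonneg_right hτ2 hε0.le
    rw [hv, abs_le, ← hεM]
    constructor
    · simp only
      linarith
    · simp only
      linarith
  have hv0 := hσ (τ - 1) (by linarith) (by linarith)
  have hv1 : ∀ i ≤ m, 4 * (δ / 8) ≤ v i ∧ v i ≤ 1 - 4 * (δ / 8) := by
    intro i hi
    have h3 := abs_le.1 (hvi i hi)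
    constructor
    · linarith [h3.1]
    · linarith [h3.2]
  have hv2 : ∀ i ≤ m, |v i - v m| ≤ δ / 8 := by
    intro i hi
    have h3 := abs_le.1 (hvi i hi)
    have h4 := abs_le.1 (hvi m le_rfl)
    rw [abs_le]
    constructor
    · linarith [h3.1, h4.2]
    · linarith [h3.2, h4.1]
  -- the interval
  obtain ⟨um, hum⟩ : ∃ um : ℝ, um = (q m : ℝ) + s := ⟨_, rfl⟩
  obtain ⟨un, hun⟩ : ∃ un : ℝ, un = (q (m + 1) : ℝ) + s := ⟨_, rfl⟩
  have hum0 : y / 2 ≤ um := by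
    rw [hum]
    exact hu m (by omega)
  have hun0 : y / 2 ≤ un := by
    rw [hun]
    exact hu (m + 1) (by omega)
  have hump : 0 < um := by linarith
  have hunp : 0 < un := by linarith
  have hxi : (1 + 3 * (M1 - 1) / 4) * um ≤ un := by
    rw [hum, hun]
    exact hstep m (by omega)
  obtain ⟨ta, hta⟩ : ∃ ta : ℝ, ta = τ + (2 * (δ / 8) - v m) / um := ⟨_, rfl⟩
  obtain ⟨tb, htb⟩ : ∃ tb : ℝ, tb = τ + (1 - 2 * (δ / 8) - v m) / um := ⟨_, rfl⟩
  have hta' : (ta - τ) * um = 2 * (δ / 8) - v m := by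
    rw [hta]
    field_simp
    ring
  have htb' : (tb - τ) * um = 1 - 2 * (δ / 8) - v m := by
    rw [htb]
    field_simp
    ring
  have hvm := hv1 m le_rfl
  have hrec : 1 / um ≤ 2 / y := by
    rw [div_le_div_iff₀ hump hy0]
    linarith
  have hta1 : -(2 / y) ≤ ta - τ := by
    have h3 : -(1 / um) ≤ ta - τ := by
      rw [hta]
      have : -(1 / um) = -1 / um := by ring
      rw [this, add_sub_cancel_left]
      exact div_le_div_of_nonneg_right (by linarith [hvm.2]) hump.le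
    linarith
  have htb1 : tb - τ ≤ 2 / y := by
    have h3 : tb - τ ≤ 1 / um := by
      rw [htb, add_sub_cancel_left]
      exact div_le_div_of_nonneg_right (by linarith [hvm.1]) hump.le
    linarith
  have hδ1 : δ ≤ 1 / 8 := by
    have h3 : 0 < β - σ * (τ - 1) := by linarith [hv0.1]
    nlinarith
  have hlen : 1 + (M1 - 1) / 2 ≤ (tb - ta) * un := by
    have h3 : (tb - ta) * um = 1 - 4 * (δ / 8) := by linarith
    have h4 : 0 ≤ tb - ta := by
      by_contra h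
      have h5 : (tb - ta) * um < 0 := mul_neg_of_neg_of_pos (not_le.1 h) hump
      linarith
    have h5 : (tb - ta) * ((1 + 3 * (M1 - 1) / 4) * um) ≤ (tb - ta) * un := mul_le_mul_of_nonneg_left hxi h4
    have h6 : (tb - ta) * ((1 + 3 * (M1 - 1) / 4) * um) = (1 + 3 * (M1 - 1) / 4) * (1 - 4 * (δ / 8)) := by
      rw [← h3]
      ring
    have h7 : (1 + 3 * (M1 - 1) / 4) * δ ≤ M2 * δ :=
      mul_le_mul_of_nonneg_right (by linarith) hδ0.le
    nlinarith
  obtain ⟨P', n, hP1, hP2, hP3, hP4⟩ := geo_even (P := ta * un - s + β) (Q := tb * un - s + β) (g := g) (ε := δ / 8)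
    (by nlinarith) hg0.le (by linarith) (by linarith)
  have hta2 : 1 ≤ ta := by
    have h3 : 2 / y ≤ M1 - 1 := by
      rw [div_le_iff₀ hy0]
      linarith
    linarith
  have hPbig : 6 ≤ ta * un - s + β := by
    have h3 : 1 * un ≤ ta * un := mul_le_mul_of_nonneg_right hta2 hunp.le
    have h4 := le_abs_self s
    linarith
  have hn5 : (4 : ℝ) < 2 * (n : ℝ) := by linarith
  have hn2 : (2 : ℤ) < n := by
    have : (2 : ℝ) < (n : ℝ) := by linarith
    exact_mod_cast this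
  obtain ⟨N, rfl⟩ : ∃ N : ℕ, n = (N : ℤ) := ⟨n.toNat, by omega⟩
  have hS : (((2 * N : ℕ)) : ℝ) = 2 * (((N : ℤ)) : ℝ) := by push_cast; ring
  refine ⟨q 0, ?_, (P' + s - β) / un, ?_, ?_⟩
  · have := (hq 0 (by omega)).2
    rw [pow_zero, mul_one] at this
    exact this
  · have h3 : (P' + s - β) / un * un = P' + s - β := div_mul_cancel₀ _ hunp.ne'
    have h4 : ta ≤ (P' + s - β) / un := by
      rw [le_div_iff₀ hunp]
      linarith
    have h5 : (P' + s - β) / un ≤ tb := by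
      rw [div_le_iff₀ hunp]
      linarith
    rw [abs_le]
    constructor
    · linarith
    · linarith
  · intro t ht
    obtain ⟨ht1, ht2⟩ := ht
    have h3 : P' + s - β ≤ t * un := (div_le_iff₀ hunp).1 ht1
    have h4 : t * un ≤ P' + s - β + g := by
      have h5 : t * un ≤ ((P' + s - β) / un + g / (2 * M2 ^ (m + 2)) / y) * un :=
        mul_le_mul_of_nonneg_right ht2 hunp.le
      have h6 : ((P' + s - β) / un + g / (2 * M2 ^ (m + 2)) / y) * un =
          P' + s - β + g * (un / (2 * M2 ^ (m + 2) * y)) := by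
        field_simp
      have h7 : un ≤ 2 * M2 ^ (m + 2) * y := by
        have h8 := (he (m + 1) (by omega)).2
        rw [← hun] at h8
        have h9 : τ ^ (m + 1) ≤ M2 ^ (m + 1) := pow_le_pow_left₀ (by linarith) hτ2 _
        have h10 : M2 ^ (m + 1) ≤ M2 ^ (m + 2) := pow_le_pow_right₀ hM2.le (by omega)
        have h11 : y * τ ^ (m + 1) ≤ y * M2 ^ (m + 2) := mul_le_mul_of_nonneg_left (h9.trans h10) hy0.le
        have h12 : y * 1 ≤ y * M2 ^ (m + 2) := mul_le_mul_of_nonneg_left (one_le_pow₀ hM2.le) hy0.le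
        linarith [hσ'.1]
      have h8 : un / (2 * M2 ^ (m + 2) * y) ≤ 1 := (div_le_one (by positivity)).2 h7
      have h9 : g * (un / (2 * M2 ^ (m + 2) * y)) ≤ g * 1 := mul_le_mul_of_nonneg_left h8 hg0.le
      linarith
    have h5 : ta ≤ t := by
      by_contra h
      have := mul_lt_mul_of_pos_right (not_le.1 h) hunp
      linarith
    have h6 : t ≤ tb := by
      by_contra h
      have := mul_lt_mul_of_pos_right (not_le.1 h) hunp
      linarith
    have h7 : (ta - τ) * um ≤ (t - τ) * um := mul_le_mul_of_nonneg_right (by linarith) hump.le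
    have h8 : (t - τ) * um ≤ (tb - τ) * um := mul_le_mul_of_nonneg_right (by linarith) hump.le
    refine geo_core (v := v) (τ := τ) (S := 2 * N) (by linarith) (fun i hi => (hq i hi).1)
      (fun i hi => by linarith [hu i hi]) hmono (fun i _ => by rw [hv]; ring) hv1 hv2 ?_ ?_ (even_two_mul N)
      (by omega) ?_ ?_
    · rw [← hum]
      linarith
    · rw [← hum]
      linarith
    · rw [← hun, hS]
      linarith
    · rw [← hun, hS]
      linarith

end GPM
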