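import Pool.Agent.GPM.Main

/-!
# GPM.Loc: the same with the constant term `ga (m d) b β u`, and at the scales `e^N`

PROOF. `ε1 = ε1(main_g)/2`. For `b`, `β` take `s = b/(e^u0 - 1)` in `main_g`. `ga (m d) b β u - (s (e^(m d u) - 1) + β) = b (e^(m d u) - 1) (1/(e^u - 1) - 1/(e^u0 - 1))` tends to `0` as `u → u0`, so for
`|u - u0| ≤ ρ0` (`ρ0` small, for all `d ≤ n`) it is at most `ε1` in absolute value and `Rob (2 ε1) (s (..) + β) τ k p` implies `Rob ε1 (ga ..) τ k p` (`rob_mono` with `ε - δ`, `δ = ε1`); so `cR` of the statement is at least the one of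
`main_g`. `w = N - C`: `e^w/w^k ≥ e^(-C) e^N/N^k` for large `N`; `c1 = c1' e^(-C)`.
-/

namespace GPM

open MeasureTheory Filter SMC

private theorem loc_cR {ε γ γ' τ : ℝ} {k : ℕ} {Y : ℝ} (h : |γ' - γ| ≤ ε / 2) (hε : 0 < ε) :
    cR ε γ τ k Y ≤ cR (ε / 2) γ' τ k Y := by
  classical
  unfold cR
  refine Finset.card_le_card fun p hp => ?_
  rw [Finset.mem_filter] at hp ⊢
  refine ⟨hp.1, ?_⟩
  have h1 := rob_mono h (by linarith) hp.2
  have h2 : ε - ε / 2 = ε / 2 := by ring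
  rwa [h2] at h1

private theorem loc_near {u0 : ℝ} (hu : 0 < u0) (b β : ℝ) {ε : ℝ} (hε : 0 < ε) (m n : ℕ) :
    ∃ ρ : ℝ, 0 < ρ ∧ ∀ u : ℝ, |u - u0| ≤ ρ → ∀ d ≤ n,
      |ga (m * d) b β u - (b / (Real.exp u0 - 1) * (Real.exp (((m * d : ℕ) : ℝ) * u) - 1) + β)| ≤ ε := by
  have h0 : Real.exp u0 - 1 ≠ 0 := by
    have := Real.add_one_lt_exp hu.ne'
    linarith
  have key : ∀ d : ℕ, ∀ᶠ u in nhds u0,
      |ga (m * d) b β u - (b / (Real.exp u0 - 1) * (Real.exp (((m * d : ℕ) : ℝ) * u) - 1) + β)| < ε := by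
    intro d
    have hc : ContinuousAt (fun u : ℝ => |ga (m * d) b β u -
        (b / (Real.exp u0 - 1) * (Real.exp (((m * d : ℕ) : ℝ) * u) - 1) + β)|) u0 := by
      unfold ga
      refine ContinuousAt.abs (ContinuousAt.sub (ContinuousAt.add (continuousAt_const.mul
        (ContinuousAt.div ?_ ?_ h0)) continuousAt_const) ?_)
      · fun_prop
      · fun_prop
      · fun_prop
    have hz : |ga (m * d) b β u0 -
        (b / (Real.exp u0 - 1) * (Real.exp (((m * d : ℕ) : ℝ) * u0) - 1) + β)| < ε := by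
      have : ga (m * d) b β u0 -
        (b / (Real.exp u0 - 1) * (Real.exp (((m * d : ℕ) : ℝ) * u0) - 1) + β) = 0 := by
        unfold ga
        ring
      rw [this, abs_zero]
      exact hε
    exact hc.eventually_lt continuousAt_const hz
  have key2 : ∀ᶠ u in nhds u0, ∀ d ∈ Finset.range (n + 1),
      |ga (m * d) b β u - (b / (Real.exp u0 - 1) * (Real.exp (((m * d : ℕ) : ℝ) * u) - 1) + β)| < ε :=
    (Filter.eventually_all_finset _).2 fun d _ => key d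
  obtain ⟨ρ, hρ, h1⟩ := Metric.nhds_basis_closedBall.eventually_iff.1 key2
  refine ⟨ρ, hρ, fun u hu1 d hd => (h1 (by rwa [Metric.mem_closedBall, Real.dist_eq]) d
    (Finset.mem_range.2 (by omega))).le⟩

theorem loc_g {k n : ℕ} (hk : 2 ≤ k) (hn : 1 ≤ n) (hB : BB k n) {u0 : ℝ} (hu : 0 < u0) {m : ℕ} (hm : 1 ≤ m) :
    ∃ ε1 : ℝ, 0 < ε1 ∧ ∀ b β : ℝ, 0 ≤ β → β ≤ 1 → ∃ c1 c2 ρ0 : ℝ, 0 < c1 ∧ 0 < c2 ∧ 0 < ρ0 ∧
      ∀ ρ : ℝ, 0 < ρ → ρ ≤ ρ0 → ∀ᶠ N : ℕ in atTop, ∃ d : ℕ, 1 ≤ d ∧ d ≤ n ∧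
        ENNReal.ofReal (c2 * ρ) ≤ volume {u : ℝ | u ∈ Set.Icc (u0 - ρ) (u0 + ρ) ∧
          c1 * (Real.exp N / (N : ℝ) ^ k) ≤ (cR ε1 (ga (m * d) b β u)
            (Real.exp (((m * d : ℕ) : ℝ) * u)) k (Real.exp N) : ℝ)} := by
  obtain ⟨ε, hε, H⟩ := main_g hk hn hB hu hm
  refine ⟨ε / 2, by linarith, fun b β hβ hβ1 => ?_⟩
  obtain ⟨c1, c2, C, ρ0, hc1, hc2, hC, hρ0, H2⟩ := H (b / (Real.exp u0 - 1)) β hβ hβ1
  obtain ⟨ρ1, hρ1, H3⟩ := loc_near hu b β (half_pos hε) m n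
  refine ⟨c1 * Real.exp (-C), c2, min ρ0 ρ1, by positivity, hc2, lt_min hρ0 hρ1, fun ρ hρ hρ2 => ?_⟩
  have H4 := H2 ρ hρ (hρ2.trans (min_le_left _ _))
  have ht : Tendsto (fun N : ℕ => (N : ℝ) - C) atTop atTop :=
    tendsto_atTop_add_const_right _ _ tendsto_natCast_atTop_atTop
  have H5 := ht.eventually H4
  filter_upwards [H5, ht.eventually_gt_atTop 0] with N hN hN0
  obtain ⟨d, hd1, hd2, hv⟩ := hN
  refine ⟨d, hd1, hd2, hv.trans (measure_mono ?_)⟩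
  rintro u ⟨hu1, hu2⟩
  refine ⟨hu1, ?_⟩
  have h1 : |u - u0| ≤ ρ1 := by
    rw [abs_le]
    have := hρ2.trans (min_le_right _ _)
    constructor
    · linarith [hu1.1]
    · linarith [hu1.2]
  have h2 := loc_cR (τ := Real.exp (((m * d : ℕ) : ℝ) * u)) (k := k) (Y := Real.exp N) (H3 u h1 d hd2) hε
  have h3 : (N : ℝ) - C + C = N := by ring
  rw [h3] at hu2
  refine le_trans ?_ (hu2.trans (by exact_mod_cast h2))
  have h4 : (N : ℝ) - C ≤ N := by linarith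
  have h5 : ((N : ℝ) - C) ^ k ≤ (N : ℝ) ^ k := pow_le_pow_left₀ hN0.le h4 k
  have h6 : (0 : ℝ) < ((N : ℝ) - C) ^ k := pow_pos hN0 k
  have h7 : Real.exp ((N : ℝ) - C) = Real.exp N * Real.exp (-C) := by
    rw [← Real.exp_add]
    ring_nf
  rw [h7, mul_assoc]
  refine mul_le_mul_of_nonneg_left ?_ hc1.le
  have h8 : Real.exp (-C) * (Real.exp N / (N : ℝ) ^ k) = (Real.exp N * Real.exp (-C)) / (N : ℝ) ^ k := by ring
  rw [h8]
  exact div_le_div_of_nonneg_left (by positivity) h6 h5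

end GPM
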