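import Mathlib

/-!
# GPM.LogDen: positive logarithmic density of the good multipliers

PROOF. Let `S = {t | 0 < t < T, G (e^t)}`. For almost every `x` in `(0, T/n)` there is `1 ≤ j ≤ n` with `G (e^(j x))`,
`j x < T`, so `j x ∈ S`. The outer measure of `{x | j x ∈ S}` is `volume S/j ≤ volume S`. So `T/n ≤ n * volume S`.
`exp_ae`: almost every statement in `α > 1` is one for `α = e^x`, `x > 0`.
-/

namespace GPM

open MeasureTheory Filter

theorem exp_ae {P : ℝ → Prop} (h : ∀ᵐ α : ℝ, 1 < α → P α) : ∀ᵐ x : ℝ, 0 < x → P (Real.exp x) := by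
  rw [ae_iff] at h ⊢
  have h1 : {x : ℝ | ¬ (0 < x → P (Real.exp x))} ⊆ Real.log '' ({α : ℝ | ¬ (1 < α → P α)} ∩ Set.Ioi 1) := by
    intro x hx
    simp only [Set.mem_ofPred_eq, Classical.not_imp] at hx
    have h2 : 1 < Real.exp x := Real.one_lt_exp_iff.2 hx.1
    refine ⟨Real.exp x, ⟨?_, h2⟩, Real.log_exp x⟩
    simp only [Set.mem_ofPred_eq, Classical.not_imp]
    exact ⟨h2, hx.2⟩
  refine measure_mono_null h1 ?_
  refine addHaar_image_eq_zero_of_differentiableOn_of_addHaar_eq_zero volume ?_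
    (measure_mono_null Set.inter_subset_left h)
  intro t ht
  have ht1 : (1 : ℝ) < t := ht.2
  exact (Real.differentiableAt_log (by linarith)).differentiableWithinAt

theorem log_den {G : ℝ → Prop} {n : ℕ} (hn : 1 ≤ n)
    (h : ∀ᵐ α : ℝ, 1 < α → ∃ j : ℕ, 0 < j ∧ j ≤ n ∧ G (α ^ j)) {T : ℝ} (hT : 0 < T) :
    ENNReal.ofReal (T / (n : ℝ) ^ 2) ≤ volume {t : ℝ | 0 < t ∧ t < T ∧ G (Real.exp t)} := by
  set S : Set ℝ := {t : ℝ | 0 < t ∧ t < T ∧ G (Real.exp t)} with hS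
  have hn' : (1 : ℝ) ≤ n := by exact_mod_cast hn
  have hn0 : (0 : ℝ) < n := by linarith
  have h1 := exp_ae h
  rw [ae_iff] at h1
  have h2 : Set.Ioo (0 : ℝ) (T / n) ⊆ {x : ℝ | ¬ (0 < x → ∃ j : ℕ, 0 < j ∧ j ≤ n ∧ G (Real.exp x ^ j))} ∪
      ⋃ j ∈ Finset.Icc 1 n, (fun x : ℝ => (j : ℝ) * x) ⁻¹' S := by
    intro x hx
    by_cases hG : ∃ j : ℕ, 0 < j ∧ j ≤ n ∧ G (Real.exp x ^ j)
    · right
      obtain ⟨j, hj0, hjn, hj⟩ := hG
      have hj1 : (0 : ℝ) < j := by exact_mod_cast hj0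
      have hj2 : (j : ℝ) ≤ n := by exact_mod_cast hjn
      rw [Set.mem_iUnion₂]
      refine ⟨j, Finset.mem_Icc.2 ⟨hj0, hjn⟩, ?_⟩
      rw [Set.mem_preimage, hS, Set.mem_ofPred_eq]
      refine ⟨mul_pos hj1 hx.1, ?_, ?_⟩
      · calc (j : ℝ) * x ≤ n * x := mul_le_mul_of_nonneg_right hj2 hx.1.le
          _ < n * (T / n) := mul_lt_mul_of_pos_left hx.2 hn0
          _ = T := by field_simp
      · rw [Real.exp_nat_mul]
        exact hj
    · left
      simp only [Set.mem_ofPred_eq, Classical.not_imp]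
      exact ⟨hx.1, hG⟩
  have h3 : ∀ j ∈ Finset.Icc 1 n, volume ((fun x : ℝ => (j : ℝ) * x) ⁻¹' S) ≤ volume S := by
    intro j hj
    rw [Finset.mem_Icc] at hj
    have hj1 : (1 : ℝ) ≤ j := by exact_mod_cast hj.1
    have hj0 : (j : ℝ) ≠ 0 := by linarith
    rw [Real.volume_preimage_mul_left hj0]
    calc ENNReal.ofReal |(j : ℝ)⁻¹| * volume S ≤ 1 * volume S := by
          refine mul_le_mul_left ?_ _
          rw [← ENNReal.ofReal_one]
          refine ENNReal.ofReal_le_ofReal ?_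
          rw [abs_of_pos (by positivity)]
          exact inv_le_one_of_one_le₀ hj1
      _ = volume S := one_mul _
  have h4 : volume (Set.Ioo (0 : ℝ) (T / n)) ≤ n * volume S := by
    calc volume (Set.Ioo (0 : ℝ) (T / n)) ≤
          volume ({x : ℝ | ¬ (0 < x → ∃ j : ℕ, 0 < j ∧ j ≤ n ∧ G (Real.exp x ^ j))} ∪
            ⋃ j ∈ Finset.Icc 1 n, (fun x : ℝ => (j : ℝ) * x) ⁻¹' S) := measure_mono h2
      _ ≤ volume {x : ℝ | ¬ (0 < x → ∃ j : ℕ, 0 < j ∧ j ≤ n ∧ G (Real.exp x ^ j))} +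
            volume (⋃ j ∈ Finset.Icc 1 n, (fun x : ℝ => (j : ℝ) * x) ⁻¹' S) := measure_union_le _ _
      _ ≤ 0 + ∑ j ∈ Finset.Icc 1 n, volume ((fun x : ℝ => (j : ℝ) * x) ⁻¹' S) := by
          refine add_le_add (le_of_eq h1) (measure_biUnion_finset_le _ _)
      _ ≤ 0 + ∑ _j ∈ Finset.Icc 1 n, volume S := add_le_add le_rfl (Finset.sum_le_sum h3)
      _ = n * volume S := by
          rw [zero_add, Finset.sum_const, Nat.card_Icc, nsmul_eq_mul]
          norm_num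
  rw [Real.volume_Ioo, sub_zero] at h4
  have h5 : ENNReal.ofReal (T / (n : ℝ) ^ 2) = ENNReal.ofReal (T / n) / n := by
    rw [← ENNReal.ofReal_natCast, ← ENNReal.ofReal_div_of_pos hn0]
    congr 1
    field_simp
  rw [h5]
  refine ENNReal.div_le_of_le_mul ?_
  rw [mul_comm]
  exact h4

end GPM
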