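import Mathlib

/-!
# GPM.PZ: the Paley-Zygmund inequality

PROOF. `E = {u ∈ S | θ ≤ G u}`. `∫_S G = ∫_E G + ∫_{S - E} G ≤ ∫_E G + θ V ≤ ∫_E G + A/2`, so `∫_E G ≥ A/2`. Cauchy-Schwarz (`ENNReal.lintegral_mul_le_Lp_mul_Lq` with `p = q = 2`, or see
`MainQ_cs` in `Pool/Agent/SMC/MainQ.lean`): `(∫_E G)² ≤ vol E · ∫_E G² ≤ vol E · B`.
-/

namespace GPM

open MeasureTheory

theorem pz {S : Set ℝ} (hS : MeasurableSet S) {G : ℝ → ENNReal} (hG : Measurable G) {A B θ V : ℝ} (hA : 0 < A)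
    (hB : 0 < B) (hθ : 0 ≤ θ) (hV0 : 0 ≤ V) (hV : volume S ≤ ENNReal.ofReal V) (hθV : θ * V ≤ A / 2)
    (h1 : ENNReal.ofReal A ≤ ∫⁻ u in S, G u) (h2 : ∫⁻ u in S, G u ^ 2 ≤ ENNReal.ofReal B) :
    ENNReal.ofReal (A ^ 2 / (4 * B)) ≤ volume {u : ℝ | u ∈ S ∧ ENNReal.ofReal θ ≤ G u} := by
  set E : Set ℝ := {u : ℝ | u ∈ S ∧ ENNReal.ofReal θ ≤ G u} with hE
  have hEm : MeasurableSet E := hS.inter (measurableSet_le measurable_const hG)
  have hES : E ⊆ S := fun u hu => hu.1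
  have hsplit : ∫⁻ u in S, G u ≤ (∫⁻ u in E, G u) + ∫⁻ u in S \ E, G u := by
    calc ∫⁻ u in S, G u = ∫⁻ u in E ∪ (S \ E), G u := by rw [Set.union_sdiff_cancel hES]
      _ ≤ (∫⁻ u in E, G u) + ∫⁻ u in S \ E, G u := lintegral_union_le _ _ _
  have hrest : ∫⁻ u in S \ E, G u ≤ ENNReal.ofReal (A / 2) := by
    calc ∫⁻ u in S \ E, G u ≤ ∫⁻ _u in S \ E, ENNReal.ofReal θ := by
          refine setLIntegral_mono' (hS.diff hEm) ?_
          intro u hu
          have h3 : ¬ (u ∈ S ∧ ENNReal.ofReal θ ≤ G u) := hu.2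
          exact (not_le.1 fun h4 => h3 ⟨hu.1, h4⟩).le
      _ = ENNReal.ofReal θ * volume (S \ E) := setLIntegral_const _ _
      _ ≤ ENNReal.ofReal θ * ENNReal.ofReal V := by
          gcongr
          exact (measure_mono Set.sdiff_subset).trans hV
      _ = ENNReal.ofReal (θ * V) := (ENNReal.ofReal_mul hθ).symm
      _ ≤ ENNReal.ofReal (A / 2) := ENNReal.ofReal_le_ofReal hθV
  have hhalf : ENNReal.ofReal (A / 2) ≤ ∫⁻ u in E, G u := by
    have h3 : ENNReal.ofReal (A / 2) + ENNReal.ofReal (A / 2)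
        ≤ (∫⁻ u in E, G u) + ENNReal.ofReal (A / 2) := by
      calc ENNReal.ofReal (A / 2) + ENNReal.ofReal (A / 2) = ENNReal.ofReal A := by
            rw [← ENNReal.ofReal_add (by positivity) (by positivity)]
            congr 1
            ring
        _ ≤ ∫⁻ u in S, G u := h1
        _ ≤ (∫⁻ u in E, G u) + ∫⁻ u in S \ E, G u := hsplit
        _ ≤ (∫⁻ u in E, G u) + ENNReal.ofReal (A / 2) := by gcongr
    exact (ENNReal.add_le_add_iff_right ENNReal.ofReal_ne_top).1 h3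
  have hcs : (∫⁻ u in E, G u) ^ 2 ≤ volume E * ENNReal.ofReal B := by
    have h3 := ENNReal.lintegral_mul_le_Lp_mul_Lq (volume.restrict E) Real.HolderConjugate.two_two
      (f := fun _ => (1 : ENNReal)) (g := G) aemeasurable_const hG.aemeasurable
    have h4 : ∫⁻ u in E, ((fun _ : ℝ => (1 : ENNReal)) * G) u = ∫⁻ u in E, G u := by
      simp
    rw [h4] at h3
    have h5 : (∫⁻ u in E, G u) ^ 2
        ≤ ((∫⁻ _u in E, ((1 : ENNReal)) ^ (2 : ℝ)) ^ (1 / 2 : ℝ)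
          * (∫⁻ u in E, G u ^ (2 : ℝ)) ^ (1 / 2 : ℝ)) ^ 2 := by
      gcongr
    refine h5.trans ?_
    rw [mul_pow, ← ENNReal.rpow_natCast, ← ENNReal.rpow_natCast, ← ENNReal.rpow_mul, ← ENNReal.rpow_mul]
    norm_num
    gcongr
    exact (lintegral_mono_set hES).trans h2
  have hB0 : ENNReal.ofReal B ≠ 0 := by
    simpa using hB
  have hmul : ENNReal.ofReal (A ^ 2 / (4 * B)) * ENNReal.ofReal B ≤ volume E * ENNReal.ofReal B := by
    calc ENNReal.ofReal (A ^ 2 / (4 * B)) * ENNReal.ofReal B = ENNReal.ofReal (A / 2) ^ 2 := by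
          rw [← ENNReal.ofReal_mul (by positivity), ← ENNReal.ofReal_pow (by positivity)]
          congr 1
          field_simp
          ring
      _ ≤ (∫⁻ u in E, G u) ^ 2 := by gcongr
      _ ≤ volume E * ENNReal.ofReal B := hcs
  exact (ENNReal.mul_le_mul_iff_left hB0 ENNReal.ofReal_ne_top).1 hmul

end GPM
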