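import Pool.Agent.GPM.Pair
import Pool.Agent.SMC.CardNE
import Pool.Agent.Lib.PNT

/-!
# GPM.SecM: the second moment

PROOF. As `Pool/Agent/SMD/SecM4.lean` (copy its private lemmas; simpler here) with `pair_g` (`η = 1/(40(K+1)²)`, `κ1 = 1/8`, `κ2 = 8`) instead of `pair6`: `X = e^w`,
`NG a g w t = ∑_{m∈S} 1[t ∈ E_m]`, `S` = the primes `m` with `|log m - w| ≤ 2` (`e^2 ≤ 8`), `E_m` = the `t` for which all `nm a g m i t` are primes;
`t ∈ E_m ∩ E_{m'}` iff `∀ i, (nn a g m m' i t).Prime` (`fin_add`, `nn_left`, `nn_right`). Pairs with `NE X η m m'`: `≤ C (u2-u1)/w^(2K)` each, at most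
`(#S)² ≤ (20 e^w/w)²` pairs (`#S ≤ π(e^(w+2)) ≤ 20 e^w/w` for large `w`: `Pool.Agent.Lib.PNT.pi_real`, `e^2 < 8`). The other pairs: measure `≤ u2-u1`, at most
`X^(2-η)` pairs (`SMC.card_ne`), `≤ X²/w^(2K+2)` for large `w`. `C` depends on `K` only.
-/

namespace GPM

open MeasureTheory Filter SMC

private def EG {K : ℕ} (a : ℕ) (g : Fin K → ℝ) (m : ℕ) : Set ℝ :=
  {t : ℝ | ∀ i : Fin K, (nm a g m i t).Prime}

private theorem EG_meas {K : ℕ} (a : ℕ) (g : Fin K → ℝ) (m : ℕ) : MeasurableSet (EG a g m) := by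
  have e : EG a g m = ⋂ i : Fin K, (nm a g m i) ⁻¹' {n : ℕ | n.Prime} := by
    ext t
    simp only [EG, Set.mem_ofPred_eq, Set.mem_iInter, Set.mem_preimage]
  rw [e]
  exact MeasurableSet.iInter fun i => nm_meas a g m i MeasurableSet.of_discrete

open Classical in
private noncomputable def SG (w : ℝ) : Finset ℕ :=
  (Finset.Icc 1 ⌊Real.exp (w + 2)⌋₊).filter fun m : ℕ => m.Prime ∧ |Real.log m - w| ≤ 2

open Classical in
private theorem NG_nat {K : ℕ} (a : ℕ) (g : Fin K → ℝ) (w t : ℝ) :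
    NG a g w t = ∑ m ∈ SG w, (if t ∈ EG a g m then 1 else 0) := by
  rw [← Finset.card_filter]
  unfold NG SG EG
  rw [Finset.filter_filter]
  congr 1
  ext m
  simp only [Finset.mem_filter, Set.mem_ofPred_eq, and_assoc]

private theorem NG_enn {K : ℕ} (a : ℕ) (g : Fin K → ℝ) (w t : ℝ) :
    (NG a g w t : ENNReal) = ∑ m ∈ SG w, (EG a g m).indicator (fun _ => (1 : ENNReal)) t := by
  rw [NG_nat, Nat.cast_sum]
  apply Finset.sum_congr rfl
  intro m _
  by_cases h : t ∈ EG a g m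
  · rw [if_pos h, Set.indicator_of_mem h, Nat.cast_one]
  · rw [if_neg h, Set.indicator_of_notMem h, Nat.cast_zero]

theorem NG_meas {K : ℕ} (a : ℕ) (g : Fin K → ℝ) (w : ℝ) : Measurable fun t : ℝ => (NG a g w t : ENNReal) := by
  simp_rw [NG_enn]
  exact Finset.measurable_fun_sum _ fun m _ => measurable_const.indicator (EG_meas a g m)

private theorem NG_sq {K : ℕ} (a : ℕ) (g : Fin K → ℝ) (w u1 u2 : ℝ) :
    ∫⁻ t in Set.Icc u1 u2, (NG a g w t : ENNReal) ^ 2 =
      ∑ p ∈ SG w ×ˢ SG w, volume (Set.Icc u1 u2 ∩ (EG a g p.1 ∩ EG a g p.2)) := by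
  have h1 : ∀ t : ℝ, (NG a g w t : ENNReal) ^ 2 =
      ∑ p ∈ SG w ×ˢ SG w, (EG a g p.1 ∩ EG a g p.2).indicator (fun _ => (1 : ENNReal)) t := by
    intro t
    rw [NG_enn, sq, Finset.sum_mul_sum, Finset.sum_product]
    apply Finset.sum_congr rfl
    intro m _
    apply Finset.sum_congr rfl
    intro m' _
    change _ = (EG a g m ∩ EG a g m').indicator (fun _ => (1 : ENNReal)) t
    by_cases h : t ∈ EG a g m
    · by_cases h' : t ∈ EG a g m'
      · have h3 : t ∈ EG a g m ∩ EG a g m' := ⟨h, h'⟩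
        rw [Set.indicator_of_mem h, Set.indicator_of_mem h', Set.indicator_of_mem h3, one_mul]
      · have h3 : t ∉ EG a g m ∩ EG a g m' := fun hh => h' hh.2
        rw [Set.indicator_of_notMem h', Set.indicator_of_notMem h3, mul_zero]
    · have h3 : t ∉ EG a g m ∩ EG a g m' := fun hh => h hh.1
      rw [Set.indicator_of_notMem h, Set.indicator_of_notMem h3, zero_mul]
  simp_rw [h1]
  rw [lintegral_finsetSum _ fun p _ =>
    measurable_const.indicator ((EG_meas a g p.1).inter (EG_meas a g p.2))]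
  apply Finset.sum_congr rfl
  intro p _
  rw [lintegral_indicator ((EG_meas a g p.1).inter (EG_meas a g p.2)), lintegral_const, one_mul,
    Measure.restrict_restrict ((EG_meas a g p.1).inter (EG_meas a g p.2)),
    Measure.restrict_apply MeasurableSet.univ, Set.univ_inter, Set.inter_comm]

private theorem exp_two : Real.exp 2 ≤ 8 := by
  have h := Real.exp_one_lt_d9
  have h1 : Real.exp 2 = Real.exp 1 ^ 2 := by
    rw [← Real.exp_nat_mul]
    norm_num
  rw [h1]
  have h2 := Real.exp_pos 1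
  nlinarith

private theorem card_limG :
    Tendsto (fun w : ℝ => (Nat.primeCounting ⌊Real.exp (w + 2)⌋₊ : ℝ) * w / Real.exp w) atTop
      (nhds (Real.exp 2)) := by
  have h1 : Tendsto (fun w : ℝ => Real.exp (w + 2)) atTop atTop :=
    Real.tendsto_exp_atTop.comp (tendsto_atTop_add_const_right _ 2 tendsto_id)
  have h2 := Pool.Agent.Lib.PNT.pi_real.comp h1
  have h3 : Tendsto (fun w : ℝ => w / (w + 2)) atTop (nhds 1) := by
    have h4 : Tendsto (fun w : ℝ => (2 : ℝ) / w + 1) atTop (nhds (0 + 1)) :=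
      (tendsto_const_nhds.div_atTop tendsto_id).add_const 1
    have h5 := h4.inv₀ (by norm_num)
    rw [zero_add, inv_one] at h5
    refine h5.congr' ?_
    filter_upwards [eventually_gt_atTop 0] with w hw
    rw [← one_div, div_add_one hw.ne', one_div_div]
    congr 1
    ring
  have h6 := (h2.mul h3).mul_const (Real.exp 2)
  rw [one_mul, one_mul] at h6
  refine h6.congr' ?_
  filter_upwards [eventually_gt_atTop (0 : ℝ)] with w hw
  have hw0 : 0 < w + 2 := by linarith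
  simp only [Function.comp]
  rw [Real.log_exp, Real.exp_add]
  have e1 := (Real.exp_pos w).ne'
  have e2 := (Real.exp_pos 2).ne'
  field_simp

private theorem card_SG : ∀ᶠ w : ℝ in atTop, ((SG w).card : ℝ) ≤ 20 * Real.exp w / w := by
  have hlt : Real.exp 2 < 20 := lt_of_le_of_lt exp_two (by norm_num)
  filter_upwards [card_limG.eventually_lt_const hlt, eventually_gt_atTop 0] with w hw hw0
  have hcard : ((SG w).card : ℝ) ≤ (Nat.primeCounting ⌊Real.exp (w + 2)⌋₊ : ℝ) := by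
    rw [← Nat.primesLE_card_eq_primeCounting]
    have hsub : SG w ⊆ Nat.primesLE ⌊Real.exp (w + 2)⌋₊ := by
      intro m hm
      unfold SG at hm
      rw [Finset.mem_filter, Finset.mem_Icc] at hm
      rw [Nat.mem_primesLE]
      exact ⟨hm.1.2, hm.2.1⟩
    exact_mod_cast Finset.card_le_card hsub
  have he := Real.exp_pos w
  rw [div_lt_iff₀ he] at hw
  rw [le_div_iff₀ hw0]
  nlinarith

theorem sec_g {K : ℕ} (hK : 1 ≤ K) : ∃ C : ℝ, 0 < C ∧ ∀ (a : ℕ) (u1 u2 : ℝ) (g : Fin K → ℝ), 1 ≤ a → 0 ≤ u1 →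
    u1 < u2 → ∀ᶠ w : ℝ in atTop,
      ∫⁻ t in Set.Icc u1 u2, (NG a g w t : ENNReal) ^ 2 ≤
        ENNReal.ofReal (C * (u2 - u1) * Real.exp (2 * w) / w ^ (2 * K + 2)) := by
  have hK0 : (1 : ℝ) ≤ (K : ℝ) := by exact_mod_cast hK
  set η : ℝ := 1 / (40 * ((K : ℝ) + 1) ^ 2) with hηd
  have hden : (0 : ℝ) < 40 * ((K : ℝ) + 1) ^ 2 := by positivity
  have hη : 0 < η := by rw [hηd]; positivity
  have hη1 : η * (40 * ((K : ℝ) + 1) ^ 2) ≤ 1 := by
    rw [hηd, one_div_mul_cancel hden.ne']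
  have hη2 : η ≤ 1 / 40 := by
    rw [hηd]
    apply one_div_le_one_div_of_le (by norm_num)
    nlinarith
  obtain ⟨C, hC, hpair⟩ := pair_g hK hη hη1
  refine ⟨C * 20 ^ 2 + 1, by positivity, ?_⟩
  intro a u1 u2 g ha hu1 hab
  obtain ⟨X0, hX0⟩ := hpair a u1 u2 (1 / 8) 8 g ha hu1 hab (by norm_num)
  obtain ⟨X1, hX1⟩ := card_ne (η := η) (κ2 := 8) hη hη2
  have hdec : Tendsto (fun w : ℝ => w ^ (2 * K + 2) * Real.exp (-η * w)) atTop (nhds 0) := by
    have := (isLittleO_pow_exp_pos_mul_atTop (2 * K + 2) hη).tendsto_div_nhds_zero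
    refine this.congr fun w => ?_
    rw [div_eq_mul_inv, ← Real.exp_neg]
    congr 2
    ring
  have hba : 0 < u2 - u1 := by linarith
  filter_upwards [card_SG, Real.tendsto_exp_atTop.eventually_ge_atTop X0,
    Real.tendsto_exp_atTop.eventually_ge_atTop X1, eventually_gt_atTop 0,
    hdec.eventually_lt_const (show (0 : ℝ) < 1 by norm_num)] with w hcard hw0 hw1 hw hd
  have hX := hX0 (Real.exp w) hw0
  have hNE := hX1 (Real.exp w) hw1
  rw [Real.log_exp] at hX
  have he2 := exp_two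
  -- bounds for the elements of `S`
  have hlow : ∀ m ∈ SG w, (1 / 8 : ℝ) * Real.exp w ≤ m := by
    intro m hm
    unfold SG at hm
    rw [Finset.mem_filter, Finset.mem_Icc] at hm
    obtain ⟨⟨hm1, hm2⟩, hp, hh⟩ := hm
    rw [abs_le] at hh
    have hm0 : (0 : ℝ) < m := by exact_mod_cast hm1
    have h3 : w ≤ Real.log m + 2 := by linarith [hh.1]
    have h4 := Real.exp_le_exp.mpr h3
    rw [Real.exp_add, Real.exp_log hm0] at h4
    nlinarith
  have hup : ∀ m ∈ SG w, (m : ℝ) ≤ 8 * Real.exp w := by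
    intro m hm
    unfold SG at hm
    rw [Finset.mem_filter, Finset.mem_Icc] at hm
    obtain ⟨⟨hm1, hm2⟩, hp, hh⟩ := hm
    rw [abs_le] at hh
    have hm0 : (0 : ℝ) < m := by exact_mod_cast hm1
    have h3 : Real.log m ≤ w + 2 := by linarith [hh.2]
    have h4 := Real.exp_le_exp.mpr h3
    rw [Real.exp_log hm0, Real.exp_add] at h4
    have h8 : Real.exp w * Real.exp 2 ≤ Real.exp w * 8 :=
      mul_le_mul_of_nonneg_left he2 (Real.exp_pos w).le
    linarith
  rw [NG_sq]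
  classical
  set P := SG w ×ˢ SG w with hP
  rw [← Finset.sum_filter_add_sum_filter_not P (fun x : ℕ × ℕ => MCC.NE (Real.exp w) η x.1 x.2)]
  have hS1 : ∑ p ∈ P.filter (fun x : ℕ × ℕ => MCC.NE (Real.exp w) η x.1 x.2),
      volume (Set.Icc u1 u2 ∩ (EG a g p.1 ∩ EG a g p.2)) ≤
      ENNReal.ofReal ((20 * Real.exp w / w) ^ 2 * (C * (u2 - u1) / w ^ (2 * K))) := by
    have h1 : ∀ p ∈ P.filter (fun x : ℕ × ℕ => MCC.NE (Real.exp w) η x.1 x.2),
        volume (Set.Icc u1 u2 ∩ (EG a g p.1 ∩ EG a g p.2)) ≤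
          ENNReal.ofReal (C * (u2 - u1) / w ^ (2 * K)) := by
      intro p hp
      rw [Finset.mem_filter, hP, Finset.mem_product] at hp
      obtain ⟨⟨hp1, hp2⟩, hne⟩ := hp
      refine le_trans (measure_mono ?_) (hX p.1 p.2 (hlow _ hp1) (hup _ hp1) (hlow _ hp2)
        (hup _ hp2) hne)
      rintro t ⟨ht1, ht2, ht3⟩
      refine ⟨ht1, fin_add.2 ⟨fun i => ?_, fun i => ?_⟩⟩
      · rw [nn_left]
        exact ht2 i
      · rw [nn_right]
        exact ht3 i
    refine (Finset.sum_le_sum h1).trans ?_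
    rw [Finset.sum_const, nsmul_eq_mul, ← ENNReal.ofReal_natCast,
      ← ENNReal.ofReal_mul (by positivity)]
    apply ENNReal.ofReal_le_ofReal
    apply mul_le_mul_of_nonneg_right _ (by positivity)
    have h2 : ((P.filter (fun x : ℕ × ℕ => MCC.NE (Real.exp w) η x.1 x.2)).card : ℝ) ≤
        (P.card : ℝ) := by exact_mod_cast Finset.card_filter_le _ _
    refine h2.trans ?_
    rw [hP, Finset.card_product, Nat.cast_mul, sq]
    exact mul_le_mul hcard hcard (by positivity) (le_trans (Nat.cast_nonneg _) hcard)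
  have hS2 : ∑ p ∈ P.filter (fun x : ℕ × ℕ => ¬ MCC.NE (Real.exp w) η x.1 x.2),
      volume (Set.Icc u1 u2 ∩ (EG a g p.1 ∩ EG a g p.2)) ≤
      ENNReal.ofReal (Real.exp w ^ (2 - η : ℝ) * (u2 - u1)) := by
    have h1 : ∀ p ∈ P.filter (fun x : ℕ × ℕ => ¬ MCC.NE (Real.exp w) η x.1 x.2),
        volume (Set.Icc u1 u2 ∩ (EG a g p.1 ∩ EG a g p.2)) ≤ ENNReal.ofReal (u2 - u1) := by
      intro p _
      refine le_trans (measure_mono Set.inter_subset_left) ?_
      rw [Real.volume_Icc]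
    refine (Finset.sum_le_sum h1).trans ?_
    rw [Finset.sum_const, nsmul_eq_mul, ← ENNReal.ofReal_natCast,
      ← ENNReal.ofReal_mul (by positivity)]
    apply ENNReal.ofReal_le_ofReal
    apply mul_le_mul_of_nonneg_right _ hba.le
    refine le_trans ?_ hNE
    have hsub : P.filter (fun x : ℕ × ℕ => ¬ MCC.NE (Real.exp w) η x.1 x.2) ⊆
        ((Finset.Icc 1 ⌊8 * Real.exp w⌋₊) ×ˢ (Finset.Icc 1 ⌊8 * Real.exp w⌋₊)).filter
          fun x : ℕ × ℕ => ¬ MCC.NE (Real.exp w) η x.1 x.2 := by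
      intro p hp
      rw [Finset.mem_filter, hP, Finset.mem_product] at hp
      rw [Finset.mem_filter, Finset.mem_product, Finset.mem_Icc, Finset.mem_Icc]
      have e1 : ∀ m ∈ SG w, 1 ≤ m := by
        intro m hm
        unfold SG at hm
        rw [Finset.mem_filter, Finset.mem_Icc] at hm
        exact hm.1.1
      exact ⟨⟨⟨e1 _ hp.1.1, Nat.le_floor (hup _ hp.1.1)⟩, e1 _ hp.1.2,
        Nat.le_floor (hup _ hp.1.2)⟩, hp.2⟩
    have h2 := Finset.card_le_card hsub
    have h3 : ((P.filter (fun x : ℕ × ℕ => ¬ MCC.NE (Real.exp w) η x.1 x.2)).card : ℝ) ≤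
        ((((Finset.Icc 1 ⌊8 * Real.exp w⌋₊) ×ˢ (Finset.Icc 1 ⌊8 * Real.exp w⌋₊)).filter
          fun x : ℕ × ℕ => ¬ MCC.NE (Real.exp w) η x.1 x.2).card : ℝ) := by
      exact_mod_cast h2
    refine h3.trans (le_of_eq ?_)
    congr
  refine (add_le_add hS1 hS2).trans ?_
  rw [← ENNReal.ofReal_add (by positivity) (by positivity)]
  apply ENNReal.ofReal_le_ofReal
  have e2 : Real.exp w ^ (2 - η : ℝ) = Real.exp (2 * w) * Real.exp (-η * w) := by
    rw [← Real.exp_mul, ← Real.exp_add]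
    congr 1
    ring
  have e3 : Real.exp (2 * w) = Real.exp w ^ 2 := by
    rw [← Real.exp_nat_mul]
    norm_num
  have e4 : Real.exp w ^ (2 - η : ℝ) ≤ Real.exp (2 * w) / w ^ (2 * K + 2) := by
    rw [e2, le_div_iff₀ (by positivity)]
    have := mul_le_mul_of_nonneg_left hd.le (Real.exp_pos (2 * w)).le
    calc Real.exp (2 * w) * Real.exp (-η * w) * w ^ (2 * K + 2)
        = Real.exp (2 * w) * (w ^ (2 * K + 2) * Real.exp (-η * w)) := by ring
      _ ≤ Real.exp (2 * w) * 1 := this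
      _ = Real.exp (2 * w) := by ring
  have e5 : Real.exp w ^ (2 - η : ℝ) * (u2 - u1) ≤
      Real.exp (2 * w) / w ^ (2 * K + 2) * (u2 - u1) := mul_le_mul_of_nonneg_right e4 hba.le
  have e6 : (20 * Real.exp w / w) ^ 2 * (C * (u2 - u1) / w ^ (2 * K)) =
      C * 20 ^ 2 * (u2 - u1) * Real.exp (2 * w) / w ^ (2 * K + 2) := by
    rw [e3, pow_add w (2 * K) 2]
    field_simp
  rw [e6]
  refine (add_le_add_right e5 _).trans (le_of_eq ?_)
  ring

end GPM
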