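import Pool.Agent.GPM.First
import Pool.Agent.GPM.SecM
import Pool.Agent.GPM.PZ

/-!
# GPM.Main: many multipliers with many chains, `s` fixed

PROOF. `K = k - 1 ≥ 1`. `ε1`, and for `s`, `β` the numbers `c`, `ρ1` from `first_m`; `ρ0 = min ρ1 (u0/2)`, `C = k n m u0 + 3`. `τ = e^(m d u) ≤ M = e^(2 m n u0)`, `γ = s (τ-1) + β`, `|γ| ≤ |s| M + 1 =: Γ`.
(1) `cW ε1 γ τ k w' ≤ ∑_h NG (m d) h w' u`, `h` in the finite set of the functions `Fin K → ℝ` with integer values in `[-R, R]`, `R = ⌈(Γ+2) M^(k+1) k⌉₊` or similar: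
for `p` counted by `cW` and `i < K` the prime `T^(i+1) p` differs from `τ^(i+1) p = e^(m d (i+1) u) p` by at most `(Γ+1)(1 + τ + .. + τ^i)` (induction: `|T x - τ x| ≤ Γ + 1` where `T x > 0`), so
`T^(i+1) p = ⌊τ^(i+1) p + h_i⌋₊` with the integer `h_i = T^(i+1) p - ⌊τ^(i+1) p⌋`.
(2) So on `S = Icc (u0-ρ) (u0+ρ)` with `G u = cW .. ≤ ∑_h NG`: `∫ G² ≤ H ∑_h ∫ NG² ≤ H² C2 2ρ e^(2w')/w'^(2K+2) ≤ C3 ρ e^(2w)/w^(2k)` (`H` the number of the `h`; `sec_g`, for all `d ≤ n` and all `h` (finitely many) and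
`w` large; `w ≤ w' ≤ w + C`).
(3) `∫ G ≥ A = c ρ e^w/w^k`; `pz` with `V = 2ρ`, `θ = c/4 · e^w/w^k`, `B = C3 ρ e^(2w)/w^(2k)`: measure `≥ c² ρ/(4 C3)`. `cW .. w' ≤ cR .. (e^(w+C))` (`cW_le`, `w' + 2 ≤ w + C`).
-/

namespace GPM

open MeasureTheory Filter SMC

/-- distance of the chain from the geometric progression -/
private theorem mn_dist {τ γ M Γ : ℝ} (hτ0 : 0 ≤ τ) (hτM : τ ≤ M) (hM : 1 ≤ M) (hγ : |γ| ≤ Γ) (p : ℕ) :
    ∀ i : ℕ, (∀ j < i, 0 < (T τ γ)^[j + 1] p) →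
      |(((T τ γ)^[i] p : ℕ) : ℝ) - τ ^ i * p| ≤ (Γ + 1) * i * M ^ i := by
  intro i
  induction i with
  | zero => intro _; simp
  | succ i ih =>
    intro h
    have ih' := ih (fun j hj => h j (by omega))
    have hp := h i (by omega)
    have hΓ : 0 ≤ Γ := (abs_nonneg γ).trans hγ
    rw [Function.iterate_succ_apply'] at hp ⊢
    set x : ℕ := (T τ γ)^[i] p with hx
    have h1 : |((T τ γ x : ℕ) : ℝ) - τ * x| ≤ Γ + 1 := by
      have e : T τ γ x = ⌊τ * (x : ℝ) + γ⌋₊ := rfl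
      rw [e] at hp ⊢
      have h0 : (1 : ℝ) ≤ τ * (x : ℝ) + γ := by
        have h00 := (Nat.le_floor_iff' (by norm_num)).1 (Nat.succ_le_of_lt hp)
        simpa using h00
      have h2 := Nat.floor_le (show (0 : ℝ) ≤ τ * (x : ℝ) + γ by linarith)
      have h3 := Nat.lt_floor_add_one (τ * (x : ℝ) + γ)
      have h4 := abs_le.1 hγ
      rw [abs_le]
      constructor
      · linarith [h4.1]
      · linarith [h4.2]
    have h5 : ((T τ γ x : ℕ) : ℝ) - τ ^ (i + 1) * p =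
        (((T τ γ x : ℕ) : ℝ) - τ * x) + τ * ((x : ℝ) - τ ^ i * p) := by ring
    rw [h5]
    have h6 : |τ * ((x : ℝ) - τ ^ i * p)| ≤ M * ((Γ + 1) * i * M ^ i) := by
      rw [abs_mul, abs_of_nonneg hτ0]
      exact mul_le_mul hτM ih' (abs_nonneg _) (by linarith)
    have h7 : (1 : ℝ) ≤ M ^ (i + 1) := one_le_pow₀ hM
    refine (abs_add_le _ _).trans ((add_le_add h1 h6).trans ?_)
    have h8 : (Γ + 1) * ((i + 1 : ℕ) : ℝ) * M ^ (i + 1) =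
        (Γ + 1) * M ^ (i + 1) + M * ((Γ + 1) * i * M ^ i) := by
      push_cast
      ring
    rw [h8]
    have h9 : (Γ + 1) * 1 ≤ (Γ + 1) * M ^ (i + 1) := mul_le_mul_of_nonneg_left h7 (by linarith)
    linarith

/-- the finite set of the shifts -/
private noncomputable def mnH (K R : ℕ) : Finset (Fin K → ℤ) :=
  Fintype.piFinset (fun _ : Fin K => Finset.Icc (-(R : ℤ)) (R : ℤ))

private theorem mn_cover {a K R : ℕ} {ε γ M Γ u w : ℝ} (hM : 1 ≤ M)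
    (hτM : Real.exp ((a : ℝ) * u) ≤ M) (hγ : |γ| ≤ Γ)
    (hR : (Γ + 1) * ((K + 1 : ℕ) : ℝ) * M ^ (K + 1) + 1 ≤ R) :
    cW ε γ (Real.exp ((a : ℝ) * u)) (K + 1) w ≤ ∑ h ∈ mnH K R, NG a (fun i => (h i : ℝ)) w u := by
  classical
  have hΓ : 0 ≤ Γ := (abs_nonneg γ).trans hγ
  unfold cW NG
  refine le_trans (Finset.card_le_card ?_) Finset.card_biUnion_le
  intro p hp
  rw [Finset.mem_filter] at hp
  obtain ⟨hp1, hp2, q1, q2, -, -⟩ := hp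
  have hdist : ∀ i : Fin K, |(((T (Real.exp ((a : ℝ) * u)) γ)^[(i : ℕ) + 1] p : ℕ) : ℝ) -
      Real.exp ((a : ℝ) * u) ^ ((i : ℕ) + 1) * p| ≤ (Γ + 1) * ((K + 1 : ℕ) : ℝ) * M ^ (K + 1) := by
    intro i
    have h1 := mn_dist (Real.exp_pos ((a : ℝ) * u)).le hτM hM hγ p ((i : ℕ) + 1)
      (fun j hj => (q1 (j + 1) (by have := i.isLt; omega)).pos)
    refine h1.trans ?_
    have h2 : (((i : ℕ) + 1 : ℕ) : ℝ) ≤ ((K + 1 : ℕ) : ℝ) := by
      exact_mod_cast (by have := i.isLt; omega : (i : ℕ) + 1 ≤ K + 1)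
    have h3 : M ^ ((i : ℕ) + 1) ≤ M ^ (K + 1) := pow_le_pow_right₀ hM (by have := i.isLt; omega)
    exact mul_le_mul (mul_le_mul_of_nonneg_left h2 (by linarith)) h3 (by positivity) (by positivity)
  rw [Finset.mem_biUnion]
  refine ⟨fun i => (((T (Real.exp ((a : ℝ) * u)) γ)^[(i : ℕ) + 1] p : ℕ) : ℤ) -
    ⌊Real.exp ((a : ℝ) * u) ^ ((i : ℕ) + 1) * (p : ℝ)⌋, ?_, ?_⟩
  · unfold mnH
    rw [Fintype.mem_piFinset]
    intro i
    have h1 := abs_le.1 (hdist i)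
    have h2 := Int.floor_le (Real.exp ((a : ℝ) * u) ^ ((i : ℕ) + 1) * (p : ℝ))
    have h3 := Int.lt_floor_add_one (Real.exp ((a : ℝ) * u) ^ ((i : ℕ) + 1) * (p : ℝ))
    rw [Finset.mem_Icc]
    constructor
    · have h4 : (((-(R : ℤ) : ℤ)) : ℝ) ≤ (((((T (Real.exp ((a : ℝ) * u)) γ)^[(i : ℕ) + 1] p : ℕ) : ℤ) -
          ⌊Real.exp ((a : ℝ) * u) ^ ((i : ℕ) + 1) * (p : ℝ)⌋ : ℤ) : ℝ) := by
        push_cast
        linarith [h1.1]
      exact_mod_cast h4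
    · have h4 : (((((T (Real.exp ((a : ℝ) * u)) γ)^[(i : ℕ) + 1] p : ℕ) : ℤ) -
          ⌊Real.exp ((a : ℝ) * u) ^ ((i : ℕ) + 1) * (p : ℝ)⌋ : ℤ) : ℝ) ≤ ((R : ℤ) : ℝ) := by
        push_cast
        linarith [h1.2]
      exact_mod_cast h4
  · rw [Finset.mem_filter]
    refine ⟨hp1, q1 0 (by omega), hp2, fun i => ?_⟩
    have h0 := q1 ((i : ℕ) + 1) (by have := i.isLt; omega)
    have h1 : nm a (fun i : Fin K => (((((T (Real.exp ((a : ℝ) * u)) γ)^[(i : ℕ) + 1] p : ℕ) : ℤ) -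
        ⌊Real.exp ((a : ℝ) * u) ^ ((i : ℕ) + 1) * (p : ℝ)⌋ : ℤ) : ℝ)) p i u =
        (T (Real.exp ((a : ℝ) * u)) γ)^[(i : ℕ) + 1] p := by
      unfold nm
      have e : Real.exp ((a : ℝ) * (((i : ℕ) : ℝ) + 1) * u) = Real.exp ((a : ℝ) * u) ^ ((i : ℕ) + 1) := by
        rw [← Real.exp_nat_mul]
        congr 1
        push_cast
        ring
      rw [e]
      have h2 := Int.floor_le (Real.exp ((a : ℝ) * u) ^ ((i : ℕ) + 1) * (p : ℝ))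
      have h3 := Int.lt_floor_add_one (Real.exp ((a : ℝ) * u) ^ ((i : ℕ) + 1) * (p : ℝ))
      push_cast
      have h5 : (((T (Real.exp ((a : ℝ) * u)) γ)^[(i : ℕ) + 1] p : ℕ) : ℝ) ≤
          Real.exp ((a : ℝ) * u) ^ ((i : ℕ) + 1) * (p : ℝ) +
            ((((T (Real.exp ((a : ℝ) * u)) γ)^[(i : ℕ) + 1] p : ℕ) : ℝ) -
              (⌊Real.exp ((a : ℝ) * u) ^ ((i : ℕ) + 1) * (p : ℝ)⌋ : ℝ)) := by linarith
      exact (Nat.floor_eq_iff (le_trans (Nat.cast_nonneg _) h5)).2 ⟨h5, by linarith⟩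
    rw [h1]
    exact h0

/-- the second moment of `cW` -/
private theorem mn_sq {a K R : ℕ} {ε s β M Γ w u1 u2 B : ℝ} (hM : 1 ≤ M) (hu : 0 ≤ u1)
    (hτM : Real.exp ((a : ℝ) * u2) ≤ M) (hβ0 : 0 ≤ β) (hβ1 : β ≤ 1) (hΓ : |s| * M + 1 ≤ Γ)
    (hR : (Γ + 1) * ((K + 1 : ℕ) : ℝ) * M ^ (K + 1) + 1 ≤ R)
    (hb : ∀ h ∈ mnH K R, ∫⁻ t in Set.Icc u1 u2, (NG a (fun i => (h i : ℝ)) w t : ENNReal) ^ 2 ≤
      ENNReal.ofReal B) :
    ∫⁻ u in Set.Icc u1 u2, (cW ε (s * (Real.exp ((a : ℝ) * u) - 1) + β) (Real.exp ((a : ℝ) * u))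
      (K + 1) w : ENNReal) ^ 2 ≤ ENNReal.ofReal (((mnH K R).card : ℝ) ^ 2 * B) := by
  have hpt : ∀ u ∈ Set.Icc u1 u2, (cW ε (s * (Real.exp ((a : ℝ) * u) - 1) + β)
      (Real.exp ((a : ℝ) * u)) (K + 1) w : ENNReal) ^ 2 ≤ ((mnH K R).card : ENNReal) *
        ∑ h ∈ mnH K R, (NG a (fun i => (h i : ℝ)) w u : ENNReal) ^ 2 := by
    intro u hu'
    have h1 : Real.exp ((a : ℝ) * u) ≤ M :=
      le_trans (Real.exp_le_exp.2 (mul_le_mul_of_nonneg_left hu'.2 (Nat.cast_nonneg _))) hτM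
    have h1' : (1 : ℝ) ≤ Real.exp ((a : ℝ) * u) :=
      Real.one_le_exp (mul_nonneg (Nat.cast_nonneg _) (hu.trans hu'.1))
    have h2 : |s * (Real.exp ((a : ℝ) * u) - 1) + β| ≤ Γ := by
      refine (abs_add_le _ _).trans ?_
      rw [abs_mul, abs_of_nonneg (show (0 : ℝ) ≤ Real.exp ((a : ℝ) * u) - 1 by linarith),
        abs_of_nonneg hβ0]
      have h3 : |s| * (Real.exp ((a : ℝ) * u) - 1) ≤ |s| * M :=
        mul_le_mul_of_nonneg_left (by linarith) (abs_nonneg s)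
      linarith
    have h3 := mn_cover (ε := ε) (w := w) hM h1 h2 hR
    have h4 : (cW ε (s * (Real.exp ((a : ℝ) * u) - 1) + β) (Real.exp ((a : ℝ) * u)) (K + 1) w) ^ 2 ≤
        (mnH K R).card * ∑ h ∈ mnH K R, (NG a (fun i => (h i : ℝ)) w u) ^ 2 :=
      (Nat.pow_le_pow_left h3 2).trans sq_sum_le_card_mul_sum_sq
    exact_mod_cast h4
  have hmeas : ∀ h : Fin K → ℤ, Measurable fun t : ℝ => (NG a (fun i => (h i : ℝ)) w t : ENNReal) ^ 2 :=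
    fun h => (NG_meas a _ w).pow_const 2
  calc ∫⁻ u in Set.Icc u1 u2, (cW ε (s * (Real.exp ((a : ℝ) * u) - 1) + β)
      (Real.exp ((a : ℝ) * u)) (K + 1) w : ENNReal) ^ 2
      ≤ ∫⁻ u in Set.Icc u1 u2, ((mnH K R).card : ENNReal) *
        ∑ h ∈ mnH K R, (NG a (fun i => (h i : ℝ)) w u : ENNReal) ^ 2 :=
        setLIntegral_mono' measurableSet_Icc hpt
    _ = ((mnH K R).card : ENNReal) * ∑ h ∈ mnH K R,
        ∫⁻ u in Set.Icc u1 u2, (NG a (fun i => (h i : ℝ)) w u : ENNReal) ^ 2 := by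
        rw [lintegral_const_mul _ (Finset.measurable_fun_sum _ fun h _ => hmeas h),
          lintegral_finsetSum _ fun h _ => hmeas h]
    _ ≤ ((mnH K R).card : ENNReal) * ∑ h ∈ mnH K R, ENNReal.ofReal B :=
        mul_le_mul_right (Finset.sum_le_sum hb) _
    _ = ENNReal.ofReal (((mnH K R).card : ℝ) ^ 2 * B) := by
        rw [Finset.sum_const, nsmul_eq_mul, sq, ENNReal.ofReal_mul (by positivity),
          ENNReal.ofReal_mul (by positivity), ENNReal.ofReal_natCast, mul_assoc]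

theorem main_g {k n : ℕ} (hk : 2 ≤ k) (hn : 1 ≤ n) (hB : BB k n) {u0 : ℝ} (hu : 0 < u0) {m : ℕ} (hm : 1 ≤ m) :
    ∃ ε1 : ℝ, 0 < ε1 ∧ ∀ s β : ℝ, 0 ≤ β → β ≤ 1 → ∃ c1 c2 C ρ0 : ℝ, 0 < c1 ∧ 0 < c2 ∧ 0 < C ∧ 0 < ρ0 ∧
      ∀ ρ : ℝ, 0 < ρ → ρ ≤ ρ0 → ∀ᶠ w : ℝ in atTop, ∃ d : ℕ, 1 ≤ d ∧ d ≤ n ∧
        ENNReal.ofReal (c2 * ρ) ≤ volume {u : ℝ | u ∈ Set.Icc (u0 - ρ) (u0 + ρ) ∧
          c1 * (Real.exp w / w ^ k) ≤ (cR ε1 (s * (Real.exp (((m * d : ℕ) : ℝ) * u) - 1) + β)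
            (Real.exp (((m * d : ℕ) : ℝ) * u)) k (Real.exp (w + C)) : ℝ)} := by
  obtain ⟨K, rfl⟩ : ∃ K, k = K + 1 := ⟨k - 1, by omega⟩
  have hK : 1 ≤ K := by omega
  obtain ⟨ε1, hε1, hF⟩ := first_m hk hn hB hu hm
  obtain ⟨C2, hC2, hS2⟩ := sec_g hK
  refine ⟨ε1, hε1, ?_⟩
  intro s β hβ0 hβ1
  obtain ⟨c, ρ1, hc, hρ1, hF1⟩ := hF s β hβ0 hβ1
  obtain ⟨M, hMd⟩ : ∃ M : ℝ, M = Real.exp (((m * n : ℕ) : ℝ) * (2 * u0)) := ⟨_, rfl⟩
  have hM : 1 ≤ M := by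
    rw [hMd]
    exact Real.one_le_exp (by positivity)
  obtain ⟨R, hR⟩ : ∃ R : ℕ, ((|s| * M + 1) + 1) * ((K + 1 : ℕ) : ℝ) * M ^ (K + 1) + 1 ≤ R :=
    ⟨_, Nat.le_ceil _⟩
  have hcard : (0 : ℝ) < ((mnH K R).card : ℝ) := by
    have h1 : (mnH K R).Nonempty := by
      refine ⟨fun _ => 0, ?_⟩
      unfold mnH
      rw [Fintype.mem_piFinset]
      intro i
      rw [Finset.mem_Icc]
      constructor
      · simp
      · simp
    exact_mod_cast h1.card_pos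
  obtain ⟨L, hL⟩ : ∃ L : ℝ, L = ((K + 1 : ℕ) : ℝ) * n * m * u0 + 1 := ⟨_, rfl⟩
  have hL0 : 0 < L := by
    rw [hL]
    positivity
  obtain ⟨C3, hC3⟩ : ∃ C3 : ℝ, C3 = ((mnH K R).card : ℝ) ^ 2 * (C2 * 2 * Real.exp (2 * L)) := ⟨_, rfl⟩
  have hC30 : 0 < C3 := by
    rw [hC3]
    positivity
  refine ⟨c / 4, c ^ 2 / (4 * C3), L + 2, min ρ1 (u0 / 2), by positivity, by positivity, by positivity,
    lt_min hρ1 (by positivity), ?_⟩
  intro ρ hρ hρ'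
  have hρ2 : ρ ≤ u0 / 2 := hρ'.trans (min_le_right _ _)
  have hev : ∀ᶠ w : ℝ in atTop, ∀ d ∈ Finset.Icc 1 n, ∀ h ∈ mnH K R,
      ∫⁻ t in Set.Icc (u0 - ρ) (u0 + ρ), (NG (m * d) (fun i => (h i : ℝ)) w t : ENNReal) ^ 2 ≤
        ENNReal.ofReal (C2 * (u0 + ρ - (u0 - ρ)) * Real.exp (2 * w) / w ^ (2 * K + 2)) := by
    rw [Filter.eventually_all_finset]
    intro d hd
    rw [Filter.eventually_all_finset]
    intro h _
    have hd1 := (Finset.mem_Icc.1 hd).1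
    exact hS2 (m * d) (u0 - ρ) (u0 + ρ) _ (Nat.mul_pos hm hd1) (by linarith) (by linarith)
  obtain ⟨w0, hw0⟩ := Filter.eventually_atTop.1 hev
  filter_upwards [hF1 ρ hρ (hρ'.trans (min_le_left _ _)), Filter.eventually_ge_atTop (max w0 1)]
    with w hw hw1
  obtain ⟨d, hd1, hdn, w', hw', hw'2, hint⟩ := hw
  have hww0 : w0 ≤ w' := (le_max_left _ _).trans (hw1.trans hw')
  have hw1' : 1 ≤ w := (le_max_right _ _).trans hw1
  refine ⟨d, hd1, hdn, ?_⟩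
  have hw'L : w' ≤ w + L := by
    rw [hL]
    exact hw'2
  have hsq : ∫⁻ u in Set.Icc (u0 - ρ) (u0 + ρ),
      (cW ε1 (s * (Real.exp (((m * d : ℕ) : ℝ) * u) - 1) + β) (Real.exp (((m * d : ℕ) : ℝ) * u))
        (K + 1) w' : ENNReal) ^ 2 ≤ ENNReal.ofReal (C3 * ρ * Real.exp (2 * w) / w ^ (2 * K + 2)) := by
    have hb : ∀ h ∈ mnH K R, ∫⁻ t in Set.Icc (u0 - ρ) (u0 + ρ),
        (NG (m * d) (fun i => (h i : ℝ)) w' t : ENNReal) ^ 2 ≤
          ENNReal.ofReal (C2 * 2 * Real.exp (2 * L) * (ρ * Real.exp (2 * w) / w ^ (2 * K + 2))) := by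
      intro h hh
      refine (hw0 w' hww0 d (Finset.mem_Icc.2 ⟨hd1, hdn⟩) h hh).trans (ENNReal.ofReal_le_ofReal ?_)
      have e1 : Real.exp (2 * w') ≤ Real.exp (2 * L) * Real.exp (2 * w) := by
        rw [← Real.exp_add]
        exact Real.exp_le_exp.2 (by linarith)
      have e2 : w ^ (2 * K + 2) ≤ w' ^ (2 * K + 2) := pow_le_pow_left₀ (by linarith) hw' _
      have e3 : 0 < w ^ (2 * K + 2) := by positivity
      have e4 : C2 * (u0 + ρ - (u0 - ρ)) = C2 * 2 * ρ := by ring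
      rw [e4]
      calc C2 * 2 * ρ * Real.exp (2 * w') / w' ^ (2 * K + 2)
          ≤ C2 * 2 * ρ * (Real.exp (2 * L) * Real.exp (2 * w)) / w ^ (2 * K + 2) :=
            div_le_div₀ (by positivity) (mul_le_mul_of_nonneg_left e1 (by positivity)) e3 e2
        _ = C2 * 2 * Real.exp (2 * L) * (ρ * Real.exp (2 * w) / w ^ (2 * K + 2)) := by ring
    have h1 : Real.exp (((m * d : ℕ) : ℝ) * (u0 + ρ)) ≤ M := by
      rw [hMd]
      refine Real.exp_le_exp.2 (mul_le_mul ?_ (by linarith) (by linarith) (Nat.cast_nonneg _))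
      exact_mod_cast Nat.mul_le_mul_left m hdn
    refine (mn_sq (Γ := |s| * M + 1) hM (by linarith) h1 hβ0 hβ1 le_rfl hR hb).trans (le_of_eq ?_)
    congr 1
    rw [hC3]
    ring
  have hmeas : Measurable fun u : ℝ => (cW ε1 (s * (Real.exp (((m * d : ℕ) : ℝ) * u) - 1) + β)
      (Real.exp (((m * d : ℕ) : ℝ) * u)) (K + 1) w' : ENNReal) :=
    cW_meas (τ := fun u => Real.exp (((m * d : ℕ) : ℝ) * u))
      (γ := fun u => s * (Real.exp (((m * d : ℕ) : ℝ) * u) - 1) + β) (by fun_prop) (by fun_prop) ε1 (K + 1) w'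
  have hwp : 0 < w ^ (K + 1) := by positivity
  have hpz := pz (S := Set.Icc (u0 - ρ) (u0 + ρ)) measurableSet_Icc hmeas
    (A := c * ρ * Real.exp w / w ^ (K + 1)) (B := C3 * ρ * Real.exp (2 * w) / w ^ (2 * K + 2))
    (θ := c / 4 * (Real.exp w / w ^ (K + 1))) (V := 2 * ρ) (by positivity) (by positivity) (by positivity)
    (by positivity) (by
      rw [Real.volume_Icc]
      exact ENNReal.ofReal_le_ofReal (by linarith)) (le_of_eq (by ring)) hint hsq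
  have e5 : (c * ρ * Real.exp w / w ^ (K + 1)) ^ 2 / (4 * (C3 * ρ * Real.exp (2 * w) / w ^ (2 * K + 2))) =
      c ^ 2 / (4 * C3) * ρ := by
    have e6 : Real.exp (2 * w) = Real.exp w ^ 2 := by
      rw [← Real.exp_nat_mul]
      norm_num
    have e7 : w ^ (2 * K + 2) = (w ^ (K + 1)) ^ 2 := by
      rw [← pow_mul]
      congr 1
      ring
    rw [e6, e7]
    have e8 : Real.exp w ≠ 0 := (Real.exp_pos w).ne'
    field_simp
  rw [e5] at hpz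
  refine hpz.trans (measure_mono ?_)
  rintro u ⟨hu1, hu2⟩
  refine ⟨hu1, ?_⟩
  have h1 : c / 4 * (Real.exp w / w ^ (K + 1)) ≤
      ((cW ε1 (s * (Real.exp (((m * d : ℕ) : ℝ) * u) - 1) + β)
      (Real.exp (((m * d : ℕ) : ℝ) * u)) (K + 1) w' : ℕ) : ℝ) := by
    have h2 := hu2
    rw [← ENNReal.ofReal_natCast] at h2
    exact (ENNReal.ofReal_le_ofReal_iff (Nat.cast_nonneg _)).1 h2
  refine h1.trans ?_
  have h3 : Real.exp (w' + 2) ≤ Real.exp (w + (L + 2)) := Real.exp_le_exp.2 (by linarith)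
  exact_mod_cast cW_le h3

end GPM
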