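import Pool.Agent.GPM.Fin
import Pool.Agent.HLA.FinA

/-!
# GPM.One: the case `k = 1` of Theorem B

For almost every `α > 1`, all real `b`, `β` and all `m ≥ 1`: `(1 + o(1)) X/log X` of the `p ≤ X` start a chain of exact length `1` under
`q ↦ ⌊A^m q + β⌋`, `A x = α x + b` (from the case `k = 1` of `HLA.finA` for `α^m`).
-/

namespace GPM

open MeasureTheory Filter SMC

/-- A property of almost every `γ > 1` holds for all powers `α^m` of almost every `α > 1`. -/
theorem ae_pow {P : ℝ → Prop} (h : ∀ᵐ γ : ℝ, 1 < γ → P γ) :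
    ∀ᵐ α : ℝ, 1 < α → ∀ m : ℕ, 1 ≤ m → P (α ^ m) := by
  have h1 : ∀ m : ℕ, ∀ᵐ α : ℝ, 1 < α → 1 ≤ m → P (α ^ m) := by
    intro m
    rcases Nat.eq_zero_or_pos m with hm | hm
    · refine Filter.Eventually.of_forall fun α _ h2 => ?_
      omega
    have hnull : volume {γ : ℝ | ¬ (1 < γ → P γ)} = 0 := ae_iff.1 h
    have hE : {α : ℝ | ¬ (1 < α → 1 ≤ m → P (α ^ m))} ⊆
        (fun γ : ℝ => γ ^ (1 / (m : ℝ))) '' {γ : ℝ | ¬ (1 < γ → P γ)} := by
      intro α hα
      simp only [Set.mem_ofPred_eq, Classical.not_imp] at hα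
      obtain ⟨h2, h3, h4⟩ := hα
      refine ⟨α ^ m, ?_, ?_⟩
      · simp only [Set.mem_ofPred_eq, Classical.not_imp]
        exact ⟨one_lt_pow₀ h2 (by omega), h4⟩
      · show (α ^ m) ^ (1 / (m : ℝ)) = α
        rw [← Real.rpow_natCast, ← Real.rpow_mul (by linarith), mul_one_div_cancel (by positivity),
          Real.rpow_one]
    refine measure_mono_null hE ?_
    refine addHaar_image_eq_zero_of_differentiableOn_of_addHaar_eq_zero volume ?_ hnull
    intro γ hγ
    simp only [Set.mem_ofPred_eq, Classical.not_imp] at hγ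
    exact (Real.differentiableAt_rpow_const_of_ne _ (by linarith [hγ.1])).differentiableWithinAt
  filter_upwards [ae_all_iff.2 h1] with α hα h2 m hm
  exact hα m h2 hm

/-- The map `TA` is `T` with the multiplier `α^j`. -/
theorem TA_eq {α b β : ℝ} (hα : 1 < α) (j : ℕ) :
    TA α b β j = T (α ^ j) (b * ((α ^ j - 1) / (α - 1)) + β) := by
  have h0 : α - 1 ≠ 0 := by linarith
  have h1 : ∀ (j : ℕ) (x : ℝ), (fun x : ℝ => α * x + b)^[j] x = α ^ j * x + b * ((α ^ j - 1) / (α - 1)) := by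
    intro j x
    induction j with
    | zero => simp
    | succ j ih =>
      rw [Function.iterate_succ_apply', ih, pow_succ]
      field_simp
      ring
  funext q
  unfold TA T
  rw [h1]
  congr 1
  ring

open Classical in
theorem countA_eq {α b β : ℝ} (hα : 1 < α) (j k X : ℕ) :
    countA α b β j k X = SMC.count (α ^ j) (b * ((α ^ j - 1) / (α - 1)) + β) k X := by
  unfold countA SMC.count StartsExact
  rw [TA_eq hα]
  congr!

open Classical in
theorem one_ae : ∀ᵐ α : ℝ, 1 < α → ∀ b β : ℝ, ∀ m : ℕ, 1 ≤ m → ∃ c : ℝ, 0 < c ∧ ∃ᶠ N : ℕ in atTop,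
      c * N ≤ (((Finset.range N).filter fun r : ℕ =>
        c * (Real.exp r / (r : ℝ) ^ 1) ≤ (countA α b β m 1 ⌊Real.exp r⌋₊ : ℝ)).card : ℝ) := by
  filter_upwards [ae_pow HLA.finA] with α hα h1 b β m hm
  have h2 := hα h1 m hm (b * ((α ^ m - 1) / (α - 1)) + β) 1 le_rfl (by norm_num)
  have h3 : ∀ᶠ X : ℕ in atTop, (1 / 2 : ℝ) <
      (SMC.count (α ^ m) (b * ((α ^ m - 1) / (α - 1)) + β) 1 X : ℝ) * Real.log X ^ 1 / X :=
    h2.eventually_const_lt (by norm_num)
  have hfl : Tendsto (fun r : ℕ => ⌊Real.exp (r : ℝ)⌋₊) atTop atTop :=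
    tendsto_nat_floor_atTop.comp (Real.tendsto_exp_atTop.comp tendsto_natCast_atTop_atTop)
  have h4 := hfl.eventually h3
  have h5 : ∀ᶠ r : ℕ in atTop, (1 / 4 : ℝ) * (Real.exp r / (r : ℝ) ^ 1) ≤
      (countA α b β m 1 ⌊Real.exp r⌋₊ : ℝ) := by
    filter_upwards [h4, eventually_ge_atTop 1] with r hr hr1
    rw [countA_eq h1]
    rw [pow_one] at hr ⊢
    set X := ⌊Real.exp (r : ℝ)⌋₊ with hX
    have hr' : (1 : ℝ) ≤ r := by exact_mod_cast hr1
    have he : (2 : ℝ) ≤ Real.exp r := by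
      have := Real.add_one_le_exp (r : ℝ)
      linarith
    have hXl : Real.exp r / 2 ≤ X := by
      have := Nat.lt_floor_add_one (Real.exp (r : ℝ))
      rw [← hX] at this
      linarith
    have hX0 : (0 : ℝ) < X := by
      have := Real.exp_pos (r : ℝ)
      linarith
    have hXu : (X : ℝ) ≤ Real.exp r := Nat.floor_le (Real.exp_pos _).le
    have hlog : Real.log X ≤ r := by
      have := Real.log_le_log hX0 hXu
      rwa [Real.log_exp] at this
    have hX1 : (1 : ℝ) ≤ X := by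
      have : 0 < X := by exact_mod_cast hX0
      exact_mod_cast this
    rw [lt_div_iff₀ hX0] at hr
    have hc0 : (0 : ℝ) ≤ (SMC.count (α ^ m) (b * ((α ^ m - 1) / (α - 1)) + β) 1 X : ℝ) := Nat.cast_nonneg _
    have h6 : (SMC.count (α ^ m) (b * ((α ^ m - 1) / (α - 1)) + β) 1 X : ℝ) * Real.log X ≤
        (SMC.count (α ^ m) (b * ((α ^ m - 1) / (α - 1)) + β) 1 X : ℝ) * r :=
      mul_le_mul_of_nonneg_left hlog hc0
    rw [← mul_div_assoc, div_le_iff₀ (by linarith)]
    linarith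
  obtain ⟨r0, hr0⟩ := eventually_atTop.1 h5
  refine ⟨1 / 4, by norm_num, Eventually.frequently ?_⟩
  filter_upwards [eventually_ge_atTop (2 * r0)] with N hN
  have h6 : N - r0 ≤ ((Finset.range N).filter fun r : ℕ =>
        (1 / 4 : ℝ) * (Real.exp r / (r : ℝ) ^ 1) ≤ (countA α b β m 1 ⌊Real.exp r⌋₊ : ℝ)).card := by
    rw [← Nat.card_Ico]
    refine Finset.card_le_card fun r hr => ?_
    rw [Finset.mem_Ico] at hr
    rw [Finset.mem_filter, Finset.mem_range]
    exact ⟨hr.2, hr0 r hr.1⟩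
  have h7 : ((N - r0 : ℕ) : ℝ) ≤ (((Finset.range N).filter fun r : ℕ =>
        (1 / 4 : ℝ) * (Real.exp r / (r : ℝ) ^ 1) ≤ (countA α b β m 1 ⌊Real.exp r⌋₊ : ℝ)).card : ℝ) := by
    exact_mod_cast h6
  refine le_trans ?_ h7
  rw [Nat.cast_sub (by omega)]
  have h8 : (2 : ℝ) * r0 ≤ N := by exact_mod_cast hN
  have h9 : (0 : ℝ) ≤ r0 := Nat.cast_nonneg _
  linarith

end GPM
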