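import Pool.Agent.GPM.Equi
import Pool.Agent.MRZ.SelMaj

/-!
# GPM.Pair: the sieve bound in dimension `2K`

PROOF. As `Pool/Agent/SMD/Pair6.lean` (copy `Pair6_core`, `Pair6_sum`, `pair6`; replace `Fin 6` by `Fin (K + K)`): let `l` be Selberg's weights from
`Pool.MRZ.sel_maj` with `D = ⌊X^(η/(120 K))⌋₊`. The numbers `nn a g m m' i t` are `> D` for `t ∈ [u1, u2]` and large `X` (they are
`≥ κ1 X - |g i| - 1`, as `e^(..) ≥ 1`), so the indicator of the set is at most `∏ (∑_{d ∣ n_i} l_d)`; integrate, expand into a sum over `d_i ≤ D²`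
(`≤ X^(η/16)`), replace the measures by `(u2-u1)/∏ d_i` (`equi_g`): the main term is `(u2-u1) (∑ l_d/d)^(2K) ≤ (u2-u1) (C0/log D)^(2K)`, the error is at most
`(D²)^(2K) (D⁴)^(2K) X^(-η/5) = D^(12 K) X^(-η/5) ≤ X^(-η/10)` (`|l_d| ≤ d²`), which is `≤ (..)(u2-u1)/(log X)^(2K)` for large `X`.
`C` depends on `η` and `K` only (`D ≥ X^(η/(240 K))`, `C = 2 (240 K C0/η)^(2K)`).
-/

namespace GPM

open MeasureTheory Filter SMC

/-- the analytic part: integration of the majorant -/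
private theorem Pairg_core {r : ℕ} {a b : ℝ} (N : Fin r → ℝ → ℕ) (hN : ∀ i, Measurable (N i)) (D : ℕ)
    (l : ℕ → ℝ)
    (hl1 : ∀ n, 1 ≤ n → 0 ≤ ∑ d ∈ (Finset.Icc 1 (D ^ 2)).filter (· ∣ n), l d)
    (hl2 : ∀ p, p.Prime → D < p → 1 ≤ ∑ d ∈ (Finset.Icc 1 (D ^ 2)).filter (· ∣ p), l d)
    (hc : ∀ i, ∀ t ∈ Set.Icc a b, D < N i t) :
    (volume {t : ℝ | t ∈ Set.Icc a b ∧ ∀ i, (N i t).Prime}).toReal ≤
      ∑ x ∈ Fintype.piFinset (fun _ : Fin r => Finset.Icc 1 (D ^ 2)), (∏ i, l (x i)) *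
        (volume {t : ℝ | t ∈ Set.Icc a b ∧ ∀ i, x i ∣ N i t}).toReal := by
  classical
  set E : (Fin r → ℕ) → Set ℝ := fun x => {t : ℝ | t ∈ Set.Icc a b ∧ ∀ i, x i ∣ N i t} with hE
  set A : Set ℝ := {t : ℝ | t ∈ Set.Icc a b ∧ ∀ i, (N i t).Prime} with hA
  have hmeas : ∀ P : Fin r → ℕ → Prop, MeasurableSet {t : ℝ | ∀ i, P i (N i t)} := by
    intro P
    have h1 : {t : ℝ | ∀ i, P i (N i t)} = ⋂ i, (N i) ⁻¹' {n | P i n} := by
      ext t
      simp only [Set.mem_ofPred_eq, Set.mem_iInter, Set.mem_preimage]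
    rw [h1]
    exact MeasurableSet.iInter fun i => hN i MeasurableSet.of_discrete
  have hEm : ∀ x, MeasurableSet (E x) := fun x =>
    measurableSet_Icc.inter (hmeas fun i n => x i ∣ n)
  have hAm : MeasurableSet A := measurableSet_Icc.inter (hmeas fun _ n => n.Prime)
  have hfin : volume (Set.Icc a b) < ⊤ := by
    rw [Real.volume_Icc]; exact ENNReal.ofReal_lt_top
  have hEf : ∀ x, volume (E x) < ⊤ := fun x =>
    lt_of_le_of_lt (measure_mono fun t ht => ht.1) hfin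
  have hAf : volume A < ⊤ := lt_of_le_of_lt (measure_mono fun t ht => ht.1) hfin
  have hint : ∀ x, Integrable ((E x).indicator (1 : ℝ → ℝ)) volume := fun x =>
    (integrable_indicator_iff (hEm x)).2 (integrableOn_const (hEf x).ne)
  have hintA : Integrable (A.indicator (1 : ℝ → ℝ)) volume :=
    (integrable_indicator_iff hAm).2 (integrableOn_const hAf.ne)
  have hval : ∀ x, ∫ t, (E x).indicator (1 : ℝ → ℝ) t = (volume (E x)).toReal := by
    intro x
    rw [integral_indicator_one (hEm x)]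
    rfl
  have hvalA : ∫ t, A.indicator (1 : ℝ → ℝ) t = (volume A).toReal := by
    rw [integral_indicator_one hAm]
    rfl
  have hF : Integrable (fun t => ∑ x ∈ Fintype.piFinset (fun _ : Fin r => Finset.Icc 1 (D ^ 2)),
      (∏ i, l (x i)) * (E x).indicator (1 : ℝ → ℝ) t) volume :=
    integrable_finsetSum _ fun x _ => (hint x).const_mul _
  have hle : ∀ t, A.indicator (1 : ℝ → ℝ) t ≤
      ∑ x ∈ Fintype.piFinset (fun _ : Fin r => Finset.Icc 1 (D ^ 2)),
      (∏ i, l (x i)) * (E x).indicator (1 : ℝ → ℝ) t := by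
    intro t
    by_cases ht : t ∈ Set.Icc a b
    · have h1 : ∑ x ∈ Fintype.piFinset (fun _ : Fin r => Finset.Icc 1 (D ^ 2)),
          (∏ i, l (x i)) * (E x).indicator (1 : ℝ → ℝ) t =
          ∏ i, ∑ d ∈ (Finset.Icc 1 (D ^ 2)).filter (· ∣ N i t), l d := by
        simp_rw [Finset.sum_filter]
        rw [Finset.prod_univ_sum]
        refine Finset.sum_congr rfl fun x _ => ?_
        by_cases hx : ∀ i, x i ∣ N i t
        · rw [Set.indicator_of_mem (show t ∈ E x from ⟨ht, hx⟩), Pi.one_apply, mul_one]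
          exact Finset.prod_congr rfl fun i _ => (if_pos (hx i)).symm
        · rw [Set.indicator_of_notMem (fun h : t ∈ E x => hx h.2), mul_zero]
          push Not at hx
          obtain ⟨i, hi⟩ := hx
          exact (Finset.prod_eq_zero (Finset.mem_univ i) (if_neg hi)).symm
      rw [h1]
      by_cases hA' : t ∈ A
      · rw [Set.indicator_of_mem hA']
        have h2 : ∏ _i : Fin r, (1 : ℝ) ≤
            ∏ i, ∑ d ∈ (Finset.Icc 1 (D ^ 2)).filter (· ∣ N i t), l d :=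
          Finset.prod_le_prod (fun _ _ => zero_le_one) fun i _ => hl2 _ (hA'.2 i) (hc i t ht)
        simpa using h2
      · rw [Set.indicator_of_notMem hA']
        exact Finset.prod_nonneg fun i _ => hl1 _ (by have := hc i t ht; omega)
    · rw [Set.indicator_of_notMem (fun h : t ∈ A => ht h.1)]
      refine (Finset.sum_eq_zero fun x _ => ?_).ge
      rw [Set.indicator_of_notMem (fun h : t ∈ E x => ht h.1), mul_zero]
  calc (volume A).toReal = ∫ t, A.indicator (1 : ℝ → ℝ) t := hvalA.symm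
    _ ≤ ∫ t, ∑ x ∈ Fintype.piFinset (fun _ : Fin r => Finset.Icc 1 (D ^ 2)),
      (∏ i, l (x i)) * (E x).indicator (1 : ℝ → ℝ) t := integral_mono hintA hF hle
    _ = _ := by
      rw [integral_finsetSum _ fun x _ => (hint x).const_mul _]
      refine Finset.sum_congr rfl fun x _ => ?_
      rw [integral_const_mul, hval]

/-- the arithmetic part -/
private theorem Pairg_sum {r : ℕ} (hr : Even r) {D : ℕ} {l : ℕ → ℝ} {V : (Fin r → ℕ) → ℝ} {w ε : ℝ}
    (hε : 0 ≤ ε) (hl : ∀ d, |l d| ≤ (d : ℝ) ^ 2)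
    (hV : ∀ x ∈ Fintype.piFinset (fun _ : Fin r => Finset.Icc 1 (D ^ 2)),
      |V x - w / ∏ i, (x i : ℝ)| ≤ ε) :
    ∑ x ∈ Fintype.piFinset (fun _ : Fin r => Finset.Icc 1 (D ^ 2)), (∏ i, l (x i)) * V x ≤
      w * |∑ d ∈ Finset.Icc 1 (D ^ 2), l d / d| ^ r + (D : ℝ) ^ (6 * r) * ε := by
  have h1 : ∀ x ∈ Fintype.piFinset (fun _ : Fin r => Finset.Icc 1 (D ^ 2)),
      (∏ i, l (x i)) * V x ≤ w * (∏ i, l (x i) / (x i : ℝ)) + (D : ℝ) ^ (4 * r) * ε := by
    intro x hx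
    have hx' : ∀ i, 1 ≤ x i ∧ x i ≤ D ^ 2 := fun i =>
      Finset.mem_Icc.1 (Fintype.mem_piFinset.1 hx i)
    have hbd : ∀ d : ℕ, d ≤ D ^ 2 → |l d| ≤ (D : ℝ) ^ 4 := by
      intro d hd
      refine (hl d).trans ?_
      have : (d : ℝ) ≤ (D : ℝ) ^ 2 := by exact_mod_cast hd
      calc (d : ℝ) ^ 2 ≤ ((D : ℝ) ^ 2) ^ 2 := by gcongr
        _ = (D : ℝ) ^ 4 := by ring
    have h2 : (∏ i, l (x i)) * (V x - w / ∏ i, (x i : ℝ)) ≤ (D : ℝ) ^ (4 * r) * ε := by
      refine (le_abs_self _).trans ?_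
      rw [abs_mul, Finset.abs_prod]
      have h3 : ∏ i, |l (x i)| ≤ (D : ℝ) ^ (4 * r) := by
        calc ∏ i, |l (x i)| ≤ ∏ _i : Fin r, (D : ℝ) ^ 4 :=
              Finset.prod_le_prod (fun _ _ => abs_nonneg _) fun i _ => hbd _ (hx' i).2
          _ = (D : ℝ) ^ (4 * r) := by
              rw [Finset.prod_const, Finset.card_univ, Fintype.card_fin, ← pow_mul]
      exact mul_le_mul h3 (hV x hx) (abs_nonneg _) (by positivity)
    have h3 : (∏ i, l (x i)) * V x = (∏ i, l (x i)) * (V x - w / ∏ i, (x i : ℝ)) +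
        w * (∏ i, l (x i) / (x i : ℝ)) := by
      rw [Finset.prod_div_distrib]
      ring
    rw [h3]
    linarith
  calc ∑ x ∈ Fintype.piFinset (fun _ : Fin r => Finset.Icc 1 (D ^ 2)), (∏ i, l (x i)) * V x
      ≤ ∑ x ∈ Fintype.piFinset (fun _ : Fin r => Finset.Icc 1 (D ^ 2)),
        (w * (∏ i, l (x i) / (x i : ℝ)) + (D : ℝ) ^ (4 * r) * ε) := Finset.sum_le_sum h1
    _ = w * |∑ d ∈ Finset.Icc 1 (D ^ 2), l d / d| ^ r + (D : ℝ) ^ (6 * r) * ε := by
      have h4 : |∑ d ∈ Finset.Icc 1 (D ^ 2), l d / (d : ℝ)| ^ r =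
          ∏ _i : Fin r, ∑ d ∈ Finset.Icc 1 (D ^ 2), l d / (d : ℝ) := by
        rw [Finset.prod_const, Finset.card_univ, Fintype.card_fin]
        exact hr.pow_abs _
      rw [h4, Finset.prod_univ_sum, Finset.sum_add_distrib, ← Finset.mul_sum, Finset.sum_const,
        Fintype.card_piFinset]
      simp only [Nat.card_Icc, Nat.add_sub_cancel, Finset.prod_const, Finset.card_univ,
        Fintype.card_fin, nsmul_eq_mul]
      push_cast
      have h5 : (D : ℝ) ^ (6 * r) = ((D : ℝ) ^ 2) ^ r * (D : ℝ) ^ (4 * r) := by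
        rw [← pow_mul, ← pow_add]
        congr 1
        ring
      rw [h5]
      ring

theorem pair_g {K : ℕ} (hK : 1 ≤ K) {η : ℝ} (hη : 0 < η) (hη1 : η * (40 * ((K : ℝ) + 1) ^ 2) ≤ 1) :
    ∃ C : ℝ, 0 < C ∧ ∀ (a : ℕ) (u1 u2 κ1 κ2 : ℝ) (g : Fin K → ℝ), 1 ≤ a → 0 ≤ u1 → u1 < u2 →
    0 < κ1 → ∃ X0 : ℝ, ∀ X : ℝ, X0 ≤ X → ∀ m m' : ℕ, κ1 * X ≤ (m : ℝ) → (m : ℝ) ≤ κ2 * X →
      κ1 * X ≤ (m' : ℝ) → (m' : ℝ) ≤ κ2 * X → MCC.NE X η m m' →
      volume {t : ℝ | t ∈ Set.Icc u1 u2 ∧ ∀ i, (nn a g m m' i t).Prime} ≤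
        ENNReal.ofReal (C * (u2 - u1) / Real.log X ^ (2 * K)) := by
  obtain ⟨C0, hC0, hsel⟩ := Pool.MRZ.sel_maj
  have hK0 : (1 : ℝ) ≤ (K : ℝ) := by exact_mod_cast hK
  have hKp : (0 : ℝ) < (K : ℝ) := by linarith
  have hη2 : η ≤ 1 := by nlinarith
  refine ⟨2 * (240 * K * C0 / η) ^ (2 * K), by positivity, ?_⟩
  intro a u1 u2 κ1 κ2 g ha hu1 hu hκ
  obtain ⟨X1, hX1⟩ := equi_g (κ2 := κ2) hK ha hη hη1 hu1 hu hκ g
  set G : ℝ := ∑ i, |g i| with hG
  have hgG : ∀ i, -G ≤ g i := by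
    intro i
    have h1 : |g i| ≤ G := Finset.single_le_sum (fun j _ => abs_nonneg (g j)) (Finset.mem_univ i)
    linarith [neg_abs_le (g i)]
  -- eventual inequalities
  have e1 : ∀ᶠ X : ℝ in atTop, 2 ≤ X ^ (η / (240 * K)) :=
    (tendsto_rpow_atTop (by positivity)).eventually_ge_atTop 2
  have hq1 : η / (120 * K) < 1 := by
    rw [div_lt_one (by positivity)]
    linarith
  have e2 : ∀ᶠ X : ℝ in atTop, X ^ (η / (120 * K)) ≤ (κ1 / 2) * X := by
    have hc : (0 : ℝ) < κ1 / 2 := by positivity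
    have h : ∀ᶠ X : ℝ in atTop, 1 / (κ1 / 2) ≤ X ^ (1 - η / (120 * K)) :=
      (tendsto_rpow_atTop (by linarith)).eventually_ge_atTop _
    filter_upwards [h, eventually_gt_atTop (0 : ℝ)] with X hX hX0
    have h1 : X = X ^ (η / (120 * K)) * X ^ (1 - η / (120 * K)) := by
      rw [← Real.rpow_add hX0]
      simp
    have h2 : 1 ≤ (κ1 / 2) * X ^ (1 - η / (120 * K)) := by
      rw [div_le_iff₀ hc] at hX
      linarith
    have h3 : 0 ≤ X ^ (η / (120 * K)) := by positivity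
    calc X ^ (η / (120 * K)) = X ^ (η / (120 * K)) * 1 := (mul_one _).symm
      _ ≤ X ^ (η / (120 * K)) * ((κ1 / 2) * X ^ (1 - η / (120 * K))) := by gcongr
      _ = (κ1 / 2) * (X ^ (η / (120 * K)) * X ^ (1 - η / (120 * K))) := by ring
      _ = (κ1 / 2) * X := by rw [← h1]
  have e3 : ∀ᶠ X : ℝ in atTop, 1 + G < (κ1 / 2) * X :=
    (tendsto_id.const_mul_atTop (by positivity)).eventually_gt_atTop _
  have e4 : ∀ᶠ X : ℝ in atTop, X ^ (-(η / 10)) * Real.log X ^ (2 * K) ≤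
      (240 * K * C0 / η) ^ (2 * K) * (u2 - u1) := by
    have h : Tendsto (fun X : ℝ => Real.log X ^ (2 * K) / X ^ (η / 10)) atTop (nhds 0) := by
      have h := (isLittleO_log_rpow_rpow_atTop (s := η / 10) (((2 * K : ℕ) : ℝ))
        (by positivity)).tendsto_div_nhds_zero
      refine h.congr fun X => ?_
      rw [Real.rpow_natCast]
    have hpos : 0 < (240 * K * C0 / η) ^ (2 * K) * (u2 - u1) := by
      have : 0 < u2 - u1 := by linarith
      positivity
    filter_upwards [h.eventually_le_const hpos, eventually_gt_atTop (0 : ℝ)] with X hX hX0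
    rw [Real.rpow_neg hX0.le, inv_mul_eq_div]
    exact hX
  obtain ⟨X2, hX2⟩ := (((e1.and e2).and (e3.and e4)).and (eventually_gt_atTop (1 : ℝ))).exists_forall_of_atTop
  refine ⟨max X1 X2, fun X hX m m' hm1 hm2 hm1' hm2' hNE => ?_⟩
  obtain ⟨⟨⟨f1, f2⟩, f3, f4⟩, f5⟩ := hX2 X ((le_max_right _ _).trans hX)
  have hXpos : 0 < X := by linarith
  set D : ℕ := ⌊X ^ (η / (120 * K))⌋₊ with hD
  have hsq : X ^ (η / (120 * K)) = (X ^ (η / (240 * K))) ^ 2 := by
    rw [← Real.rpow_natCast, ← Real.rpow_mul hXpos.le]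
    congr 1
    push_cast
    field_simp
    norm_num
  have hDle : (D : ℝ) ≤ X ^ (η / (120 * K)) := Nat.floor_le (by positivity)
  have hDge : X ^ (η / (240 * K)) ≤ (D : ℝ) := by
    have h1 : X ^ (η / (120 * K)) < (D : ℝ) + 1 := Nat.lt_floor_add_one _
    rw [hsq] at h1
    nlinarith
  have hD2 : 2 ≤ D := by
    have : (2 : ℝ) ≤ D := f1.trans hDge
    exact_mod_cast this
  obtain ⟨l, hl0, hl1, hl2, hl3⟩ := hsel D hD2
  have hbig : ∀ n : ℕ, κ1 * X ≤ (n : ℝ) → ∀ i : Fin K, ∀ t ∈ Set.Icc u1 u2, D < nm a g n i t := by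
    intro n hn i t ht
    rw [Nat.lt_iff_add_one_le]
    unfold nm
    refine Nat.le_floor ?_
    push_cast
    have ht0 : 0 ≤ t := hu1.trans ht.1
    have h0 : (1 : ℝ) ≤ Real.exp ((a : ℝ) * (((i : ℕ) : ℝ) + 1) * t) :=
      Real.one_le_exp (by positivity)
    have h1 : (n : ℝ) ≤ Real.exp ((a : ℝ) * (((i : ℕ) : ℝ) + 1) * t) * n := by
      have h2 : (0 : ℝ) ≤ (n : ℝ) := Nat.cast_nonneg n
      nlinarith
    have h3 := hgG i
    have h4 := hDle.trans f2
    linarith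
  set N : Fin (K + K) → ℝ → ℕ := nn a g m m' with hNdef
  have hNm : ∀ i, Measurable (N i) := fun i => nn_meas a g m m' i
  have hNc : ∀ i, ∀ t ∈ Set.Icc u1 u2, D < N i t := by
    rw [fin_add]
    refine ⟨fun i t ht => ?_, fun i t ht => ?_⟩
    · rw [hNdef, nn_left]
      exact hbig m hm1 i t ht
    · rw [hNdef, nn_right]
      exact hbig m' hm1' i t ht
  have hcore := Pairg_core (a := u1) (b := u2) N hNm D l hl1 hl2 hNc
  have hDX : ∀ d : ℕ, d ≤ D ^ 2 → (d : ℝ) ≤ X ^ (η / 16) := by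
    intro d hd
    have h1 : (d : ℝ) ≤ (D : ℝ) ^ 2 := by exact_mod_cast hd
    refine h1.trans ?_
    calc (D : ℝ) ^ 2 ≤ (X ^ (η / (120 * K))) ^ 2 := by gcongr
      _ = X ^ (η / (60 * K)) := by
        rw [← Real.rpow_natCast, ← Real.rpow_mul hXpos.le]
        congr 1
        push_cast
        field_simp
        norm_num
      _ ≤ X ^ (η / 16) := by
        refine Real.rpow_le_rpow_of_exponent_le f5.le ?_
        refine div_le_div_of_nonneg_left hη.le (by norm_num) ?_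
        linarith
  have hsum := Pairg_sum (r := K + K) ⟨K, rfl⟩ (D := D) (l := l)
    (V := fun x => (volume {t : ℝ | t ∈ Set.Icc u1 u2 ∧ ∀ i, x i ∣ N i t}).toReal)
    (w := u2 - u1) (ε := X ^ (-(η / 5))) (by positivity) hl0 (by
      intro x hx
      have hx' : ∀ i, 1 ≤ x i ∧ x i ≤ D ^ 2 := fun i =>
        Finset.mem_Icc.1 (Fintype.mem_piFinset.1 hx i)
      exact hX1 X ((le_max_left _ _).trans hX) m m' hm1 hm2 hm1' hm2' hNE x (fun i => (hx' i).1)
        (fun i => hDX _ (hx' i).2))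
  have hlogX : 0 < Real.log X := Real.log_pos f5
  have hlogD : η / (240 * K) * Real.log X ≤ Real.log D := by
    rw [← Real.log_rpow hXpos]
    exact Real.log_le_log (by positivity) hDge
  have hmain : |∑ d ∈ Finset.Icc 1 (D ^ 2), l d / d| ≤ (240 * K * C0 / η) / Real.log X := by
    refine hl3.trans ?_
    calc C0 / Real.log D ≤ C0 / (η / (240 * K) * Real.log X) := by
          gcongr
      _ = (240 * K * C0 / η) / Real.log X := by
          field_simp
  have hD12 : (D : ℝ) ^ (6 * (K + K)) * X ^ (-(η / 5)) ≤ X ^ (-(η / 10)) := by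
    calc (D : ℝ) ^ (6 * (K + K)) * X ^ (-(η / 5)) ≤
          (X ^ (η / (120 * K))) ^ (6 * (K + K)) * X ^ (-(η / 5)) := by gcongr
      _ = X ^ (-(η / 10)) := by
        rw [← Real.rpow_natCast, ← Real.rpow_mul hXpos.le, ← Real.rpow_add hXpos]
        congr 1
        push_cast
        field_simp
        ring
  have hfin : volume {t : ℝ | t ∈ Set.Icc u1 u2 ∧ ∀ i, (N i t).Prime} ≠ ⊤ := by
    refine ne_top_of_le_ne_top ?_ (measure_mono (fun t ht => ht.1 : _ ⊆ Set.Icc u1 u2))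
    rw [Real.volume_Icc]
    exact ENNReal.ofReal_ne_top
  rw [← ENNReal.ofReal_toReal hfin]
  refine ENNReal.ofReal_le_ofReal ?_
  refine (hcore.trans hsum).trans ?_
  have h2K : K + K = 2 * K := by ring
  have h1 : (u2 - u1) * |∑ d ∈ Finset.Icc 1 (D ^ 2), l d / d| ^ (K + K) ≤
      (u2 - u1) * ((240 * K * C0 / η) / Real.log X) ^ (2 * K) := by
    have : 0 ≤ u2 - u1 := by linarith
    rw [h2K]
    gcongr
  have h2 : X ^ (-(η / 10)) ≤ (240 * K * C0 / η) ^ (2 * K) * (u2 - u1) / Real.log X ^ (2 * K) := by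
    rw [le_div_iff₀ (by positivity)]
    exact f4
  calc (u2 - u1) * |∑ d ∈ Finset.Icc 1 (D ^ 2), l d / d| ^ (K + K) +
        (D : ℝ) ^ (6 * (K + K)) * X ^ (-(η / 5))
      ≤ (u2 - u1) * ((240 * K * C0 / η) / Real.log X) ^ (2 * K) +
        (240 * K * C0 / η) ^ (2 * K) * (u2 - u1) / Real.log X ^ (2 * K) := by
        linarith [hD12.trans h2]
    _ = 2 * (240 * K * C0 / η) ^ (2 * K) * (u2 - u1) / Real.log X ^ (2 * K) := by
        rw [div_pow]
        ring

end GPM
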