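import Mathlib

/-!
# GPM.Vdc: van der Corput's lemma of order `l ≥ 2`

PROOF. Copy (as private lemmas) `oscP`, `oscP_norm`, `oscP_deriv`, `fdT`, `crossP`, `splitT`, `sdT` from `Pool/Agent/SMD/Osc3.lean`; the case `l = 2` is `sdT`
(`4/√r = 4/r^(1/2)`), and `l → l+1` is exactly the proof of `tdT` there: `f l` is monotone with slope `≥ r` (or `≤ -r`, then use `-f l`); `splitT` with the
threshold `λ = r^(l/(l+1))`: on the two outer intervals `f l ≥ λ` or `f l ≤ -λ`, so by induction the integral is at most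
`C_l / λ^(1/l) = C_l / r^(1/(l+1))`; the middle interval gives `2 λ / r = 2 / r^(1/(l+1))`. So `C_{l+1} = 2 C_l + 2`. (For the induction take for `f` the
functions `f 0, ..., f l` on the subinterval; `ContinuousOn (f l)` follows from `HasDerivAt`.)
-/

namespace GPM

open MeasureTheory

/-- the oscillating factor of a real phase -/
private noncomputable def oscP (f : ℝ → ℝ) (t : ℝ) : ℂ :=
  Complex.exp (2 * Real.pi * Complex.I * ((f t : ℝ) : ℂ))

private theorem oscP_norm (f : ℝ → ℝ) (t : ℝ) : ‖oscP f t‖ = 1 := by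
  unfold oscP
  have : 2 * (Real.pi : ℂ) * Complex.I * ((f t : ℝ) : ℂ) =
      ((2 * Real.pi * f t : ℝ) : ℂ) * Complex.I := by
    push_cast
    ring
  rw [this, Complex.norm_exp_ofReal_mul_I]

private theorem oscP_deriv {f : ℝ → ℝ} {f1 t : ℝ} (h : HasDerivAt f f1 t) :
    HasDerivAt (oscP f) (oscP f t * (2 * Real.pi * Complex.I * ((f1 : ℝ) : ℂ))) t :=
  (h.ofReal_comp.const_mul (2 * (Real.pi : ℂ) * Complex.I)).cexp

/-- first derivative test -/
private theorem fdT {f f1 f2 : ℝ → ℝ} {a b l : ℝ} (hab : a ≤ b) (hl : 0 < l)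
    (h1 : ∀ t ∈ Set.Icc a b, HasDerivAt f (f1 t) t)
    (h2 : ∀ t ∈ Set.Icc a b, HasDerivAt f1 (f2 t) t)
    (hc2 : ContinuousOn f2 (Set.Icc a b))
    (hsg : (∀ t ∈ Set.Icc a b, 0 ≤ f2 t) ∨ (∀ t ∈ Set.Icc a b, f2 t ≤ 0))
    (h : ∀ t ∈ Set.Icc a b, l ≤ |f1 t|) :
    ‖∫ t in a..b, oscP f t‖ ≤ 1 / l := by
  have hu : Set.uIcc a b = Set.Icc a b := Set.uIcc_of_le hab
  have hne : ∀ t ∈ Set.Icc a b, f1 t ≠ 0 := by
    intro t ht h0
    have := h t ht
    rw [h0, abs_zero] at this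
    linarith
  have hpi := Real.pi_pos
  have hpi3 := Real.pi_gt_three
  have hcE : ContinuousOn (oscP f) (Set.Icc a b) := fun t ht =>
    (oscP_deriv (h1 t ht)).continuousAt.continuousWithinAt
  have hcpsi : ContinuousOn f1 (Set.Icc a b) := fun t ht =>
    (h2 t ht).continuousAt.continuousWithinAt
  have h2pi : (2 * (Real.pi : ℂ) * Complex.I) ≠ 0 := by
    simp [hpi.ne']
  -- the correction term
  set R : ℝ → ℂ := fun t => oscP f t * ((f2 t / (f1 t) ^ 2 : ℝ) : ℂ) /
    (2 * Real.pi * Complex.I) with hR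
  have hcR : ContinuousOn R (Set.Icc a b) := by
    refine (hcE.mul ?_).div_const _
    refine Complex.continuous_ofReal.comp_continuousOn ?_
    refine hc2.div (hcpsi.pow 2) fun t ht => pow_ne_zero 2 (hne t ht)
  have hG : ∀ t ∈ Set.uIcc a b, HasDerivAt
      (fun t => oscP f t * (((f1 t)⁻¹ : ℝ) : ℂ) / (2 * Real.pi * Complex.I))
      (oscP f t - R t) t := by
    intro t ht
    rw [hu] at ht
    have h1' := oscP_deriv (h1 t ht)
    have h2' := ((h2 t ht).inv (hne t ht)).ofReal_comp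
    have h3 := (h1'.mul h2').div_const (2 * (Real.pi : ℂ) * Complex.I)
    refine h3.congr_deriv ?_
    have hne' : ((f1 t : ℝ) : ℂ) ≠ 0 := Complex.ofReal_ne_zero.2 (hne t ht)
    have e1 : (((f1 t)⁻¹ : ℝ) : ℂ) = ((f1 t : ℝ) : ℂ)⁻¹ := by push_cast; rfl
    have e2 : ((-(f2 t) / (f1 t) ^ 2 : ℝ) : ℂ) =
        -((f2 t / (f1 t) ^ 2 : ℝ) : ℂ) := by
      push_cast
      ring
    have e3 : ((f2 t / (f1 t) ^ 2 : ℝ) : ℂ) = (f2 t : ℂ) / (f1 t : ℂ) ^ 2 := by push_cast; rfl
    simp only [Pi.inv_apply] at *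
    rw [hR]
    simp only
    rw [e1, e2, e3]
    generalize ((f1 t : ℝ) : ℂ) = p at *
    generalize ((f2 t : ℝ) : ℂ) = q at *
    generalize (2 * (Real.pi : ℂ) * Complex.I) = k at *
    field_simp
    ring
  have hint : IntervalIntegrable (fun t => oscP f t - R t) volume a b := by
    refine ContinuousOn.intervalIntegrable ?_
    rw [hu]
    exact hcE.sub hcR
  have hFTC := intervalIntegral.integral_eq_sub_of_hasDerivAt hG hint
  have hiE : IntervalIntegrable (oscP f) volume a b := by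
    refine ContinuousOn.intervalIntegrable ?_
    rw [hu]
    exact hcE
  have hiR : IntervalIntegrable R volume a b := by
    refine ContinuousOn.intervalIntegrable ?_
    rw [hu]
    exact hcR
  rw [intervalIntegral.integral_sub hiE hiR] at hFTC
  -- the real comparison
  obtain ⟨s, hs1, hs2⟩ : ∃ s : ℝ, |s| = 1 ∧ ∀ t ∈ Set.Icc a b, |f2 t| = s * f2 t := by
    rcases hsg with hv | hv
    · exact ⟨1, by simp, fun t ht => by rw [abs_of_nonneg (hv t ht), one_mul]⟩
    · exact ⟨-1, by simp, fun t ht => by rw [abs_of_nonpos (hv t ht)]; ring⟩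
  have hK : ∀ t ∈ Set.uIcc a b, HasDerivAt
      (fun t => -(s / (2 * Real.pi)) * (f1 t)⁻¹)
      (s / (2 * Real.pi) * (f2 t / (f1 t) ^ 2)) t := by
    intro t ht
    rw [hu] at ht
    have h2' := ((h2 t ht).inv (hne t ht)).const_mul (-(s / (2 * Real.pi)))
    refine h2'.congr_deriv ?_
    ring
  have hiK : IntervalIntegrable
      (fun t : ℝ => s / (2 * Real.pi) * (f2 t / (f1 t) ^ 2)) volume a b := by
    refine ContinuousOn.intervalIntegrable ?_
    rw [hu]
    refine continuousOn_const.mul ?_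
    exact hc2.div (hcpsi.pow 2) fun t ht => pow_ne_zero 2 (hne t ht)
  have hKint := intervalIntegral.integral_eq_sub_of_hasDerivAt hK hiK
  have e3 : ‖(2 * (Real.pi : ℂ) * Complex.I)‖ = 2 * Real.pi := by
    rw [norm_mul, norm_mul, Complex.norm_I, Complex.norm_real, Real.norm_of_nonneg hpi.le]
    simp
  have hbound : ‖∫ t in a..b, R t‖ ≤
      ∫ t in a..b, s / (2 * Real.pi) * (f2 t / (f1 t) ^ 2) := by
    refine intervalIntegral.norm_integral_le_of_norm_le hab ?_ hiK
    refine Filter.Eventually.of_forall fun t ht => ?_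
    have ht' : t ∈ Set.Icc a b := Set.Ioc_subset_Icc_self ht
    rw [hR]
    simp only
    rw [norm_div, norm_mul, oscP_norm, one_mul, Complex.norm_real]
    rw [e3, Real.norm_eq_abs, abs_div,
      abs_of_nonneg (sq_nonneg (f1 t)), hs2 t ht']
    apply le_of_eq
    ring
  have hinv : ∀ t ∈ Set.Icc a b, |(f1 t)⁻¹| ≤ 1 / l := by
    intro t ht
    rw [abs_inv, ← one_div]
    exact one_div_le_one_div_of_le hl (h t ht)
  have hba := hinv a (Set.left_mem_Icc.2 hab)
  have hbb := hinv b (Set.right_mem_Icc.2 hab)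
  have hKle : ∫ t in a..b, s / (2 * Real.pi) * (f2 t / (f1 t) ^ 2) ≤
      1 / (2 * Real.pi) * (2 / l) := by
    rw [hKint]
    have e4 : -(s / (2 * Real.pi)) * (f1 b)⁻¹ - -(s / (2 * Real.pi)) * (f1 a)⁻¹ =
        1 / (2 * Real.pi) * (s * ((f1 a)⁻¹ - (f1 b)⁻¹)) := by ring
    rw [e4]
    refine mul_le_mul_of_nonneg_left ?_ (by positivity)
    calc s * ((f1 a)⁻¹ - (f1 b)⁻¹)
        ≤ |s * ((f1 a)⁻¹ - (f1 b)⁻¹)| := le_abs_self _
      _ = |(f1 a)⁻¹ - (f1 b)⁻¹| := by rw [abs_mul, hs1, one_mul]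
      _ ≤ |(f1 a)⁻¹| + |(f1 b)⁻¹| := abs_sub _ _
      _ ≤ 2 / l := by
        have : 2 / l = 1 / l + 1 / l := by ring
        linarith
  have hGb : ∀ t ∈ Set.Icc a b,
      ‖oscP f t * (((f1 t)⁻¹ : ℝ) : ℂ) / (2 * Real.pi * Complex.I)‖ ≤
      1 / (2 * Real.pi) * (1 / l) := by
    intro t ht
    rw [norm_div, norm_mul, oscP_norm, one_mul, Complex.norm_real]
    rw [e3, Real.norm_eq_abs]
    have := hinv t ht
    calc |(f1 t)⁻¹| / (2 * Real.pi) ≤ 1 / l / (2 * Real.pi) := by gcongr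
      _ = 1 / (2 * Real.pi) * (1 / l) := by ring
  have hfin : ∫ t in a..b, oscP f t =
      (oscP f b * (((f1 b)⁻¹ : ℝ) : ℂ) / (2 * Real.pi * Complex.I) -
      oscP f a * (((f1 a)⁻¹ : ℝ) : ℂ) / (2 * Real.pi * Complex.I)) +
      ∫ t in a..b, R t := by
    rw [← hFTC]
    ring
  rw [hfin]
  refine (norm_add_le _ _).trans ?_
  have h7 := norm_sub_le (oscP f b * (((f1 b)⁻¹ : ℝ) : ℂ) / (2 * Real.pi * Complex.I))
      (oscP f a * (((f1 a)⁻¹ : ℝ) : ℂ) / (2 * Real.pi * Complex.I))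
  have h8 := hGb a (Set.left_mem_Icc.2 hab)
  have h9 := hGb b (Set.right_mem_Icc.2 hab)
  have h10 : 1 / (2 * Real.pi) * (1 / l) + 1 / (2 * Real.pi) * (1 / l) +
      1 / (2 * Real.pi) * (2 / l) ≤ 1 / l := by
    have : 1 / (2 * Real.pi) * (1 / l) + 1 / (2 * Real.pi) * (1 / l) +
      1 / (2 * Real.pi) * (2 / l) = 2 / Real.pi * (1 / l) := by
      field_simp
      ring
    rw [this]
    have h11 : 2 / Real.pi ≤ 1 := by
      rw [div_le_one hpi]
      linarith
    have h12 : 0 < 1 / l := by positivity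
    nlinarith
  linarith

/-- a point where a monotone continuous function crosses a level -/
private theorem crossP {f : ℝ → ℝ} {a b : ℝ} (hab : a ≤ b) (hc : ContinuousOn f (Set.Icc a b))
    (hm : MonotoneOn f (Set.Icc a b)) (c : ℝ) :
    ∃ p, a ≤ p ∧ p ≤ b ∧ (a = p ∨ ∀ t ∈ Set.Icc a p, f t ≤ c) ∧
      (p = b ∨ ∀ t ∈ Set.Icc p b, c ≤ f t) := by
  rcases le_total c (f a) with h | h
  · refine ⟨a, le_rfl, hab, Or.inl rfl, Or.inr fun t ht => ?_⟩
    exact h.trans (hm (Set.left_mem_Icc.2 hab) ht ht.1)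
  rcases le_total (f b) c with h' | h'
  · refine ⟨b, hab, le_rfl, Or.inr fun t ht => ?_, Or.inl rfl⟩
    exact (hm ht (Set.right_mem_Icc.2 hab) ht.2).trans h'
  obtain ⟨p, hp, hpc⟩ := intermediate_value_Icc hab hc ⟨h, h'⟩
  refine ⟨p, hp.1, hp.2, Or.inr fun t ht => ?_, Or.inr fun t ht => ?_⟩
  · rw [← hpc]
    exact hm ⟨ht.1, ht.2.trans hp.2⟩ hp ht.2
  · rw [← hpc]
    exact hm hp ⟨hp.1.trans ht.1, ht.2⟩ ht.1

/-- the splitting step of van der Corput's method -/
private theorem splitT {f f' : ℝ → ℝ} {g : ℝ → ℂ} {a b l r K : ℝ} (hab : a ≤ b) (hl : 0 < l)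
    (hr : 0 < r) (hK : 0 ≤ K)
    (hf : ∀ t ∈ Set.Icc a b, HasDerivAt f (f' t) t)
    (hf' : ∀ t ∈ Set.Icc a b, r ≤ f' t)
    (hg1 : ∀ t, ‖g t‖ ≤ 1) (hgc : ContinuousOn g (Set.Icc a b))
    (hG : ∀ x y, a ≤ x → x ≤ y → y ≤ b →
      ((∀ t ∈ Set.Icc x y, f t ≤ -l) ∨ (∀ t ∈ Set.Icc x y, l ≤ f t)) →
      ‖∫ t in x..y, g t‖ ≤ K) :
    ‖∫ t in a..b, g t‖ ≤ 2 * K + 2 * l / r := by
  have hcf : ContinuousOn f (Set.Icc a b) := fun t ht => (hf t ht).continuousAt.continuousWithinAt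
  -- slope
  have hslope : ∀ x ∈ Set.Icc a b, ∀ y ∈ Set.Icc a b, x ≤ y → r * (y - x) ≤ f y - f x := by
    intro x hx y hy hxy
    have hsub : Set.Icc x y ⊆ Set.Icc a b := Set.Icc_subset_Icc hx.1 hy.2
    refine (convex_Icc x y).mul_sub_le_image_sub_of_le_deriv (hcf.mono hsub) ?_ ?_
      x (Set.left_mem_Icc.2 hxy) y (Set.right_mem_Icc.2 hxy) hxy
    · intro t ht
      rw [interior_Icc] at ht
      exact (hf t (hsub (Set.Ioo_subset_Icc_self ht))).differentiableAt.differentiableWithinAt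
    · intro t ht
      rw [interior_Icc] at ht
      rw [(hf t (hsub (Set.Ioo_subset_Icc_self ht))).deriv]
      exact hf' t (hsub (Set.Ioo_subset_Icc_self ht))
  have hm : MonotoneOn f (Set.Icc a b) := by
    intro x hx y hy hxy
    have := hslope x hx y hy hxy
    nlinarith
  obtain ⟨p, hap, hpb, hp1, hp2⟩ := crossP hab hcf hm (-l)
  have hsubp : Set.Icc p b ⊆ Set.Icc a b := Set.Icc_subset_Icc hap le_rfl
  obtain ⟨q, hpq, hqb, hq1, hq2⟩ := crossP hpb (hcf.mono hsubp) (hm.mono hsubp) l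
  have hii : ∀ x y : ℝ, a ≤ x → x ≤ y → y ≤ b → IntervalIntegrable g volume x y := by
    intro x y hx hxy hy
    refine ContinuousOn.intervalIntegrable ?_
    rw [Set.uIcc_of_le hxy]
    exact hgc.mono (Set.Icc_subset_Icc hx hy)
  have hsplit : ∫ t in a..b, g t = (∫ t in a..p, g t) +
      (∫ t in p..q, g t) + ∫ t in q..b, g t := by
    rw [intervalIntegral.integral_add_adjacent_intervals (hii a p le_rfl hap hpb)
        (hii p q hap hpq hqb),
      intervalIntegral.integral_add_adjacent_intervals (hii a q le_rfl (hap.trans hpq) hqb)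
        (hii q b (hap.trans hpq) hqb le_rfl)]
  have h1 : ‖∫ t in a..p, g t‖ ≤ K := by
    rcases hp1 with h | h
    · rw [← h, intervalIntegral.integral_same, norm_zero]
      exact hK
    · exact hG a p le_rfl hap hpb (Or.inl h)
  have h3 : ‖∫ t in q..b, g t‖ ≤ K := by
    rcases hq2 with h | h
    · rw [h, intervalIntegral.integral_same, norm_zero]
      exact hK
    · exact hG q b (hap.trans hpq) hqb le_rfl (Or.inr h)
  have h2 : ‖∫ t in p..q, g t‖ ≤ 2 * l / r := by
    have h4 : ‖∫ t in p..q, g t‖ ≤ q - p := by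
      have := intervalIntegral.norm_integral_le_of_norm_le_const (a := p) (b := q)
        (f := g) (C := 1) fun t _ => hg1 t
      rwa [one_mul, abs_of_nonneg (by linarith)] at this
    refine h4.trans ?_
    rcases hp2 with h | h
    · have : q - p = 0 := by
        have : q = b := le_antisymm hqb (by rw [← h]; exact hpq)
        rw [this, h]
        ring
      rw [this]
      positivity
    rcases hq1 with h' | h'
    · rw [← h', sub_self]
      positivity
    · have h5 := hslope p ⟨hap, hpb⟩ q ⟨hap.trans hpq, hqb⟩ hpq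
      have h6 := h p (Set.left_mem_Icc.2 hpb)
      have h7 := h' q (Set.right_mem_Icc.2 hpq)
      rw [le_div_iff₀ hr]
      nlinarith
  rw [hsplit]
  refine (norm_add₃_le).trans ?_
  linarith

/-- second derivative test -/
private theorem sdT {f f1 f2 : ℝ → ℝ} {a b r : ℝ} (hab : a ≤ b) (hr : 0 < r)
    (h1 : ∀ t ∈ Set.Icc a b, HasDerivAt f (f1 t) t)
    (h2 : ∀ t ∈ Set.Icc a b, HasDerivAt f1 (f2 t) t)
    (hc2 : ContinuousOn f2 (Set.Icc a b))
    (hsg : (∀ t ∈ Set.Icc a b, f2 t ≤ -r) ∨ (∀ t ∈ Set.Icc a b, r ≤ f2 t)) :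
    ‖∫ t in a..b, oscP f t‖ ≤ 4 / Real.sqrt r := by
  have hsr : 0 < Real.sqrt r := Real.sqrt_pos.2 hr
  have hgc : ContinuousOn (oscP f) (Set.Icc a b) := fun t ht =>
    (oscP_deriv (h1 t ht)).continuousAt.continuousWithinAt
  have hgn : ∀ t, ‖oscP f t‖ ≤ 1 := fun t => (oscP_norm f t).le
  have hcal : 2 * (1 / Real.sqrt r) + 2 * Real.sqrt r / r = 4 / Real.sqrt r := by
    have : Real.sqrt r / r = 1 / Real.sqrt r := by
      rw [div_eq_div_iff hr.ne' hsr.ne', Real.mul_self_sqrt hr.le, one_mul]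
    rw [mul_div_assoc, this]
    ring
  rw [← hcal]
  have hsub : ∀ x y, a ≤ x → y ≤ b → Set.Icc x y ⊆ Set.Icc a b := fun x y hx hy =>
    Set.Icc_subset_Icc hx hy
  rcases hsg with h | h
  · refine splitT (f := fun t => -f1 t) (f' := fun t => -f2 t) hab hsr hr (by positivity)
      (fun t ht => (h2 t ht).neg) (fun t ht => by have := h t ht; linarith) hgn hgc ?_
    intro x y hx hxy hy hxy'
    have hs := hsub x y hx hy
    refine fdT hxy hsr (fun t ht => h1 t (hs ht)) (fun t ht => h2 t (hs ht)) (hc2.mono hs)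
      (Or.inr fun t ht => by have := h t (hs ht); linarith) ?_
    intro t ht
    rw [← abs_neg]
    rcases hxy' with h' | h'
    · refine le_trans ?_ (neg_le_abs _)
      have := h' t ht
      linarith
    · exact le_trans (h' t ht) (le_abs_self _)
  · refine splitT (f := f1) (f' := f2) hab hsr hr (by positivity)
      h2 h hgn hgc ?_
    intro x y hx hxy hy hxy'
    have hs := hsub x y hx hy
    refine fdT hxy hsr (fun t ht => h1 t (hs ht)) (fun t ht => h2 t (hs ht)) (hc2.mono hs)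
      (Or.inl fun t ht => by have := h t (hs ht); linarith) ?_
    intro t ht
    rcases hxy' with h' | h'
    · refine le_trans ?_ (neg_le_abs _)
      have := h' t ht
      linarith
    · exact le_trans (h' t ht) (le_abs_self _)

theorem vdc (l : ℕ) (hl : 2 ≤ l) : ∃ C : ℝ, 1 ≤ C ∧ ∀ (f : ℕ → ℝ → ℝ) (a b r : ℝ), a ≤ b → 0 < r →
    (∀ j < l, ∀ t ∈ Set.Icc a b, HasDerivAt (f j) (f (j + 1) t) t) → ContinuousOn (f l) (Set.Icc a b) →
    ((∀ t ∈ Set.Icc a b, f l t ≤ -r) ∨ (∀ t ∈ Set.Icc a b, r ≤ f l t)) →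
    ‖∫ t in a..b, Complex.exp (2 * Real.pi * Complex.I * ((f 0 t : ℝ) : ℂ))‖ ≤ C / r ^ (1 / (l : ℝ)) := by
  induction l, hl using Nat.le_induction with
  | base =>
    refine ⟨4, by norm_num, ?_⟩
    intro f a b r hab hr hd hc hsg
    have h := sdT hab hr (hd 0 (by norm_num)) (hd 1 (by norm_num)) hc hsg
    have e : r ^ (1 / ((2 : ℕ) : ℝ)) = Real.sqrt r := by
      rw [Real.sqrt_eq_rpow]
      norm_num
    rw [e]
    exact h
  | succ l hl ih =>
    obtain ⟨C, hC1, hC⟩ := ih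
    refine ⟨2 * C + 2, by linarith, ?_⟩
    intro f a b r hab hr hd hc hsg
    have hl0 : (0 : ℝ) < (l : ℝ) := by
      have : 0 < l := by omega
      exact_mod_cast this
    set k := r ^ (1 / ((l + 1 : ℕ) : ℝ)) with hk
    have hk0 : 0 < k := Real.rpow_pos_of_pos hr _
    have hkr : k ^ (l + 1) = r := by
      rw [hk, ← Real.rpow_natCast, ← Real.rpow_mul hr.le]
      have : (1 / ((l + 1 : ℕ) : ℝ)) * ((l + 1 : ℕ) : ℝ) = 1 := by
        rw [one_div]
        refine inv_mul_cancel₀ ?_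
        push_cast
        linarith
      rw [this, Real.rpow_one]
    have hlam : 0 < k ^ l := by positivity
    have hroot : (k ^ l) ^ (1 / (l : ℝ)) = k := by
      rw [← Real.rpow_natCast, ← Real.rpow_mul hk0.le]
      have : (l : ℝ) * (1 / (l : ℝ)) = 1 := by
        rw [one_div]
        exact mul_inv_cancel₀ hl0.ne'
      rw [this, Real.rpow_one]
    have hcal : 2 * (C / k) + 2 * k ^ l / r = (2 * C + 2) / k := by
      rw [← hkr, pow_succ]
      field_simp
    have hgc : ContinuousOn (oscP (f 0)) (Set.Icc a b) := fun t ht =>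
      (oscP_deriv (hd 0 (by omega) t ht)).continuousAt.continuousWithinAt
    have hgn : ∀ t, ‖oscP (f 0) t‖ ≤ 1 := fun t => (oscP_norm (f 0) t).le
    have hcl : ContinuousOn (f l) (Set.Icc a b) := fun t ht =>
      (hd l (by omega) t ht).continuousAt.continuousWithinAt
    have hsub : ∀ x y, a ≤ x → y ≤ b → Set.Icc x y ⊆ Set.Icc a b := fun x y hx hy =>
      Set.Icc_subset_Icc hx hy
    have hK : 0 ≤ C / k := by
      have : 0 ≤ C := by linarith
      positivity
    have hG : ∀ x y, a ≤ x → x ≤ y → y ≤ b →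
        ((∀ t ∈ Set.Icc x y, f l t ≤ -(k ^ l)) ∨ (∀ t ∈ Set.Icc x y, k ^ l ≤ f l t)) →
        ‖∫ t in x..y, oscP (f 0) t‖ ≤ C / k := by
      intro x y hx hxy hy h
      have hs := hsub x y hx hy
      have := hC f x y (k ^ l) hxy hlam (fun j hj t ht => hd j (by omega) t (hs ht)) (hcl.mono hs) h
      rw [hroot] at this
      exact this
    rw [← hcal]
    change ‖∫ t in a..b, oscP (f 0) t‖ ≤ _
    rcases hsg with h | h
    · refine splitT (f := fun t => -f l t) (f' := fun t => -f (l + 1) t) hab hlam hr hK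
        (fun t ht => (hd l (by omega) t ht).neg) (fun t ht => by have := h t ht; linarith) hgn hgc ?_
      intro x y hx hxy hy hxy'
      refine hG x y hx hxy hy ?_
      rcases hxy' with h' | h'
      · exact Or.inr fun t ht => by have := h' t ht; linarith
      · exact Or.inl fun t ht => by have := h' t ht; linarith
    · exact splitT (f := f l) (f' := f (l + 1)) hab hlam hr hK (fun t ht => hd l (by omega) t ht) h hgn hgc hG

end GPM
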